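import Pool.Agent.Lib.MP_adc574_ag_OH.OD
import Pool.Agent.Lib.MP_adc574_ag_LZ.HGd

/-!
# S6b: three small statements

PROOF of `clearD`: every `x : RatFunc κ` is `algebraMap a / algebraMap b` (`RatFunc.num`, `RatFunc.denom`, or `IsFractionRing.div_surjective`), `s` = the product of the denominators (induction over a finite set as in `spr_clear`, BK/Spr.lean).
PROOF of `nb_map`: `nb D F P = cder D P + cder D F * P`; `cder` commutes with the coefficient map since `DK κ (algebraMap q) = algebraMap (derivative q)` (`DK_poly`; `DZ_apply`; `dX κ q = derivative q`): compare coefficients (`coeff_cder`-type lemma, BK/Cc or LZ/FrD `coeff_cderD`).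
PROOF of `flat_symp`: `0 = D (B (e a) (e b))` (`B (e a) (e b)` is `0`, `1` or `-1`: `D` kills it) `= B (nab (e a)) (e b) + B (e a) (nab (e b))`, times `Δ'`: `∑ l, α (G l a) B (e l) (e b) + ∑ l, α (G l b) B (e a) (e l) = 0`, i.e. `Gᵀ JJ + JJ G = 0` after `α`, so over `Polynomial κ` (`α` injective; `JJ` is mapped to `JJ`). Multiply by `JJ` on both sides
(`JJ * JJ = -1`; see `K6_symp` in MP_adc574_ag_PC/K6.lean).
-/

set_option autoImplicit false

namespace MPadcOH

open MvPolynomial MPadcGM MPadcHM MPadcLZ MPadcBK MPadcOA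

private theorem S6b_cder {κ : Type} [Field κ] {m : ℕ} (P : MvPolynomial (Fin m) (Polynomial κ)) :
    (cder (dX κ) P).map (algebraMap (Polynomial κ) (RatFunc κ)) =
      cder (DZ κ) (P.map (algebraMap (Polynomial κ) (RatFunc κ))) := by
  refine MvPolynomial.ext _ _ fun e => ?_
  rw [coeff_map, MPadcBK.coeff_cder, MPadcBK.coeff_cder, coeff_map, DZ_apply, DK_poly]
  rfl

private theorem S6b_JJ {R S : Type*} [CommRing R] [CommRing S] (f : R →+* S) (g : ℕ) (a b : Nx g) :
    f (JJ g R a b) = JJ g S a b := by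
  unfold JJ
  rcases a with a | a <;> rcases b with b | b
  · rw [Matrix.fromBlocks_apply₁₁, Matrix.fromBlocks_apply₁₁, Matrix.zero_apply, Matrix.zero_apply, map_zero]
  · rw [Matrix.fromBlocks_apply₁₂, Matrix.fromBlocks_apply₁₂, Matrix.one_apply, Matrix.one_apply]
    split_ifs
    · rw [map_one]
    · rw [map_zero]
  · rw [Matrix.fromBlocks_apply₂₁, Matrix.fromBlocks_apply₂₁, Matrix.neg_apply, Matrix.neg_apply,
      Matrix.one_apply, Matrix.one_apply, map_neg]
    split_ifs
    · rw [map_one]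
    · rw [map_zero]
  · rw [Matrix.fromBlocks_apply₂₂, Matrix.fromBlocks_apply₂₂, Matrix.zero_apply, Matrix.zero_apply, map_zero]

private theorem S6b_DK (κ : Type) [Field κ] (g : ℕ) (a b : Nx g) : DK κ (JJ g (RatFunc κ) a b) = 0 := by
  unfold JJ
  rcases a with a | a <;> rcases b with b | b
  · rw [Matrix.fromBlocks_apply₁₁, Matrix.zero_apply, map_zero]
  · rw [Matrix.fromBlocks_apply₁₂, Matrix.one_apply]
    split_ifs
    · exact (DK κ).map_one_eq_zero
    · rw [map_zero]
  · rw [Matrix.fromBlocks_apply₂₁, Matrix.neg_apply, Matrix.one_apply, map_neg]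
    split_ifs
    · rw [(DK κ).map_one_eq_zero, neg_zero]
    · rw [map_zero, neg_zero]
  · rw [Matrix.fromBlocks_apply₂₂, Matrix.zero_apply, map_zero]

private theorem S6b_sq (g : ℕ) (R : Type*) [CommRing R] : JJ g R * JJ g R = -1 := by
  unfold JJ
  rw [Matrix.fromBlocks_multiply, ← Matrix.fromBlocks_one, Matrix.fromBlocks_neg]
  simp

private theorem S6b_symp (g : ℕ) {R : Type*} [CommRing R] (G : Matrix (Nx g) (Nx g) R)
    (h : G.transpose * JJ g R + JJ g R * G = 0) : G * JJ g R + JJ g R * G.transpose = 0 := by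
  have hsq := S6b_sq g R
  generalize JJ g R = J at h hsq ⊢
  have h1 : J * (G.transpose * J + J * G) * J = 0 := by rw [h, Matrix.mul_zero, Matrix.zero_mul]
  have h2 : J * (G.transpose * J + J * G) * J = J * G.transpose * (J * J) + (J * J) * G * J := by
    noncomm_ring
  rw [h2, hsq] at h1
  have h3 : J * G.transpose * -1 + -1 * G * J = -(G * J + J * G.transpose) := by
    noncomm_ring
  rw [h3] at h1
  exact neg_eq_zero.1 h1

theorem clearD {κ : Type} [Field κ] {ι : Type} [Finite ι] (x : ι → RatFunc κ) :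
    ∃ (s : Polynomial κ) (y : ι → Polynomial κ), s ≠ 0 ∧
      ∀ i, algebraMap (Polynomial κ) (RatFunc κ) (y i) = algebraMap (Polynomial κ) (RatFunc κ) s * x i := by
  classical
  have hfin := Fintype.ofFinite ι
  refine ⟨∏ i, (x i).denom, fun i => (x i).num * ∏ j ∈ Finset.univ.erase i, (x j).denom,
    Finset.prod_ne_zero_iff.2 fun i _ => RatFunc.denom_ne_zero _, fun i => ?_⟩
  have h0 : algebraMap (Polynomial κ) (RatFunc κ) (x i).denom ≠ 0 := by
    intro h
    exact RatFunc.denom_ne_zero (x i) (RatFunc.algebraMap_injective κ (h.trans (map_zero _).symm))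
  have h1 : algebraMap (Polynomial κ) (RatFunc κ) (x i).num =
      algebraMap (Polynomial κ) (RatFunc κ) (x i).denom * x i := by
    have h2 := RatFunc.num_div_denom (x i)
    rw [div_eq_iff h0] at h2
    rw [h2, mul_comm]
  rw [← Finset.mul_prod_erase Finset.univ (fun j => (x j).denom) (Finset.mem_univ i), map_mul, map_mul, h1]
  ring

theorem nb_map {κ : Type} [Field κ] {m : ℕ} (F P : MvPolynomial (Fin m) (Polynomial κ)) :
    (nb (dX κ) F P).map (algebraMap (Polynomial κ) (RatFunc κ)) =
      nb (DZ κ) (F.map (algebraMap (Polynomial κ) (RatFunc κ))) (P.map (algebraMap (Polynomial κ) (RatFunc κ))) := by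
  show (cder (dX κ) P + cder (dX κ) F * P).map (algebraMap (Polynomial κ) (RatFunc κ)) =
    cder (DZ κ) (P.map (algebraMap (Polynomial κ) (RatFunc κ))) +
      cder (DZ κ) (F.map (algebraMap (Polynomial κ) (RatFunc κ))) * P.map (algebraMap (Polynomial κ) (RatFunc κ))
  rw [map_add, map_mul, S6b_cder, S6b_cder]

theorem flat_symp {κ : Type} [Field κ] {M : Type} [AddCommGroup M] [Module (RatFunc κ) M] (nab : M →+ M)
    (B : M →ₗ[RatFunc κ] M →ₗ[RatFunc κ] RatFunc κ) (flat : ∀ x y, DK κ (B x y) = B (nab x) y + B x (nab y)) {g : ℕ}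
    (e : Nx g → M) (he : ∀ a b, B (e a) (e b) = - JJ g (RatFunc κ) a b) (Δ : Polynomial κ)
    (G : Matrix (Nx g) (Nx g) (Polynomial κ))
    (hG : ∀ l, algebraMap (Polynomial κ) (RatFunc κ) Δ • nab (e l) =
      ∑ l', algebraMap (Polynomial κ) (RatFunc κ) (G l' l) • e l') :
    G * JJ g (Polynomial κ) + JJ g (Polynomial κ) * G.transpose = 0 := by
  refine S6b_symp g G (Matrix.ext fun a b => ?_)
  refine RatFunc.algebraMap_injective κ ?_
  rw [Matrix.add_apply, Matrix.mul_apply, Matrix.mul_apply, Matrix.zero_apply, map_zero, map_add, map_sum, map_sum]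
  simp only [map_mul, Matrix.transpose_apply, S6b_JJ]
  have h1 := flat (e a) (e b)
  rw [he, map_neg, S6b_DK, neg_zero] at h1
  have h2 := congrArg (fun z => algebraMap (Polynomial κ) (RatFunc κ) Δ * z) h1
  simp only [mul_zero, mul_add] at h2
  have h3 : algebraMap (Polynomial κ) (RatFunc κ) Δ * B (nab (e a)) (e b) =
      -∑ l, algebraMap (Polynomial κ) (RatFunc κ) (G l a) * JJ g (RatFunc κ) l b := by
    have h4 : algebraMap (Polynomial κ) (RatFunc κ) Δ * B (nab (e a)) (e b) =
        B (algebraMap (Polynomial κ) (RatFunc κ) Δ • nab (e a)) (e b) := by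
      rw [map_smul, LinearMap.smul_apply, smul_eq_mul]
    rw [h4, hG, map_sum, LinearMap.sum_apply, ← Finset.sum_neg_distrib]
    refine Finset.sum_congr rfl fun l _ => ?_
    rw [map_smul, LinearMap.smul_apply, smul_eq_mul, he, mul_neg]
  have h5 : algebraMap (Polynomial κ) (RatFunc κ) Δ * B (e a) (nab (e b)) =
      -∑ l, JJ g (RatFunc κ) a l * algebraMap (Polynomial κ) (RatFunc κ) (G l b) := by
    have h4 : algebraMap (Polynomial κ) (RatFunc κ) Δ * B (e a) (nab (e b)) =
        B (e a) (algebraMap (Polynomial κ) (RatFunc κ) Δ • nab (e b)) := by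
      rw [map_smul, smul_eq_mul]
    rw [h4, hG, map_sum, ← Finset.sum_neg_distrib]
    refine Finset.sum_congr rfl fun l _ => ?_
    rw [map_smul, smul_eq_mul, he, mul_neg, mul_comm]
  rw [h3, h5, ← neg_add, eq_comm, neg_eq_zero] at h2
  exact h2

end MPadcOH
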