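import Pool.Agent.Lib.MP_adc574_ag_LZ.BilB

/-! LEAF P7b (medium-).  The residue of `P / (∏ ∂_j F) ^ k` for all base changes to fields comes from one element of the base ring.

PROOF.  `rr h (fun _ => k) P = resf (fun j => h j ^ k) P` (RsE.lean, by definition), `resf f P = coeff (cst N K') (E.det * P)` for every matrix `E` with `IsE f K' E`: `E.mulVec f = fun i => X i ^ (K' + 1)` (`resf_eq`, RsC.lean).
Over `R`: `C a * X i ^ M = ∑ j, E0 i j * pderiv j F` (`ha`, `Ideal.mem_span_range_iff_exists_fun`; `Jac F = Ideal.span (Set.range fun j => pderiv j F)`). Let `T = m * k + 1`. `(C a * X i ^ M) ^ T` is in the ideal of the `(pderiv j F) ^ k`: `Ideal.span (range f) ^ T ≤ Ideal.span (range fun j => f j ^ k)` for `m * k < T` (pigeonhole; Mathlib: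
`Ideal.sup_pow_add_le_pow_sup_pow`, or `Ideal.span_pow_le..`; or expand `(∑ j, E0 i j * f j) ^ T` with `Finset.sum_pow_eq_sum_piAntidiag`/`Finset.sum_pow_of_commute`, each term has some exponent `≥ k`; or modulo the ideal `I` of the `f j ^ k` every `f j` is nilpotent with exponent `k`: by induction on the number of summands `IsNilpotent`-like with explicit exponents,
`add_pow_mem`-lemma: `x ^ p ∈ I → y ^ q ∈ I → (x + y) ^ (p + q) ∈ I`, Mathlib `Ideal.add_pow_add_pred_mem_of_pow_mem`). So with `n = T * m`-like exponents: `C (a ^ T) * X i ^ (M * T) = ∑ j, E1 i j * (pderiv j F) ^ k`, multiply by one `X i` to have the exponent `K' + 1 = M * T + 1`. The matrix over `L`: `E = C ((β a)⁻¹ ^ T) • (E1.map (map β))`; `det E = C ((β a)⁻¹ ^ (T m)) det (E1.map ..)`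
(`Matrix.det_smul`), so `β a ^ (T m) * rr .. (P.map β) = coeff (cst m K') ((E1.det * P).map β) = β (coeff (cst m K') (E1.det * P))`: `n = T * m`, `b = coeff (cst m K') (E1.det * P)` (`RingHom.map_det`, `coeff_map`). `m = 0` is not a special case. -/

set_option autoImplicit false

namespace MPadcOH

open MvPolynomial MPadcHM MPadcLZ

private theorem P7b_sum {A : Type} [CommRing A] (I : Ideal A) {ι : Type} (g : ι → A) (k : ℕ) (hg : ∀ j, g j ^ k ∈ I)
    (s : Finset ι) : (∑ j ∈ s, g j) ^ (s.card * k + 1) ∈ I := by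
  classical
  induction s using Finset.induction_on with
  | empty =>
    rw [Finset.sum_empty, zero_pow (Nat.succ_ne_zero _)]
    exact zero_mem _
  | insert j s hj ih =>
    rw [Finset.sum_insert hj, Finset.card_insert_of_notMem hj]
    refine Ideal.add_pow_mem_of_pow_mem_of_le I (hg j) ih ?_
    rw [add_mul, one_mul]
    omega

private theorem P7b_mat {R : Type} [CommRing R] {m : ℕ} (F : MvPolynomial (Fin m) R) (a : R) (M : ℕ)
    (ha : ∀ i, C a * X i ^ M ∈ Jac F) (k : ℕ) :
    ∃ E : Matrix (Fin m) (Fin m) (MvPolynomial (Fin m) R),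
      ∀ i, ∑ j, E i j * pderiv j F ^ k = C (a ^ (m * k + 1)) * X i ^ (M * (m * k + 1) + 1) := by
  have h1 : ∀ i : Fin m, ∃ c : Fin m → MvPolynomial (Fin m) R,
      ∑ j, c j * pderiv j F ^ k = C (a ^ (m * k + 1)) * X i ^ (M * (m * k + 1) + 1) := by
    intro i
    refine Ideal.mem_span_range_iff_exists_fun.1 ?_
    obtain ⟨c, hc⟩ := Ideal.mem_span_range_iff_exists_fun.1 (ha i)
    have h2 := P7b_sum (Ideal.span (Set.range fun j : Fin m => pderiv j F ^ k)) (fun j => c j * pderiv j F) k (fun j => by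
      rw [mul_pow]
      exact Ideal.mul_mem_left _ _ (Ideal.subset_span ⟨j, rfl⟩)) Finset.univ
    rw [hc, Finset.card_univ, Fintype.card_fin, mul_pow, ← C_pow, ← pow_mul] at h2
    rw [pow_succ (X i : MvPolynomial (Fin m) R) (M * (m * k + 1)), ← mul_assoc]
    exact Ideal.mul_mem_right _ _ h2
  choose c hc using h1
  exact ⟨Matrix.of c, hc⟩

theorem rr_bc {R : Type} [CommRing R] {m : ℕ} (F : MvPolynomial (Fin m) R) (a : R) (M : ℕ)
    (ha : ∀ i, C a * X i ^ M ∈ Jac F) (k : ℕ) (P : MvPolynomial (Fin m) R) :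
    ∃ (b : R) (n : ℕ), ∀ (L : Type) [Field L] (β : R →+* L), β a ≠ 0 →
      β a ^ n * rr (gr (F.map β)) (fun _ => k) (P.map β) = β b := by
  obtain ⟨E1, hE1⟩ := P7b_mat F a M ha k
  refine ⟨coeff (cst m (M * (m * k + 1))) (E1.det * P), (m * k + 1) * m, fun L _ β hβ => ?_⟩
  obtain ⟨E, hE⟩ : ∃ E : Matrix (Fin m) (Fin m) (MvPolynomial (Fin m) L),
      E = (C ((β a)⁻¹ ^ (m * k + 1)) : MvPolynomial (Fin m) L) • (MvPolynomial.map β).mapMatrix E1 := ⟨_, rfl⟩
  have hIs : IsE (fun j => gr (F.map β) j ^ k) (M * (m * k + 1)) E := by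
    unfold IsE
    funext i
    have h1 : E.mulVec (fun j => gr (F.map β) j ^ k) i =
        C ((β a)⁻¹ ^ (m * k + 1)) * ∑ j, MvPolynomial.map β (E1 i j) * MvPolynomial.map β (pderiv j F) ^ k := by
      rw [Finset.mul_sum]
      show ∑ j, E i j * gr (F.map β) j ^ k = _
      refine Finset.sum_congr rfl fun j _ => ?_
      rw [hE]
      show (C ((β a)⁻¹ ^ (m * k + 1)) * MvPolynomial.map β (E1 i j)) * pderiv j (F.map β) ^ k = _
      rw [pderiv_map, mul_assoc]
    have h2 : ∑ j, MvPolynomial.map β (E1 i j) * MvPolynomial.map β (pderiv j F) ^ k =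
        MvPolynomial.map β (∑ j, E1 i j * pderiv j F ^ k) := by
      rw [map_sum]
      refine Finset.sum_congr rfl fun j _ => ?_
      rw [map_mul, map_pow]
    rw [h1, h2, hE1, map_mul, map_C, map_pow β, map_pow (MvPolynomial.map β), map_X, ← mul_assoc, ← C_mul, ← mul_pow, inv_mul_cancel₀ hβ, one_pow, C_1,
      one_mul]
  have h3 : rr (gr (F.map β)) (fun _ => k) (P.map β) = coeff (cst m (M * (m * k + 1))) (E.det * P.map β) := resf_eq hIs _
  have h4 : E.det * P.map β = C (((β a)⁻¹ ^ (m * k + 1)) ^ m) * MvPolynomial.map β (E1.det * P) := by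
    rw [hE, Matrix.det_smul, Fintype.card_fin, ← RingHom.map_det, map_mul, ← C_pow, mul_assoc]
  rw [h3, h4, coeff_C_mul, coeff_map, ← mul_assoc, ← pow_mul, ← mul_pow, mul_inv_cancel₀ hβ, one_pow, one_mul]

end MPadcOH
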