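import Pool.Agent.Lib.MP_adc574_ag_OH.P7a
import Pool.Agent.Lib.MP_adc574_ag_OH.P7b

/-! P7: base change of the pairing (assembly) -/

set_option autoImplicit false

namespace MPadcOH

open MvPolynomial MPadcHM MPadcLZ

theorem bil_bc {R : Type} [CommRing R] [IsDomain R] {m d : ℕ} (hd : 3 ≤ d) (F : MvPolynomial (Fin m) R) (hF : F.IsHomogeneous d)
    (a : R) (M : ℕ) (ha : ∀ i, C a * X i ^ M ∈ Jac F) (u v : Fin m →₀ ℕ) :
    ∃ (b : R) (n : ℕ), ∀ (L : Type) [Field L] (β : R →+* L), β a ≠ 0 → ∀ K : RegF (d - 1) (F.map β),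
      β a ^ n * Bil K d (monomial u 1) (monomial v 1) = β b := by
  obtain ⟨z, hz⟩ : ∃ z : ℤ, z = (((dg u + m) / d : ℕ) : ℤ) + (((dg v + m) / d : ℕ) : ℤ) - m := ⟨_, rfl⟩
  by_cases hdiv : (d ∣ dg u + m ∧ d ∣ dg v + m) ∧ 0 ≤ z
  · obtain ⟨k, P, hP⟩ := gs_rep (d := d) F z.toNat u
    obtain ⟨b, n, hb⟩ := rr_bc F a M ha k (monomial v 1 * P)
    refine ⟨(-1) ^ ((dg u + m) / d + 1) * b, n, fun L _ β hβ K => ?_⟩
    have h1 : bet K z (monomial u 1) (monomial v 1) = rr (gr (F.map β)) (fun _ => k) ((monomial v 1 * P).map β) := by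
      rw [bet_apply]
      unfold bet0
      rw [if_pos hdiv.2]
      refine resF_eq K.sop k _ ?_
      rw [mul_assoc, hP L β K, map_mul (map β), map_mul (algebraMap (MvPolynomial (Fin m) L) (FF L m)), map_monomial, map_one β]
    rw [bil_mon]
    unfold bmon
    rw [if_pos hdiv.1, ← hz, h1, map_mul β, ← hb L β hβ, map_pow β, map_neg β, map_one β]
    ring
  · refine ⟨0, 0, fun L _ β hβ K => ?_⟩
    rw [bil_mon, map_zero, pow_zero, one_mul]
    unfold bmon
    split_ifs with h2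
    · rw [← hz, bet_neg K z (by
        by_contra h3
        exact hdiv ⟨h2, by omega⟩), mul_zero]
    · rfl

end MPadcOH
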