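import Pool.Agent.Lib.MP_adc574_ag_OH.OD
import Pool.Agent.Lib.MP_adc574_ag_OH.P7
import Pool.Agent.Lib.MP_adc574_ag_IS.IsoM
import Pool.Agent.Lib.MP_adc574_ag_BM.KeyC
import Pool.Agent.Lib.MP_adc574_ag_OA.N_T4

/-!
# Block P: the pairing and the functionals on the monomial basis
-/

set_option autoImplicit false
set_option linter.unusedVariables false

namespace MPadcOH

open MvPolynomial MPadcGM MPadcHM MPadcLZ MPadcBK MPadcOA

section

variable {K : Type} [Field K] {m d : ℕ} {F : MvPolynomial (Fin m) K} {V : Finset (Fin m →₀ ℕ)}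
  {c : V → (Fin m →₀ ℕ) → K} {h : K}

theorem relR_eq : relR d F = relZ d F := by
  unfold relR relZ
  congr 2
  ext P
  constructor
  · rintro ⟨e, he, rfl⟩
    exact ⟨e, by rwa [← MPadcIS.tdg_dg], rfl⟩
  · rintro ⟨e, he, rfl⟩
    exact ⟨e, by rwa [MPadcIS.tdg_dg], rfl⟩

theorem brP_iff {x : MvPolynomial (Fin m) K} : brP d F x = 0 ↔ x ∈ relR d F := by
  rw [relR_eq]
  exact MPadcIS.rel_iff

theorem gf_out (p : ℕ) [Fact p.Prime] [CharP K p] (v : V) (w : Fin m →₀ ℕ) (hw : ¬ d ∣ dg w + m) :
    gf p d F V c v (monomial w 1) = 0 := by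
  have h1 : (monomial w 1 : MvPolynomial (Fin m) K) = basisMonomials (Fin m) K w := by
    rw [coe_basisMonomials]
  unfold gf
  rw [h1, Module.Basis.constr_basis, if_neg (by rwa [MPadcIS.tdg_dg])]

theorem gf_in (p : ℕ) [Fact p.Prime] [CharP K p] (hd : 1 ≤ d) (v : V) (k : ℕ) (w : Fin m →₀ ℕ) (hw : tdg w = k * d) :
    gf p d F V c v (monomial w 1) = (-1) ^ k * gam p F c (fun v : V => lvl d v.1) v k (monomial w 1) := by
  have h1 : (monomial w 1 : MvPolynomial (Fin m) K) = basisMonomials (Fin m) K w := by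
    rw [coe_basisMonomials]
  have h2 : lvl d w = k := by
    unfold lvl
    rw [hw]
    exact Nat.mul_div_cancel k (by omega)
  unfold gf
  rw [h1, Module.Basis.constr_basis, if_pos ⟨k, by rw [hw, mul_comm]⟩, h2, ← h1]

theorem gf_relP (p : ℕ) [Fact p.Prime] [CharP K p] (hm : 3 ≤ m) (hd : 3 ≤ d) (hp : d * m < p) (hF : F.IsHomogeneous d)
    (H : RegF (d - 1) F) (hC : CData d (m - 1) F (fun v : V => v.1) (fun v : V => lvl d v.1) c h) (hh : h ≠ 0) (v : V)
    (i : Fin m) (Q : MvPolynomial (Fin m) K) : gf p d F V c v (dl F i Q) = 0 := by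
  classical
  have hmp : m < p := by
    have h1 : 1 * m ≤ d * m := Nat.mul_le_mul_right m (by omega)
    omega
  have hid : F.map (RingHom.id K) = F := map_id F
  obtain ⟨c', h1, h2, h3, _⟩ := MPadcBM.exists_cfun (RingHom.id K) (N := m) (d := d) (by omega) (by omega) hF
    (fun (v : V) k => gam p F c (fun v : V => lvl d v.1) v k)
    (fun v k hk i Q => by
      rw [hid]
      exact gam_exa p hC (by omega) v hk i Q)
    (fun lam hlam => gam_indep p (by omega) hF hC hh (J := m - 1) (by omega) (M := m * (d - 2) + 1)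
      (fun e he => MPadcIS.top_mem H (by
        have h4 : d - 1 - 1 = d - 2 := by omega
        rw [h4]
        exact he))
      (k₀ := m) (by omega) (by omega) (by
        obtain ⟨f, hf⟩ : ∃ f, d = f + 3 := ⟨d - 3, by omega⟩
        have h5 : d - 2 = f + 1 := by omega
        rw [h5, hf, mul_add, mul_add]
        omega) lam (fun e he => hlam m (by omega) e he))
  have h4 : gf p d F V c v = c' v := by
    refine (basisMonomials (Fin m) K).ext fun e => ?_
    rw [coe_basisMonomials]
    by_cases he : d ∣ tdg e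
    · obtain ⟨k, hk⟩ := he
      have hk' : tdg e = k * d := by rw [hk, mul_comm]
      have hk1 : 1 ≤ k := by
        rcases Nat.eq_zero_or_pos k with h0 | h0
        · rw [h0, zero_mul, MPadcIS.tdg_dg] at hk'
          omega
        · exact h0
      rw [h3 v k e hk1 hk']
      exact gf_in p (by omega) v k e hk'
    · rw [MPadcIS.tdg_dg] at he
      rw [h2 v e he]
      exact gf_out p v e he
  rw [h4]
  have h5 := h1 v i Q
  rw [hid] at h5
  exact h5

/-- P1. The functionals of levels with sum `≤ m - 1` are orthogonal. -/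
theorem iso_V (p : ℕ) [Fact p.Prime] [CharP K p] (hm : 3 ≤ m) (hd : 3 ≤ d) (hp : d * m < p) (hF : F.IsHomogeneous d)
    (H : RegF (d - 1) F) (hC : CData d (m - 1) F (fun v : V => v.1) (fun v : V => lvl d v.1) c h) (hh : h ≠ 0)
    {g : ℕ} (E : Nx g → MvPolynomial (Fin m) K)
    (hE : ∀ P : MvPolynomial (Fin m) K, ∃ a : Nx g → K, P - ∑ l, C (a l) * E l ∈ relR d F) (s : K) (hs : s ≠ 0)
    (hB : ∀ l l' : Nx g, Bil H d (E l) (E l') = - s ^ 2 * JJ g K l l') (v v' : V)
    (hv : lvl d v.1 + lvl d v'.1 ≤ m - 1) :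
    ∑ l, ∑ l', gf p d F V c v (E l) * JJ g K l l' * gf p d F V c v' (E l') = 0 := by
  have h1 := MPadcIS.iso_main H (by omega) (by omega) ((hm_iff d F).2 hF) hC hh p (fun v => gf p d F V c v)
    (gf_relP p hm hd hp hF H hC hh) (fun v w hw => gf_out p v w hw) (fun v k w _ hw => gf_in p (by omega) v k w hw)
    E (fun P => by
      obtain ⟨a, ha⟩ := hE P
      refine ⟨a, ?_⟩
      rw [← brP_iff, map_sub, sub_eq_zero, map_sum] at ha
      rw [ha]
      refine Finset.sum_congr rfl fun l _ => ?_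
      rw [← smul_eq_C_mul, map_smul])
    (fun l l' => (s ^ 2)⁻¹ * JJ g K l l')
    (fun l k => by
      have h2 : ∀ l', (s ^ 2)⁻¹ * JJ g K l l' * Bil H d (E l') (E k) = - (JJ g K l l' * JJ g K l' k) := by
        intro l'
        rw [hB]
        field_simp
      rw [Finset.sum_congr rfl fun l' _ => h2 l', Finset.sum_neg_distrib]
      have h3 := congrFun (congrFun (JJ_mul_JJ g K) l) k
      rw [Matrix.mul_apply, Matrix.neg_apply, Matrix.one_apply] at h3
      rw [h3, neg_neg]) (v := v) (v' := v') hv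
  have h2 : ∑ l, ∑ l', gf p d F V c v (E l) * ((s ^ 2)⁻¹ * JJ g K l l') * gf p d F V c v' (E l') =
      (s ^ 2)⁻¹ * ∑ l, ∑ l', gf p d F V c v (E l) * JJ g K l l' * gf p d F V c v' (E l') := by
    rw [Finset.mul_sum]
    refine Finset.sum_congr rfl fun l _ => ?_
    rw [Finset.mul_sum]
    refine Finset.sum_congr rfl fun l' _ => ?_
    ring
  rw [h2] at h1
  exact (mul_eq_zero.1 h1).resolve_left (inv_ne_zero (pow_ne_zero 2 hs))

/-- P2. Duality of the determinants. -/
theorem dj_dual (p : ℕ) [Fact p.Prime] [CharP K p] (hm : 3 ≤ m) (hd : 3 ≤ d) (hp : d * m < p) (hF : F.IsHomogeneous d)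
    (H : RegF (d - 1) F) (hC : CData d (m - 1) F (fun v : V => v.1) (fun v : V => lvl d v.1) c h) (hh : h ≠ 0)
    {i j : ℕ} (hij : i + j = m - 1) (hi : dj p d F V c i ≠ 0) : dj p d F V c j ≠ 0 := by
  classical
  intro h0
  unfold dj at hi h0
  obtain ⟨x, hx0, hx⟩ := Matrix.exists_mulVec_eq_zero_iff.2 h0
  apply hx0
  have h1 := MPadcIS.det_dual H (by omega) (by omega) ((hm_iff d F).2 hF) hC hh p (fun v => gf p d F V c v)
    (gf_relP p hm hd hp hF H hC hh) (fun v w hw => gf_out p v w hw) (fun v k w _ hw => gf_in p (by omega) v k w hw)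
    hij (fun y => by
      obtain ⟨A, hA⟩ : ∃ A : Matrix {v : V // lvl d v.1 ≤ i} {v : V // lvl d v.1 ≤ i} K,
        A = Matrix.of fun v u : {v : V // lvl d v.1 ≤ i} => gf p d F V c v.1 (monomial u.1.1 1) := ⟨_, rfl⟩
      obtain ⟨μ, hμ⟩ : ∃ μ : {v : V // lvl d v.1 ≤ i} → K, A.mulVec μ = fun v => y v.1 := by
        refine ⟨A⁻¹.mulVec fun v => y v.1, ?_⟩
        rw [Matrix.mulVec_mulVec, Matrix.mul_nonsing_inv, Matrix.one_mulVec]
        rw [isUnit_iff_ne_zero, hA]
        convert hi
      refine ⟨fun u => if hu : lvl d u.1 ≤ i then μ ⟨u, hu⟩ else 0, fun v hv => ?_⟩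
      have h2 := congrFun hμ ⟨v, hv⟩
      rw [Matrix.mulVec, dotProduct] at h2
      rw [← h2, ← Finset.sum_filter, Finset.sum_subtype (Finset.univ.filter fun u : V => lvl d u.1 ≤ i)
        (p := fun u : V => lvl d u.1 ≤ i) (fun u => by simp)]
      refine Finset.sum_congr rfl fun u _ => ?_
      beta_reduce
      rw [dif_pos u.2, hA, mul_comm]
      rfl)
    (fun u => if hu : lvl d u.1 ≤ j then x ⟨u, hu⟩ else 0)
    (fun u hu => dif_neg (by omega))
    (fun v hv => by
      have h2 := congrFun hx ⟨v, hv⟩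
      rw [Matrix.mulVec, dotProduct] at h2
      have h3 : ∀ u : V, (if hu : lvl d u.1 ≤ j then x ⟨u, hu⟩ else 0) * gf p d F V c v (monomial u.1 1) =
          if lvl d u.1 ≤ j then (if hu : lvl d u.1 ≤ j then x ⟨u, hu⟩ else 0) * gf p d F V c v (monomial u.1 1) else 0 := by
        intro u
        split_ifs with h4
        · rfl
        · rw [zero_mul]
      rw [Finset.sum_congr rfl fun u _ => h3 u, ← Finset.sum_filter,
        Finset.sum_subtype (Finset.univ.filter fun u : V => lvl d u.1 ≤ j) (p := fun u : V => lvl d u.1 ≤ j) (fun u => by simp)]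
      refine Eq.trans (Finset.sum_congr rfl fun u _ => ?_) h2
      rw [dif_pos u.2, Matrix.of_apply, mul_comm])
  funext u
  have h2 := congrFun h1 u.1
  simp only [dif_pos u.2] at h2
  exact h2

/-- P3. The monomials `x ^ v` span (every field). -/
theorem span_V (hm : 3 ≤ m) (hd : 3 ≤ d) (hF : F.IsHomogeneous d) (H : RegF (d - 1) F)
    (hC : CData d (m - 1) F (fun v : V => v.1) (fun v : V => lvl d v.1) c h) (hh : h ≠ 0) (P : MvPolynomial (Fin m) K) :
    ∃ x : V → K, P - ∑ v, C (x v) * monomial v.1 1 ∈ relR d F := by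
  obtain ⟨a, ha⟩ := MPadcIS.span_g H (by omega) (by omega) hC hh P
  refine ⟨a, ?_⟩
  rw [← brP_iff, map_sub, sub_eq_zero, map_sum, ha]
  refine Finset.sum_congr rfl fun l _ => ?_
  rw [← smul_eq_C_mul, map_smul]

/-- P4. The Gram matrix is invertible. -/
theorem gram_V (hm : 3 ≤ m) (hd : 3 ≤ d) (hF : F.IsHomogeneous d) (H : RegF (d - 1) F)
    (hC : CData d (m - 1) F (fun v : V => v.1) (fun v : V => lvl d v.1) c h) (hh : h ≠ 0) :
    (Matrix.of fun v v' : V => Bil H d (monomial v.1 1) (monomial v'.1 1)).det ≠ 0 := by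
  intro h0
  obtain ⟨x, hx0, hx⟩ := Matrix.exists_vecMul_eq_zero_iff.2 h0
  refine hx0 (MPadcIS.gram_inj H (by omega) hC hh x fun v' => ?_)
  have h2 := congrFun hx v'
  rw [Matrix.vecMul, dotProduct] at h2
  exact h2

/-- P5. Low levels are isotropic. -/
theorem bil_low (hm : 3 ≤ m) (hd : 3 ≤ d) (hF : F.IsHomogeneous d) (H : RegF (d - 1) F)
    (hC : CData d (m - 1) F (fun v : V => v.1) (fun v : V => lvl d v.1) c h) (v v' : V)
    (hv : lvl d v.1 + lvl d v'.1 ≤ m - 1) : Bil H d (monomial v.1 1) (monomial v'.1 1) = 0 :=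
  MPadcIS.bil_lo H (by omega) hC (v := v) (v' := v') (by omega)

private theorem dg_sub (w : Fin m →₀ ℕ) (n : ℕ) (hn : n ≤ dg w) : ∃ u : Fin m →₀ ℕ, u ≤ w ∧ dg u = n := by
  have h1 : ∀ k : ℕ, k ≤ dg w → ∃ u : Fin m →₀ ℕ, u ≤ w ∧ dg u = k := by
    intro k
    induction k with
    | zero => intro _; exact ⟨0, fun i => Nat.zero_le _, by simp [dg]⟩
    | succ k ih =>
      intro hk
      obtain ⟨u, hu, hu'⟩ := ih (by omega)
      have h2 : ∃ i, u i < w i := by
        by_contra h3
        push Not at h3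
        have h4 : w ≤ u := fun i => h3 i
        have h5 : u = w := le_antisymm hu h4
        rw [← hu', h5] at hk
        omega
      obtain ⟨i, hi⟩ := h2
      refine ⟨u + Finsupp.single i 1, fun j => ?_, ?_⟩
      · rw [Finsupp.add_apply, Finsupp.single_apply]
        split_ifs with hij
        · subst hij
          omega
        · rw [add_zero]
          exact hu j
      · rw [MPadcIS.dg_add, hu']
        congr 1
        unfold dg
        rw [Finset.sum_eq_single i]
        · rw [Finsupp.single_eq_same]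
        · intro j _ hj
          rw [Finsupp.single_apply, if_neg hj.symm]
        · intro hi'
          exact absurd (Finset.mem_univ i) hi'
  exact h1 n hn

/-- There are monomials. -/
theorem V_pos (hm : 3 ≤ m) (hd : 3 ≤ d) (H : RegF (d - 1) F)
    (hC : CData d (m - 1) F (fun v : V => v.1) (fun v : V => lvl d v.1) c h) (hh : h ≠ 0) : 0 < V.card := by
  classical
  rw [Finset.card_pos]
  by_contra hV
  rw [Finset.not_nonempty_iff_eq_empty] at hV
  have hempty : IsEmpty V := by
    rw [hV]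
    infer_instance
  obtain ⟨a, ha⟩ : ∃ a, a = (m + d - 1) / d := ⟨_, rfl⟩
  have ha1 : m ≤ a * d := by
    have h1 := Nat.div_add_mod (m + d - 1) d
    have h2 := Nat.mod_lt (m + d - 1) (show 0 < d by omega)
    rw [← ha] at h1
    rw [mul_comm]
    omega
  have ha2 : a * d ≤ m + d - 1 := by
    rw [ha]
    exact Nat.div_mul_le_self _ _
  have ha3 : a ≤ m - 1 := by
    by_contra h1
    have h2 : m * d ≤ a * d := Nat.mul_le_mul_right d (by omega)
    obtain ⟨f, hf⟩ : ∃ f, d = f + 3 := ⟨d - 3, by omega⟩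
    obtain ⟨r, hr⟩ : ∃ r, m = r + 3 := ⟨m - 3, by omega⟩
    rw [hf, hr] at h2 ha2
    have h3 : (r + 3) * (f + 3) = r * f + 3 * r + 3 * f + 9 := by ring
    rw [h3] at h2
    omega
  have ha4 : 1 ≤ a := by
    rcases Nat.eq_zero_or_pos a with h0 | h0
    · rw [h0, zero_mul] at ha1
      omega
    · exact h0
  have hsplit : (m - a) * d + a * d = m * d := by
    rw [← add_mul]
    congr 1
    omega
  have hmd : m * d = m * (d - 2) + 2 * m := by
    obtain ⟨f, hf⟩ : ∃ f, d = f + 3 := ⟨d - 3, by omega⟩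
    have h5 : d - 2 = f + 1 := by omega
    rw [h5, hf]
    ring
  have hlow : m ≤ (m - a) * d := by
    obtain ⟨f, hf⟩ : ∃ f, d = f + 3 := ⟨d - 3, by omega⟩
    obtain ⟨r, hr⟩ : ∃ r, m = r + 3 := ⟨m - 3, by omega⟩
    have h6 : m * d = r * f + 3 * r + 3 * f + 9 := by
      rw [hf, hr]
      ring
    omega
  have hone : (1 : MvPolynomial (Fin m) K) ∈ Ideal.span (Set.range (gr F)) := by
    refine resf_nondeg H.sop (fun j => mem_X H.he (H.hom j)) _ fun w => ?_
    rw [one_mul]
    by_cases hw : dg w + m = m * (d - 1)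
    · have h7 : m * (d - 1) = m * (d - 2) + m := by
        obtain ⟨f, hf⟩ : ∃ f, d = f + 3 := ⟨d - 3, by omega⟩
        have h5 : d - 2 = f + 1 := by omega
        have h6 : d - 1 = f + 2 := by omega
        rw [h5, h6]
        ring
      obtain ⟨u, hu, hu'⟩ := dg_sub w ((m - a) * d - m) (by omega)
      have h8 := hC.span (m - a) (by omega) (by omega) u (by
        rw [MPadcIS.tdg_dg, hu']
        omega)
      have h9 : ∑ v : V, (if lvl d v.1 = m - a then monomial v.1 (c v u) else (0 : MvPolynomial (Fin m) K)) = 0 :=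
        Finset.sum_eq_zero fun v _ => hempty.elim v
      rw [h9, sub_zero] at h8
      have h10 : C h * monomial w 1 ∈ Ideal.span (Set.range (gr F)) := by
        have h11 : (monomial w 1 : MvPolynomial (Fin m) K) = monomial (w - u) 1 * monomial u 1 := by
          rw [monomial_mul, mul_one, tsub_add_cancel_of_le hu]
        rw [h11, mul_left_comm]
        exact Ideal.mul_mem_left _ _ h8
      have h12 := resf_mem H.sop _ h10
      rw [← smul_eq_C_mul, map_smul, smul_eq_mul] at h12
      exact (mul_eq_zero.1 h12).resolve_left hh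
    · refine resf_hom H.sop (fun _ => d - 1) H.hom _ _ (hm_mono w 1) ?_
      rw [Finset.sum_const, Finset.card_univ, Fintype.card_fin, smul_eq_mul]
      exact hw
  obtain ⟨Q, hQ⟩ := Ideal.mem_span_range_iff_exists_fun.1 hone
  have h1 := congrArg (constantCoeff (σ := Fin m) (R := K)) hQ
  rw [map_sum, map_one, Finset.sum_eq_zero] at h1
  · exact zero_ne_one h1
  · intro j _
    rw [map_mul]
    refine mul_eq_zero_of_right _ ?_
    rw [constantCoeff_eq]
    by_contra h2
    have h3 := H.hom j 0 (mem_support_iff.2 h2)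
    have h4 : dg (0 : Fin m →₀ ℕ) = 0 := by simp [dg]
    rw [h4] at h3
    omega

/-- P6. Half of the monomials have level `< m / 2` (`m` odd). -/
theorem card_low (hm : 3 ≤ m) (ho : Odd m) (hd : 3 ≤ d) (hF : F.IsHomogeneous d) (H : RegF (d - 1) F)
    (hC : CData d (m - 1) F (fun v : V => v.1) (fun v : V => lvl d v.1) c h) (hh : h ≠ 0) :
    V.card = 2 * Nat.card {v : V // 2 * lvl d v.1 < m} ∧ 0 < Nat.card {v : V // 2 * lvl d v.1 < m} := by
  classical
  have h1 := MPadcIS.count_half H (by omega) hC hh ho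
  rw [Fintype.card_coe, ← Nat.card_eq_fintype_card] at h1
  have h2 := V_pos hm hd H hC hh
  exact ⟨h1, by omega⟩

end

end MPadcOH
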