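import Pool.Agent.Lib.MP_adc574_ag_OH.OD

/-!
# R1: the functionals `gf`

PROOF. `gf` is `constr` on the basis of monomials (`basisMonomials`, `coe_basisMonomials`, `Module.Basis.constr_basis`).
`gf_mono`: `monomial e a = a • monomial e 1`.
`gf_map`: both sides are additive in `P` and semilinear; for a monomial use `gf_mono`, `gam_map` (BK/Gam) with `monomial e 1`.
`gf_lvl`: for `v ∈ V` the level of `v` is exact: `CData.lev` (`tdg v = lvl d v * d`).
`gf_rel`: `relR` is a span (`Submodule.span_induction` or `Submodule.span_le` with the kernel of `gf`). Monomials with `¬ d ∣ tdg e`: `gf_mono`. `dl F i Q = ∂_i Q + ∂_i F * Q`: additive in `Q`, so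
`Q = monomial w a`; `F` is homogeneous of degree `d`, so `∂_i F` has degree `d - 1` and all monomials of `∂_i F * x ^ w` have `tdg = tdg w + d - 1`, `∂_i x ^ w` is `0` or has `tdg = tdg w - 1`. If `d` does not divide `tdg w + d - 1`
both terms are 0. Otherwise `tdg w + d - 1 = d (k + 1)` with `k ≥ 1` (as `tdg w ≥ m ≥ 1`, so `tdg w - 1 = d k`; if `k = 0` then `tdg w = 1`: then `m = 1` and `w = 0`: excluded by `2 ≤ m`),
and `gf (∂_i F * x ^ w) = (-1) ^ (k + 1) gam v (k + 1) (x ^ w * ∂_i F) = (-1) ^ (k + 1) gam v k (∂_i x ^ w) = - gf (∂_i x ^ w)` by `gam_exa` (BK/Gam), `mul_comm`. (`gf` of a polynomial all of whose monomials `e` satisfy `tdg e = k d` is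
`(-1) ^ k gam v k` of it: first lemma `gf_hom`.)
-/

set_option autoImplicit false

namespace MPadcOH

open MvPolynomial MPadcGM MPadcHM MPadcLZ MPadcBK MPadcOA

section

variable {R : Type} [CommRing R] (p : ℕ) [Fact p.Prime] [CharP R p] {m d : ℕ} {F : MvPolynomial (Fin m) R}
  {V : Finset (Fin m →₀ ℕ)} {c : V → (Fin m →₀ ℕ) → R} {h : R}

private theorem R1_tdg (e : Fin m →₀ ℕ) : tdg e = e.degree + m := by
  unfold tdg
  rw [Finsupp.degree_eq_sum, Finset.sum_add_distrib]
  simp

private theorem R1_hom {N : ℕ} {P : MvPolynomial (Fin m) R} (hP : P.IsHomogeneous N)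
    {e : Fin m →₀ ℕ} (he : e ∈ P.support) : tdg e = N + m := by
  have h1 := hP (mem_support_iff.mp he)
  rw [Finsupp.weight_apply, Finsupp.sum_fintype _ _ (by simp)] at h1
  simp only [Pi.one_apply, smul_eq_mul, mul_one] at h1
  rw [R1_tdg, Finsupp.degree_eq_sum, h1]

theorem gf_mono (v : V) (e : Fin m →₀ ℕ) (a : R) : gf p d F V c v (monomial e a) =
    a * (if d ∣ tdg e then (-1) ^ (lvl d e) * gam p F c (fun v : V => lvl d v.1) v (lvl d e) (monomial e 1) else 0) := by
  have h1 : (monomial e a : MvPolynomial (Fin m) R) = a • MvPolynomial.basisMonomials (Fin m) R e := by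
    rw [MvPolynomial.coe_basisMonomials, MvPolynomial.smul_monomial, smul_eq_mul, mul_one]
  rw [h1, map_smul, smul_eq_mul]
  unfold gf
  rw [Module.Basis.constr_basis]

theorem gf_hom (v : V) (k : ℕ) (hd : 1 ≤ d) (P : MvPolynomial (Fin m) R) (hP : ∀ e ∈ P.support, tdg e = k * d) :
    gf p d F V c v P = (-1) ^ k * gam p F c (fun v : V => lvl d v.1) v k P := by
  have key : ∀ Q : MvPolynomial (Fin m) R, Q.support ⊆ P.support →
      gf p d F V c v (∑ e ∈ Q.support, monomial e (coeff e Q)) =
        (-1) ^ k * gam p F c (fun v : V => lvl d v.1) v k (∑ e ∈ Q.support, monomial e (coeff e Q)) := by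
    intro Q hQ
    rw [map_sum, map_sum, Finset.mul_sum]
    refine Finset.sum_congr rfl fun e he => ?_
    have h1 := hP e (hQ he)
    have h2 : lvl d e = k := by
      unfold lvl
      rw [h1, Nat.mul_div_cancel _ hd]
    have h3 : (monomial e (coeff e Q) : MvPolynomial (Fin m) R) = coeff e Q • monomial e 1 := by
      rw [smul_monomial, smul_eq_mul, mul_one]
    rw [gf_mono, if_pos (by rw [h1]; exact Dvd.intro_left k rfl), h2, h3, map_smul, smul_eq_mul]
    ring
  have h := key P (Finset.Subset.refl _)
  rw [← P.as_sum] at h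
  exact h

theorem gf_map {S : Type} [CommRing S] [CharP S p] (φ : R →+* S) (v : V) (P : MvPolynomial (Fin m) R) :
    gf p d (F.map φ) V (fun v e => φ (c v e)) v (P.map φ) = φ (gf p d F V c v P) := by
  induction P using MvPolynomial.induction_on' with
  | monomial u a =>
    rw [MvPolynomial.map_monomial, gf_mono, gf_mono, map_mul]
    congr 1
    by_cases hu : d ∣ tdg u
    · rw [if_pos hu, if_pos hu, map_mul φ, map_pow φ, map_neg φ, map_one φ, ← gam_map p φ, map_monomial,
        map_one φ]
    · rw [if_neg hu, if_neg hu, map_zero]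
  | add P Q hP hQ => rw [map_add, map_add, hP, hQ, map_add, map_add]

private theorem R1_zero (v : V) (P : MvPolynomial (Fin m) R) (hP : ∀ e ∈ P.support, ¬ d ∣ tdg e) :
    gf p d F V c v P = 0 := by
  rw [P.as_sum, map_sum]
  refine Finset.sum_eq_zero fun e he => ?_
  rw [gf_mono, if_neg (hP e he), mul_zero]

private theorem R1_dl (hm : 2 ≤ m) (hd : 1 ≤ d) (hF : F.IsHomogeneous d) {J : ℕ} (hJ : J < p)
    (hC : CData d J F (fun v : V => v.1) (fun v : V => lvl d v.1) c h) (v : V) (i : Fin m)
    (w : Fin m →₀ ℕ) : gf p d F V c v (dl F i (monomial w 1)) = 0 := by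
  have s1 : ∀ e ∈ (pderiv i (monomial w (1 : R))).support, tdg e + 1 = tdg w := by
    intro e he
    rw [mem_support_iff, pderiv_monomial, coeff_monomial, one_mul] at he
    have h1 : w - Finsupp.single i 1 = e := by
      by_contra h1
      exact he (if_neg h1)
    rw [if_pos h1] at he
    have h2 : w i ≠ 0 := by
      intro h2
      apply he
      rw [h2, Nat.cast_zero]
    have h3 : e + Finsupp.single i 1 = w := by
      rw [← h1]
      refine tsub_add_cancel_of_le ?_
      rw [Finsupp.single_le_iff]
      omega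
    rw [R1_tdg, R1_tdg, ← h3, map_add, Finsupp.degree_single]
    omega
  have s2 : ∀ e ∈ (pderiv i F * monomial w (1 : R)).support, tdg e = tdg w + (d - 1) := by
    intro e he
    have h1 : (pderiv i F * monomial w (1 : R)).IsHomogeneous ((d - 1) + w.degree) :=
      hF.pderiv.mul (isHomogeneous_monomial (1 : R) rfl)
    rw [R1_hom h1 he, R1_tdg]
    omega
  have hw : 2 ≤ tdg w := by
    rw [R1_tdg]
    omega
  show gf p d F V c v (pderiv i (monomial w (1 : R)) + pderiv i F * monomial w (1 : R)) = 0
  by_cases hk : ∃ k, tdg w = k * d + 1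
  · obtain ⟨k, hk⟩ := hk
    have hk1 : 1 ≤ k := by
      by_contra h1
      have h2 : k = 0 := by omega
      rw [h2, zero_mul] at hk
      omega
    rw [map_add, gf_hom p v k hd _ (fun e he => by have := s1 e he; omega),
      gf_hom p v (k + 1) hd (pderiv i F * monomial w (1 : R)) (fun e he => by
        have := s2 e he
        rw [add_mul, one_mul]
        omega), mul_comm (pderiv i F), gam_exa p hC hJ v hk1, pow_succ]
    ring
  · rw [map_add, R1_zero p v _ ?_, R1_zero p v _ ?_, add_zero]
    · intro e he hde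
      apply hk
      obtain ⟨j, hj⟩ := hde
      have h1 := s2 e he
      have hj1 : j ≠ 0 := by
        rintro rfl
        rw [mul_zero] at hj
        omega
      obtain ⟨j', rfl⟩ := Nat.exists_eq_succ_of_ne_zero hj1
      refine ⟨j', ?_⟩
      rw [hj, Nat.mul_succ, mul_comm] at h1
      omega
    · intro e he hde
      apply hk
      obtain ⟨j, hj⟩ := hde
      have h1 := s1 e he
      refine ⟨j, ?_⟩
      rw [mul_comm, ← hj, h1]

theorem gf_rel (hm : 2 ≤ m) (hd : 1 ≤ d) (hF : F.IsHomogeneous d) {J : ℕ} (hJ : J < p)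
    (hC : CData d J F (fun v : V => v.1) (fun v : V => lvl d v.1) c h) (v : V) {P : MvPolynomial (Fin m) R}
    (hP : P ∈ relR d F) : gf p d F V c v P = 0 := by
  have hle : relR d F ≤ LinearMap.ker (gf p d F V c v) := by
    unfold relR
    rw [Submodule.span_le]
    rintro _ (⟨i, Q, rfl⟩ | ⟨e, he, rfl⟩)
    · rw [SetLike.mem_coe, LinearMap.mem_ker]
      induction Q using MvPolynomial.induction_on' with
      | monomial w a =>
        have h1 : dl F i (monomial w a) = a • dl F i (monomial w 1) := by
          have h2 : (monomial w a : MvPolynomial (Fin m) R) = a • monomial w 1 := by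
            rw [smul_monomial, smul_eq_mul, mul_one]
          unfold dl
          rw [h2, Derivation.map_smul, mul_smul_comm, smul_add]
        rw [h1, map_smul, R1_dl p hm hd hF hJ hC v i w, smul_zero]
      | add P Q hP hQ =>
        have h1 : dl F i (P + Q) = dl F i P + dl F i Q := by
          unfold dl
          rw [map_add]
          ring
        rw [h1, map_add, hP, hQ, add_zero]
    · rw [SetLike.mem_coe, LinearMap.mem_ker, gf_mono, if_neg he, mul_zero]
  exact LinearMap.mem_ker.1 (hle hP)

end

end MPadcOH
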