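import Pool.Agent.Lib.MP_adc574_ag_OH.RD
import Pool.Agent.Lib.MP_adc574_ag_OH.R1
import Pool.Agent.Lib.MP_adc574_ag_OH.OP

/-!
# R4: the rows are orthogonal

PROOF. `spanE` (first theorem): let `β : R[X] →+* L` be a ring homomorphism to a field with `β Δ ≠ 0`. `regF`: `F' = H.F.map β` satisfies `RegF (d - 1)`: `sop`: from `H.Ok.sm` with `e = single i M` (`dg e = M`): `X i ^ M = monomial (single i M) 1`,
`C (β Δ)` is a unit, so `X i ^ M ∈ Ideal.span (range (gr F'))` (`Jac` is the same ideal; `Ideal.map_span`, `pderiv_map`); `hom`: `IsHomogeneous.pderiv` / `hm_pderiv`, `Hm` (see LZ/Pair.lean, `pairing`). `CData` of `F'`: `H.Ok.cd.map β` with `β h ≠ 0` (`h ∣ Δ`).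
`spanE`: by `span_V` (OP) `P` is `∑ x_v x ^ v` modulo `relR`; and `β Δ * x ^ v = ∑ l, β (Q' v l) * P_l` (`H.Ok.bas'`), divide by `β Δ`.
`fU_iso`: `L = RatFunc k` (or `FractionRing k[X]`), `β = algebraMap`, injective; `CharP L p`. `iso_V` (OP) with `E l = (H.P l).map β`, `s = β H.s ≠ 0`, `hB = H.Ok.par L β ..`. The functionals over `L` on `(H.P l).map β` are `β (gf v (H.P l))` (`gf_map`, R1), so `β` of
`∑ l l', gf v (P l) * JJ l l' * gf v' (P l')` is 0 (`JJ` has the entries 0, 1, -1: `JJ g L l l' = β (JJ g _ l l')`), and `fU v l = (h ^ .. * s ^ ..) * gf v (P l)`: factor out.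
-/

set_option autoImplicit false

namespace MPadcOH

open MvPolynomial MPadcGM MPadcHM MPadcLZ MPadcBK MPadcOA

private theorem R4_jac {R L : Type} [CommRing R] [Field L] {m : ℕ} (β : R →+* L) {F P : MvPolynomial (Fin m) R} (hP : P ∈ Jac F) :
    P.map β ∈ Ideal.span (Set.range (gr (F.map β))) := by
  have h1 := Ideal.mem_map_of_mem (MvPolynomial.map β) hP
  unfold Jac at h1
  rw [Ideal.map_span, ← Set.range_comp] at h1
  have h2 : (⇑(MvPolynomial.map β) ∘ fun j => pderiv j F) = gr (F.map β) := by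
    funext j
    show MvPolynomial.map β (pderiv j F) = pderiv j (F.map β)
    rw [pderiv_map]
  rw [h2] at h1
  exact h1

private theorem R4_ne {R L : Type} [CommRing R] [Field L] (β : R →+* L) {a b : R} (h : a ∣ b) (hb : β b ≠ 0) : β a ≠ 0 := by
  intro h0
  have h1 := map_dvd β h
  rw [h0, zero_dvd_iff] at h1
  exact hb h1

private theorem R4_J {R L : Type} [CommRing R] [CommRing L] (β : R →+* L) (g : ℕ) (l l' : Nx g) : JJ g L l l' = β (JJ g R l l') := by
  unfold JJ
  rcases l with i | i <;> rcases l' with j | j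
  · rw [Matrix.fromBlocks_apply₁₁, Matrix.fromBlocks_apply₁₁, Matrix.zero_apply, Matrix.zero_apply, map_zero]
  · rw [Matrix.fromBlocks_apply₁₂, Matrix.fromBlocks_apply₁₂, Matrix.one_apply, Matrix.one_apply]
    split_ifs
    · rw [map_one]
    · rw [map_zero]
  · rw [Matrix.fromBlocks_apply₂₁, Matrix.fromBlocks_apply₂₁, Matrix.neg_apply, Matrix.neg_apply, Matrix.one_apply, Matrix.one_apply,
      map_neg]
    split_ifs
    · rw [map_one]
    · rw [map_zero]
  · rw [Matrix.fromBlocks_apply₂₂, Matrix.fromBlocks_apply₂₂, Matrix.zero_apply, Matrix.zero_apply, map_zero]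

theorem regF {R : Type} [CommRing R] {m g : ℕ} (H : HD R m g) (hH : H.Ok) {L : Type} [Field L] (β : Polynomial R →+* L)
    (hβ : β H.Δ ≠ 0) : RegF (H.d - 1) (H.F.map β) := by
  obtain ⟨M, hM⟩ := hH.sm
  refine ⟨fun i => ⟨M, ?_⟩, fun j => hm_pderiv ((hm_iff _ _).2 (hH.hom.map β)) j, ?_⟩
  · have h1 := R4_jac β (hM (Finsupp.single i M) (by
      unfold dg
      rw [Finset.sum_eq_single i]
      · rw [Finsupp.single_eq_same]
      · intro j _ hj
        rw [Finsupp.single_eq_of_ne hj]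
      · intro h
        exact absurd (Finset.mem_univ _) h))
    rw [map_mul, map_C, map_monomial, map_one] at h1
    have h2 : (X i : MvPolynomial (Fin m) L) ^ M = C (β H.Δ)⁻¹ * (C (β H.Δ) * monomial (Finsupp.single i M) 1) := by
      rw [← mul_assoc, ← C_mul, inv_mul_cancel₀ hβ, C_1, one_mul, X_pow_eq_monomial]
    rw [h2]
    exact Ideal.mul_mem_left _ _ h1
  · have := hH.hd
    omega

theorem spanE {R : Type} [CommRing R] {m g : ℕ} (H : HD R m g) (hH : H.Ok) {L : Type} [Field L] (β : Polynomial R →+* L)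
    (hβ : β H.Δ ≠ 0) (P : MvPolynomial (Fin m) L) :
    ∃ a : Nx g → L, P - ∑ l, C (a l) * (H.P l).map β ∈ relR H.d (H.F.map β) := by
  obtain ⟨x, hx⟩ := span_V hH.hm hH.hd (hH.hom.map β) (regF H hH β hβ) (hH.cd.map β) (R4_ne β hH.hdvd hβ) P
  have hPm : ∀ l, (H.P l).map β = ∑ v : H.V, C (β (H.Q l v)) * monomial v.1 1 := by
    intro l
    unfold HD.P
    rw [map_sum]
    refine Finset.sum_congr rfl fun v _ => ?_
    rw [map_mul, map_C, map_monomial, map_one]
  have hmon : ∀ v : H.V, ∑ l, C (β (H.Q' v l)) * (H.P l).map β = C (β H.Δ) * (monomial v.1 1 : MvPolynomial (Fin m) L) := by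
    intro v
    have h1 : ∀ l, C (β (H.Q' v l)) * (H.P l).map β = ∑ v' : H.V, C (β (H.Q' v l * H.Q l v')) * (monomial v'.1 1 : MvPolynomial (Fin m) L) := by
      intro l
      rw [hPm, Finset.mul_sum]
      refine Finset.sum_congr rfl fun v' _ => ?_
      rw [← mul_assoc, ← C_mul, map_mul β]
    rw [Finset.sum_congr rfl fun l _ => h1 l, Finset.sum_comm]
    have h2 : ∀ v' : H.V, ∑ l, C (β (H.Q' v l * H.Q l v')) * (monomial v'.1 1 : MvPolynomial (Fin m) L) =
        if v = v' then C (β H.Δ) * monomial v'.1 1 else 0 := by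
      intro v'
      rw [← Finset.sum_mul, ← map_sum, ← map_sum β, hH.bas' v v']
      split_ifs
      · rfl
      · rw [map_zero, map_zero, zero_mul]
    rw [Finset.sum_congr rfl fun v' _ => h2 v', Finset.sum_ite_eq Finset.univ v, if_pos (Finset.mem_univ v)]
  refine ⟨fun l => ∑ v, x v * ((β H.Δ)⁻¹ * β (H.Q' v l)), ?_⟩
  have h3 : ∑ l, C (∑ v, x v * ((β H.Δ)⁻¹ * β (H.Q' v l))) * (H.P l).map β = ∑ v : H.V, C (x v) * monomial v.1 1 := by
    have h4 : ∀ l, C (∑ v, x v * ((β H.Δ)⁻¹ * β (H.Q' v l))) * (H.P l).map β =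
        ∑ v : H.V, C (x v) * (C (β H.Δ)⁻¹ * (C (β (H.Q' v l)) * (H.P l).map β)) := by
      intro l
      rw [map_sum, Finset.sum_mul]
      refine Finset.sum_congr rfl fun v _ => ?_
      rw [C_mul, C_mul]
      ring
    rw [Finset.sum_congr rfl fun l _ => h4 l, Finset.sum_comm]
    refine Finset.sum_congr rfl fun v _ => ?_
    rw [← Finset.mul_sum, ← Finset.mul_sum, hmon, ← mul_assoc (C (β H.Δ)⁻¹), ← C_mul, inv_mul_cancel₀ hβ, C_1, one_mul]
  rw [h3]
  exact hx

theorem fU_iso {k : Type} [Field k] (p : ℕ) [Fact p.Prime] [CharP k p] {m g : ℕ} (H : HD k m g) (hH : H.Ok) (hΔ : H.Δ ≠ 0)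
    (hp : H.d * m < p) (v v' : H.V) (hv : lvl H.d v.1 + lvl H.d v'.1 ≤ m - 1) :
    ∑ l, ∑ l', H.fU p v l * JJ g (Polynomial k) l l' * H.fU p v' l' = 0 := by
  have hinj : Function.Injective (algebraMap (Polynomial k) (RatFunc k)) := IsFractionRing.injective _ _
  obtain ⟨β, hβdef⟩ : ∃ β : Polynomial k →+* RatFunc k, β = algebraMap (Polynomial k) (RatFunc k) := ⟨_, rfl⟩
  rw [← hβdef] at hinj
  have hβ : β H.Δ ≠ 0 := (map_ne_zero_iff β hinj).2 hΔ
  have _ : CharP (RatFunc k) p := by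
    rw [hβdef] at hinj
    exact charP_of_injective_algebraMap hinj p
  have h1 := iso_V p hH.hm hH.hd hp (hH.hom.map β) (regF H hH β hβ) (hH.cd.map β) (R4_ne β hH.hdvd hβ)
    (fun l => (H.P l).map β) (spanE H hH β hβ) (β H.s) (R4_ne β hH.sdvd hβ)
    (fun l l' => hH.par (RatFunc k) β hβ (regF H hH β hβ) l l') v v' hv
  have h2 : ∑ l, ∑ l', gf p H.d H.F H.V H.c v (H.P l) * JJ g (Polynomial k) l l' * gf p H.d H.F H.V H.c v' (H.P l') = 0 := by
    apply hinj
    rw [map_zero, ← h1, map_sum]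
    refine Finset.sum_congr rfl fun l _ => ?_
    rw [map_sum]
    refine Finset.sum_congr rfl fun l' _ => ?_
    rw [map_mul, map_mul, ← gf_map p β v (H.P l), ← gf_map p β v' (H.P l'), ← R4_J β]
  have h3 : ∑ l, ∑ l', H.fU p v l * JJ g (Polynomial k) l l' * H.fU p v' l' =
      (H.h ^ (p * lvl H.d v.1) * H.s ^ (p - 1)) * (H.h ^ (p * lvl H.d v'.1) * H.s ^ (p - 1)) *
        ∑ l, ∑ l', gf p H.d H.F H.V H.c v (H.P l) * JJ g (Polynomial k) l l' * gf p H.d H.F H.V H.c v' (H.P l') := by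
    rw [Finset.mul_sum]
    refine Finset.sum_congr rfl fun l _ => ?_
    rw [Finset.mul_sum]
    refine Finset.sum_congr rfl fun l' _ => ?_
    unfold HD.fU
    ring
  rw [h3, h2, mul_zero]

end MPadcOH
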