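import Mathlib
import Pool.Agent.Lib.MP_adc574_ag_OA.Defs

/-!
# S2: a basis of a Lagrangian subspace is a part of a symplectic basis

PROOF. `x ↦ B x` is injective, `M` finite dimensional, so it is an isomorphism `M ≃ Dual K M`. `f` is linearly independent, so it extends to a basis, hence there are functionals `φ j` with `φ j (f i) = if i = j then 1 else 0`, `φ j = B (- h j)`-type: choose `h j` with `B (f i) (h j) = - δ i j` (`B (f i) (h j) = - B (h j) (f i)`, so
`B (h j) (f i) = δ i j`). Correct: `e j = h j - (1 / 2) ∑ l, B (h l) (h j) • f l` (or with the other sign): `B (e i) (e j) = B (h i) (h j) - (1/2) ∑ l, B (h l) (h j) B (h i) (f l) - (1/2) ∑ l, B (h l) (h i) B (f l) (h j) = B (h i) (h j) - (1/2) B (h i) (h j) + (1/2) B (h j) (h i) = 0`, and `B (f i) (e j) = - δ i j` still. The family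
`e (inl i) = f i`, `e (inr j) = e j` has the Gram matrix `- JJ` which is invertible, so it is linearly independent; `2 g` vectors in dimension `2 g`: a basis (`basisOfLinearIndependentOfCardEqFinrank`). `JJ (inl i) (inr j) = δ i j`, `JJ (inr j) (inl i) = - δ i j` (`Matrix.fromBlocks`).
-/

set_option autoImplicit false

namespace MPadcOH

open MPadcOA

theorem lagr {K : Type*} [Field K] (h2 : (2 : K) ≠ 0) {M : Type*} [AddCommGroup M] [Module K M] [FiniteDimensional K M]
    (B : M →ₗ[K] M →ₗ[K] K) (halt : ∀ x y, B y x = - B x y) (hnd : ∀ x, (∀ y, B x y = 0) → x = 0) {g : ℕ} (f : Fin g → M)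
    (hli : LinearIndependent K f) (hiso : ∀ i j, B (f i) (f j) = 0) (hdim : Module.finrank K M = 2 * g) :
    ∃ e : Module.Basis (Nx g) K M, (∀ i, e (Sum.inl i) = f i) ∧ ∀ a b, B (e a) (e b) = - JJ g K a b := by
  classical
  have hinj : Function.Injective B := by
    rw [injective_iff_map_eq_zero]
    intro x hx
    exact hnd x fun y => by rw [hx, LinearMap.zero_apply]
  have hsurj : Function.Surjective B := by
    have h1 : Module.finrank K M = Module.finrank K (M →ₗ[K] K) :=
      (Subspace.dual_finrank_eq (K := K) (V := M)).symm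
    exact (LinearMap.injective_iff_surjective_of_finrank_eq_finrank h1).1 hinj
  have hψ : Function.Injective (Fintype.linearCombination K f) :=
    linearIndependent_iff_injective_fintypeLinearCombination.1 hli
  obtain ⟨π, hπ⟩ := (Fintype.linearCombination K f).exists_leftInverse_of_injective
    (LinearMap.ker_eq_bot.2 hψ)
  have hπf : ∀ i, π (f i) = Pi.single i 1 := by
    intro i
    have h1 := congrArg (fun F => F (Pi.single i (1 : K))) hπ
    have h2 : (Fintype.linearCombination K f) (Pi.single i (1 : K)) = f i := by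
      rw [Fintype.linearCombination_apply_single, one_smul]
    have h3 : π ((Fintype.linearCombination K f) (Pi.single i (1 : K))) = Pi.single i 1 := h1
    rwa [h2] at h3
  choose h hh using fun j : Fin g => hsurj ((LinearMap.proj j).comp π)
  have hhf : ∀ j i, B (h j) (f i) = if i = j then 1 else 0 := by
    intro j i
    rw [hh]
    show π (f i) j = _
    rw [hπf, Pi.single_apply]
    by_cases hij : i = j
    · rw [if_pos hij, if_pos hij.symm]
    · rw [if_neg hij, if_neg fun h' => hij h'.symm]
  have hfh : ∀ i j, B (f i) (h j) = if i = j then -1 else 0 := by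
    intro i j
    rw [halt (h j) (f i), hhf]
    by_cases hij : i = j
    · rw [if_pos hij, if_pos hij]
    · rw [if_neg hij, if_neg hij, neg_zero]
  obtain ⟨c, hc⟩ : ∃ c : K, 1 + c + c = 0 := ⟨-(2⁻¹), by
    have h3 : (2 : K) * 2⁻¹ = 1 := mul_inv_cancel₀ h2
    linear_combination -h3⟩
  obtain ⟨e, he⟩ : ∃ e : Fin g → M, ∀ j, e j = h j + c • ∑ l, B (h l) (h j) • f l :=
    ⟨fun j => h j + c • ∑ l, B (h l) (h j) • f l, fun j => rfl⟩
  have hfe : ∀ i j, B (f i) (e j) = if i = j then -1 else 0 := by
    intro i j
    rw [he, map_add, map_smul, map_sum, hfh, Finset.sum_eq_zero, smul_zero, add_zero]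
    intro l _
    rw [map_smul, hiso, smul_zero]
  have hef : ∀ j i, B (e j) (f i) = if i = j then 1 else 0 := by
    intro j i
    rw [halt (f i) (e j), hfe]
    by_cases hij : i = j
    · rw [if_pos hij, if_pos hij, neg_neg]
    · rw [if_neg hij, if_neg hij, neg_zero]
  have hee : ∀ i j, B (e i) (e j) = 0 := by
    intro i j
    have h3 : B (e i) (e j) = B (e i) (h j) + c * ∑ l, B (h l) (h j) * B (e i) (f l) := by
      rw [he j, map_add, map_smul, map_sum, smul_eq_mul]
      simp only [map_smul, smul_eq_mul]
    have h4 : ∑ l, B (h l) (h j) * B (e i) (f l) = B (h i) (h j) := by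
      rw [Finset.sum_eq_single i]
      · rw [hef, if_pos rfl, mul_one]
      · intro l _ hl
        rw [hef, if_neg hl, mul_zero]
      · intro hi
        exact absurd (Finset.mem_univ i) hi
    have h5 : B (e i) (h j) = B (h i) (h j) + c * ∑ l, B (h l) (h i) * B (f l) (h j) := by
      rw [he i, map_add, LinearMap.add_apply, map_smul, LinearMap.smul_apply, map_sum,
        LinearMap.sum_apply, smul_eq_mul]
      simp only [map_smul, LinearMap.smul_apply, smul_eq_mul]
    have h6 : ∑ l, B (h l) (h i) * B (f l) (h j) = B (h i) (h j) := by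
      rw [Finset.sum_eq_single j]
      · rw [hfh, if_pos rfl, mul_neg_one, halt (h i) (h j), neg_neg]
      · intro l _ hl
        rw [hfh, if_neg hl, mul_zero]
      · intro hi
        exact absurd (Finset.mem_univ j) hi
    rw [h3, h4, h5, h6]
    linear_combination B (h i) (h j) * hc
  obtain ⟨E, hE⟩ : ∃ E : Nx g → M, E = Sum.elim f e := ⟨_, rfl⟩
  have hEl : ∀ i, E (Sum.inl i) = f i := fun i => by rw [hE]; rfl
  have hEr : ∀ i, E (Sum.inr i) = e i := fun i => by rw [hE]; rfl
  have hEli : LinearIndependent K E := by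
    rw [Fintype.linearIndependent_iff]
    intro a ha
    rw [Fintype.sum_sum_type] at ha
    simp only [hEl, hEr] at ha
    have key : ∀ y, ∑ i, a (Sum.inl i) * B (f i) y + ∑ i, a (Sum.inr i) * B (e i) y = 0 := by
      intro y
      have h3 := congrArg (fun z => B z y) ha
      simp only [map_add, map_sum, map_smul, LinearMap.add_apply, LinearMap.sum_apply,
        LinearMap.smul_apply, smul_eq_mul, map_zero, LinearMap.zero_apply] at h3
      exact h3
    rintro (j | j)
    · have h3 := key (e j)
      simp only [hfe, hee, mul_zero, Finset.sum_const_zero, add_zero, mul_ite,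
        Finset.sum_ite_eq', Finset.mem_univ, if_true, mul_neg_one, neg_eq_zero] at h3
      exact h3
    · have h3 := key (f j)
      simp only [hiso, hef, mul_zero, Finset.sum_const_zero, zero_add, mul_ite,
        Finset.sum_ite_eq, Finset.mem_univ, if_true, mul_one] at h3
      exact h3
  have hspan : ⊤ ≤ Submodule.span K (Set.range E) := by
    rw [hEli.span_eq_top_of_card_eq_finrank' (by
      rw [hdim, Fintype.card_sum, Fintype.card_fin]
      ring)]
  refine ⟨Module.Basis.mk hEli hspan, fun i => by rw [Module.Basis.mk_apply, hEl], ?_⟩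
  intro a b
  rw [Module.Basis.mk_apply, Module.Basis.mk_apply]
  unfold JJ
  rcases a with i | i <;> rcases b with j | j
  · rw [hEl, hEl, hiso, Matrix.fromBlocks_apply₁₁, Matrix.zero_apply, neg_zero]
  · rw [hEl, hEr, hfe, Matrix.fromBlocks_apply₁₂, Matrix.one_apply]
    by_cases hij : i = j
    · rw [if_pos hij, if_pos hij]
    · rw [if_neg hij, if_neg hij, neg_zero]
  · rw [hEr, hEl, hef, Matrix.fromBlocks_apply₂₁, Matrix.neg_apply, Matrix.one_apply, neg_neg]
    by_cases hij : i = j
    · rw [if_pos hij, if_pos hij.symm]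
    · rw [if_neg hij, if_neg fun h' => hij h'.symm]
  · rw [hEr, hEr, hee, Matrix.fromBlocks_apply₂₂, Matrix.zero_apply, neg_zero]

end MPadcOH
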