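import Pool.Agent.Lib.MP_adc574_ag_OH.OP
import Pool.Agent.Lib.MP_adc574_ag_OH.S2
import Pool.Agent.Lib.MP_adc574_ag_LZ.HGd
import Pool.Agent.Lib.MP_adc574_ag_LZ.Nd

/-!
# S5: the symplectic basis of the cohomology of the generic member

PROOF. `K = RatFunc κ`, `α = algebraMap κ[X] K`, `S.FK = S.ft.map α` (`rfl`). `hC.map α` is a `CData` for `S.FK` over `K`, `α h ≠ 0`. `relZ_eq`: `relZ S.d F = relR S.d F` (`dg e + N = tdg e`: `tdg e = ∑ (e i + 1)`, `dg e = ∑ e i`; the definitions are the same otherwise).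
`span_V` (OP): the classes `brP (x ^ v)`, `v ∈ V`, span. They are linearly independent: `∑ x_v brP (x ^ v) = 0` gives `∑ x_v B (x ^ v) (x ^ v') = 0` for all `v'`, and `gram_V` (the matrix with entries `Bil (x ^ v) (x ^ v') = B (brP ..) (brP ..)` is invertible). So `bV` is a basis, `finrank = V.card = 2 g` (`card_low`, `g = Nat.card {v // 2 * lvl v < m}`,
`low` from `Finite.equivFin` or `Fintype.equivFin`). `B` is nondegenerate (`gram_V` and the basis `bV`). `lagr` (S2) with `f i = brP (x ^ (low i))`: `hiso`: `bil_low` (`2 lvl < m` for both, so the sum of the levels is `≤ m - 1`). `2 ≠ 0` in `K`.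
-/

set_option autoImplicit false

namespace MPadcOH

open MvPolynomial MPadcGM MPadcHM MPadcLZ MPadcBK MPadcOA

private theorem S5_tdg {m : ℕ} (e : Fin m →₀ ℕ) : tdg e = dg e + m := by
  unfold tdg dg
  rw [Finset.sum_add_distrib]
  simp

private theorem S5_hom {K : Type} [Field K] {N m : ℕ} {P : MvPolynomial (Fin N) K} (h : Hm m P) : P.IsHomogeneous m := by
  have hdeg : ∀ e : Fin N →₀ ℕ, dg e = e.degree := by
    intro e
    rw [Finsupp.degree_eq_sum]
    rfl
  intro e he
  have h1 := h e (mem_support_iff.2 he)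
  rw [hdeg, Finsupp.degree_eq_weight_one] at h1
  exact h1

theorem relZ_eq {K : Type} [Field K] {m : ℕ} (d : ℕ) (F : MvPolynomial (Fin m) K) : relZ d F = relR d F := by
  unfold relZ relR
  simp only [S5_tdg]

theorem exists_e {κ : Type} [Field κ] [CharZero κ] {m : ℕ} (S : PDat κ m) (hS : S.Ok) (ho : Odd m)
    (H : RegF (S.d - 1) S.FK) (B : PKm S.d S.FK →ₗ[RatFunc κ] PKm S.d S.FK →ₗ[RatFunc κ] RatFunc κ)
    (hB : ∀ P Q, B (brP S.d S.FK P) (brP S.d S.FK Q) = Bil H S.d P Q) (halt : ∀ x y, B y x = - B x y)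
    {V : Finset (Fin m →₀ ℕ)} {c : V → (Fin m →₀ ℕ) → Polynomial κ} {h : Polynomial κ}
    (hC : CData S.d (m - 1) S.ft (fun v : V => v.1) (fun v : V => lvl S.d v.1) c h) (hh : h ≠ 0) :
    ∃ (g : ℕ) (low : Fin g ≃ {v : V // 2 * lvl S.d v.1 < m}) (bV : Module.Basis V (RatFunc κ) (PKm S.d S.FK))
      (e : Module.Basis (Nx g) (RatFunc κ) (PKm S.d S.FK)), 0 < g ∧ (∀ v, bV v = brP S.d S.FK (monomial v.1 1)) ∧
        (∀ i, e (Sum.inl i) = bV (low i).1) ∧ ∀ a b, B (e a) (e b) = - JJ g (RatFunc κ) a b := by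
  classical
  have hm : 3 ≤ m := hS.hN
  have hd : 3 ≤ S.d := hS.hd
  have hF : S.FK.IsHomogeneous S.d := S5_hom (fk_hom S hS)
  have hCK : CData S.d (m - 1) S.FK (fun v : V => v.1) (fun v : V => lvl S.d v.1)
      (fun v e => algebraMap (Polynomial κ) (RatFunc κ) (c v e)) (algebraMap (Polynomial κ) (RatFunc κ) h) :=
    hC.map (algebraMap (Polynomial κ) (RatFunc κ))
  have hhK : algebraMap (Polynomial κ) (RatFunc κ) h ≠ 0 := RatFunc.algebraMap_ne_zero hh
  have hgr := gram_V hm hd hF H hCK hhK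
  have hBf : ∀ (x : V → RatFunc κ) (v' : V),
      B (∑ v, x v • brP S.d S.FK (monomial v.1 1)) (brP S.d S.FK (monomial v'.1 1)) =
        Matrix.vecMul x (Matrix.of fun v v' : V => Bil H S.d (monomial v.1 1) (monomial v'.1 1)) v' := by
    intro x v'
    rw [map_sum, LinearMap.sum_apply]
    refine Finset.sum_congr rfl fun v _ => ?_
    rw [map_smul, LinearMap.smul_apply, hB, smul_eq_mul]
    rfl
  have hz : ∀ x : V → RatFunc κ, (∀ v' : V,
      B (∑ v, x v • brP S.d S.FK (monomial v.1 1)) (brP S.d S.FK (monomial v'.1 1)) = 0) → x = 0 := by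
    intro x hx
    refine Matrix.eq_zero_of_vecMul_eq_zero hgr (funext fun v' => ?_)
    rw [← hBf, hx]
    rfl
  have hli : LinearIndependent (RatFunc κ) fun v : V => brP S.d S.FK (monomial v.1 1) := by
    rw [Fintype.linearIndependent_iff]
    intro x hx
    have h1 := hz x fun v' => by rw [hx, map_zero, LinearMap.zero_apply]
    exact fun v => congrFun h1 v
  have hsp : ⊤ ≤ Submodule.span (RatFunc κ) (Set.range fun v : V => brP S.d S.FK (monomial v.1 1)) := by
    intro y _
    obtain ⟨P, rfl⟩ := brP_surj S.d S.FK y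
    obtain ⟨x, hx⟩ := span_V hm hd hF H hCK hhK P
    rw [← relZ_eq] at hx
    have h1 : brP S.d S.FK (P - ∑ v, C (x v) * monomial v.1 1) = 0 := (Submodule.Quotient.mk_eq_zero _).2 hx
    rw [map_sub, sub_eq_zero, map_sum] at h1
    rw [h1]
    refine Submodule.sum_mem _ fun v _ => ?_
    rw [← MvPolynomial.smul_eq_C_mul, map_smul]
    exact Submodule.smul_mem _ _ (Submodule.subset_span ⟨v, rfl⟩)
  obtain ⟨bV, hbV⟩ : ∃ bV : Module.Basis V (RatFunc κ) (PKm S.d S.FK),
      ∀ v, bV v = brP S.d S.FK (monomial v.1 1) :=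
    ⟨Module.Basis.mk hli hsp, fun v => Module.Basis.mk_apply hli hsp v⟩
  have : FiniteDimensional (RatFunc κ) (PKm S.d S.FK) := Module.Finite.of_basis bV
  have : CharZero (RatFunc κ) := charZero_of_injective_algebraMap (algebraMap κ (RatFunc κ)).injective
  obtain ⟨hc1, hc2⟩ := card_low hm ho hd hF H hCK hhK
  have hnd : ∀ x, (∀ y, B x y = 0) → x = 0 := by
    intro x hx
    have h1 := bV.sum_repr x
    simp only [hbV] at h1
    have h2 : (fun v => bV.repr x v) = 0 := hz _ fun v' => by rw [h1]; exact hx _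
    rw [← h1]
    refine Finset.sum_eq_zero fun v _ => ?_
    rw [show bV.repr x v = 0 from congrFun h2 v, zero_smul]
  obtain ⟨low⟩ : Nonempty (Fin (Nat.card {v : V // 2 * lvl S.d v.1 < m}) ≃ {v : V // 2 * lvl S.d v.1 < m}) :=
    ⟨(Finite.equivFin _).symm⟩
  obtain ⟨e, he1, he2⟩ := lagr (two_ne_zero) B halt hnd (fun i => bV (low i).1)
    (bV.linearIndependent.comp (fun i => (low i).1) (Subtype.val_injective.comp low.injective))
    (fun i j => by
      rw [hbV, hbV, hB]
      refine bil_low hm hd hF H hCK _ _ ?_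
      have h1 := (low i).2
      have h2 := (low j).2
      omega)
    (by rw [Module.finrank_eq_card_basis bV, Fintype.card_coe, hc1])
  exact ⟨_, low, bV, e, hc2, hbV, he1, he2⟩

end MPadcOH
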