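import Pool.Agent.Lib.MP_adc574_ag_OH.OD

/-!
# S6a: descent of relations

PROOF. The set of the `P'` over `K` for which there are `δ ≠ 0` in `R` and `P₁ ∈ relR d F` with `P₁.map α = C (α δ) * P'` is a submodule `T` over `K` (sum: `δ δ'`; multiple by `x : K`: `α s * x = α b` by `hfr`, `C b * P₁`, `δ s`; `relR` is an `R`-submodule: `C b * P₁ = b • P₁`). It contains the generators of `relR d (F.map α)`: for
`dl (F.map α) i Q` clear the denominators of the finitely many coefficients of `Q`: `C (α δ) * Q = Q₁.map α` (induction over `Q`: `MvPolynomial.induction_on'`, or see `spr_clearP` in MP_adc574_ag_BK/Spr.lean, copy it), `C (α δ) * dl (F.map α) i Q = dl (F.map α) i (C (α δ) * Q) = (dl F i Q₁).map α` (`pderiv_map`, `pderiv` of a constant multiple); monomials: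
`δ = 1`. So `relR d (F.map α) ≤ T` (`Submodule.span_le`). Then `(C δ * P).map α = P₁.map α`, so `C δ * P = P₁` (`map_injective`).
-/

set_option autoImplicit false

namespace MPadcOH

open MvPolynomial MPadcGM MPadcHM MPadcLZ MPadcBK MPadcOA

private theorem S6a_clear {R K : Type} [CommRing R] [IsDomain R] [Field K] (α : R →+* K)
    (hfr : ∀ x : K, ∃ b s : R, s ≠ 0 ∧ α s * x = α b) {m : ℕ} (P : MvPolynomial (Fin m) K) :
    ∃ δ : R, δ ≠ 0 ∧ ∃ P' : MvPolynomial (Fin m) R, P'.map α = C (α δ) * P := by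
  induction P using MvPolynomial.induction_on with
  | C a =>
    obtain ⟨b, s, hs, hb⟩ := hfr a
    refine ⟨s, hs, C b, ?_⟩
    rw [MvPolynomial.map_C, ← hb, C_mul]
  | add P Q hP hQ =>
    obtain ⟨δ₁, h1, P₁, e1⟩ := hP
    obtain ⟨δ₂, h2, P₂, e2⟩ := hQ
    refine ⟨δ₁ * δ₂, mul_ne_zero h1 h2, C δ₂ * P₁ + C δ₁ * P₂, ?_⟩
    rw [map_add, map_mul, map_mul, MvPolynomial.map_C, MvPolynomial.map_C, e1, e2, map_mul, C_mul]
    ring
  | mul_X P i hP =>
    obtain ⟨δ₁, h1, P₁, e1⟩ := hP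
    refine ⟨δ₁, h1, P₁ * X i, ?_⟩
    rw [map_mul, MvPolynomial.map_X, e1, mul_assoc]

private theorem S6a_C {R : Type} [CommRing R] {m d : ℕ} (F P : MvPolynomial (Fin m) R) (hP : P ∈ relR d F) (b : R) :
    C b * P ∈ relR d F := by
  rw [← MvPolynomial.smul_eq_C_mul]
  exact Submodule.smul_mem _ _ hP

private theorem S6a_span {R K : Type} [CommRing R] [IsDomain R] [Field K] (α : R →+* K)
    (hfr : ∀ x : K, ∃ b s : R, s ≠ 0 ∧ α s * x = α b) {m d : ℕ} (F : MvPolynomial (Fin m) R)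
    (P : MvPolynomial (Fin m) K) (hP : P ∈ relR d (F.map α)) :
    ∃ δ : R, δ ≠ 0 ∧ ∃ P₁ ∈ relR d F, P₁.map α = C (α δ) * P := by
  unfold relR at hP
  induction hP using Submodule.span_induction with
  | mem x hx =>
    rcases hx with ⟨i, Q, rfl⟩ | ⟨e, he, rfl⟩
    · obtain ⟨δ, hδ, Q₁, hQ₁⟩ := S6a_clear α hfr Q
      refine ⟨δ, hδ, MPadcLZ.dl F i Q₁, Submodule.subset_span (Or.inl ⟨i, Q₁, rfl⟩), ?_⟩
      unfold MPadcLZ.dl
      rw [map_add, map_mul, ← MvPolynomial.pderiv_map, ← MvPolynomial.pderiv_map, hQ₁, pderiv_C_mul]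
      ring
    · refine ⟨1, one_ne_zero, monomial e 1, Submodule.subset_span (Or.inr ⟨e, he, rfl⟩), ?_⟩
      rw [MvPolynomial.map_monomial, map_one, C_1, one_mul]
  | zero =>
    refine ⟨1, one_ne_zero, 0, Submodule.zero_mem _, ?_⟩
    rw [map_zero, mul_zero]
  | add x y _ _ hx hy =>
    obtain ⟨δ₁, h1, P₁, m1, e1⟩ := hx
    obtain ⟨δ₂, h2, P₂, m2, e2⟩ := hy
    refine ⟨δ₁ * δ₂, mul_ne_zero h1 h2, C δ₂ * P₁ + C δ₁ * P₂,
      Submodule.add_mem _ (S6a_C F P₁ m1 δ₂) (S6a_C F P₂ m2 δ₁), ?_⟩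
    rw [map_add, map_mul, map_mul, MvPolynomial.map_C, MvPolynomial.map_C, e1, e2, map_mul, C_mul]
    ring
  | smul a x _ hx =>
    obtain ⟨δ₁, h1, P₁, m1, e1⟩ := hx
    obtain ⟨b, s, hs, hb⟩ := hfr a
    refine ⟨s * δ₁, mul_ne_zero hs h1, C b * P₁, S6a_C F P₁ m1 b, ?_⟩
    rw [map_mul, MvPolynomial.map_C, e1, ← hb, C_mul, MvPolynomial.smul_eq_C_mul, map_mul α, C_mul]
    ring

theorem relR_desc {R K : Type} [CommRing R] [IsDomain R] [Field K] (α : R →+* K) (hα : Function.Injective α)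
    (hfr : ∀ x : K, ∃ b s : R, s ≠ 0 ∧ α s * x = α b) {m d : ℕ} (F P : MvPolynomial (Fin m) R)
    (hP : P.map α ∈ relR d (F.map α)) : ∃ δ : R, δ ≠ 0 ∧ C δ * P ∈ relR d F := by
  obtain ⟨δ, hδ, P₁, m1, e1⟩ := S6a_span α hfr F (P.map α) hP
  refine ⟨δ, hδ, ?_⟩
  have h1 : P₁ = C δ * P := by
    apply MvPolynomial.map_injective α hα
    rw [e1, map_mul, MvPolynomial.map_C]
  rw [← h1]
  exact m1

end MPadcOH
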