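import Pool.Agent.Lib.MP_adc574_ag_OH.S4
import Pool.Agent.Lib.MP_adc574_ag_OH.S5
import Pool.Agent.Lib.MP_adc574_ag_OH.S6a
import Pool.Agent.Lib.MP_adc574_ag_OH.S6b
import Pool.Agent.Lib.MP_adc574_ag_LZ.MapZ

/-!
# S6: the family data over `κ[t]`

PROOF. `K = RatFunc κ`, `α = algebraMap κ[X] K`. (`clearD`, `nb_map`, `flat_symp`: S6b; `relR_desc`: S6a.) Put `q l v = bV.repr (e l) v`, `r v l = e.repr (bV v) l`, `Γ l' l = e.repr (nab (e l)) l'`. Choose `s ≠ 0` in `κ[X]` with `s q l v = α (Q l v)` (finitely many; `IsLocalization` / `RatFunc.num`, `denom`; product of denominators), so `Q (inl i) v = if v = (low i).1 then s else 0` (`α` injective, `q (inl i) v = δ`).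
Choose `Δ₀ ≠ 0`, a multiple of `h` and of `s`, such that `Δ₀ Γ l' l`, `Δ₀ r v l / s` are in the image of `α`: `Δ₀ Γ l' l = α (G₀ l' l)`, `Δ₀ r v l / s = α (Q'₀ v l)`. With `P_l = ∑ v, C (Q l v) x ^ v`: `brP (P_l.map α) = s • e l`, so `brP (nb (DZ κ) S.FK (P_l.map α)) = nab (s • e l) = s' • e l + s • nab (e l)` (`hG.nab_br`, `hG.leib`), hence
`brP` of `(Δ₀ (s * nb P_l - s' P_l) - s ∑ l', G₀ l' l P_l').map α` is 0 (`cder (dX κ) P` mapped by `α` is `cder (DZ κ) (P.map α)`: `DK_poly`, `nb` likewise), so it is in `relZ = relR` (`relZ_eq`) and by `relR_desc` `C δ_l` times the polynomial over `κ[X]` is in `relR`. Smoothness: `RegF` over `K` gives `M` with all monomials of degree `≥ M` in `Jac S.FK`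
(`IsPP.top`, or `mem_of_deg`), `desc_jac` (LZ/MapZ.lean) for the finitely many of degree exactly `M` gives `δ' ≠ 0`; larger monomials are multiples. `Δ = Δ₀ * δ' * ∏ δ_l`, `G = (Δ / Δ₀) G₀`, `Q' = (Δ / Δ₀) Q'₀`.
`symp`: from flatness `DK (B x y) = B (nab x) y + B x (nab y)` (`hP.flat`) for `e a`, `e b`: `0 = ∑ l', Γ l' a B (e l') (e b) + ∑ l', Γ l' b B (e a) (e l')`, i.e. `Γᵀ JJ + JJ Γ = 0`, multiply by `JJ` from both sides (`JJ * JJ = -1`, see K6.lean in MP_adc574_ag_PC). `par`: `par_of` (S4) with `α` and `hpar`: `Bil (P_l.map α) (P_l'.map α) = B (s • e l) (s • e l') = s ^ 2 * (- JJ)`.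
`hm`, `hd`: `hS.hN`, `hS.hd`. `hom`: `S.ft` is homogeneous of degree `d` (`ft` = `G.map C - C X * H.map C`, `hS.homG`, `hS.homH`, `Hm_iff`).
-/

set_option autoImplicit false

namespace MPadcOH

open MvPolynomial MPadcGM MPadcHM MPadcLZ MPadcBK MPadcOA

/-- a monomial of large degree is divisible by a monomial of degree `M` -/
private theorem S6_le {N : ℕ} (M : ℕ) : ∀ (k : ℕ) (e : Fin N →₀ ℕ), dg e = M + k →
    ∃ e' ≤ e, dg e' = M := by
  intro k
  induction k with
  | zero => intro e he; exact ⟨e, le_refl _, he⟩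
  | succ k ih =>
    intro e he
    have h0 : ∃ i, e i ≠ 0 := by
      by_contra hc
      push Not at hc
      have : dg e = 0 := Finset.sum_eq_zero fun i _ => hc i
      omega
    obtain ⟨i, hi⟩ := h0
    have hle : Finsupp.single i 1 ≤ e := by
      rw [Finsupp.single_le_iff]
      omega
    have hdg : dg (e - Finsupp.single i 1) = M + k := by
      have h1 : e - Finsupp.single i 1 + Finsupp.single i 1 = e := tsub_add_cancel_of_le hle
      have h2 : dg e = dg (e - Finsupp.single i 1) + 1 := by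
        conv_lhs => rw [← h1]
        unfold dg
        simp only [Finsupp.add_apply]
        rw [Finset.sum_add_distrib]
        congr 1
        rw [Finset.sum_eq_single i]
        · rw [Finsupp.single_eq_same]
        · intro b _ hb
          rw [Finsupp.single_apply, if_neg (Ne.symm hb)]
        · intro h
          exact absurd (Finset.mem_univ i) h
      omega
    obtain ⟨e', he', hM⟩ := ih _ hdg
    exact ⟨e', he'.trans tsub_le_self, hM⟩

/-- smoothness over the ring with a denominator -/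
private theorem S6_sm {A : Type} [CommRing A] [IsDomain A] {K : Type} [Field K] (ι : A →+* K)
    (hι : Function.Injective ι) {N : ℕ} (F : MvPolynomial (Fin N) A) (M : ℕ)
    (hK : ∀ e : Fin N →₀ ℕ, dg e = M → monomial e (1 : K) ∈ Jac (F.map ι)) :
    ∃ a : A, a ≠ 0 ∧ ∀ (b : A) (e : Fin N →₀ ℕ), M ≤ dg e → C (b * a) * monomial e 1 ∈ Jac F := by
  classical
  have hA : ∀ e : Fin N →₀ ℕ, ∃ a : A, a ≠ 0 ∧ (dg e = M → C a * monomial e 1 ∈ Jac F) := by
    intro e
    by_cases he : dg e = M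
    · obtain ⟨a, ha, ha'⟩ := desc_jac ι hι F (monomial e 1) (by
          rw [map_monomial, map_one]
          exact hK e he)
      exact ⟨a, ha, fun _ => ha'⟩
    · exact ⟨1, one_ne_zero, fun h => absurd h he⟩
  choose a ha ha' using hA
  refine ⟨∏ e ∈ Finset.finsuppAntidiag (Finset.univ : Finset (Fin N)) M, a e,
    Finset.prod_ne_zero_iff.2 fun e _ => ha e, ?_⟩
  intro b e he
  obtain ⟨e', hle, he'⟩ := S6_le M (dg e - M) e (by omega)
  have hmem : e' ∈ Finset.finsuppAntidiag (Finset.univ : Finset (Fin N)) M := by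
    rw [Finset.mem_finsuppAntidiag]
    exact ⟨he', Finset.subset_univ _⟩
  have h1 : (monomial e (1 : A)) = monomial (e - e') 1 * monomial e' 1 := by
    rw [monomial_mul, one_mul, tsub_add_cancel_of_le hle]
  have h2 := Ideal.mul_mem_left (Jac F)
    (C (b * ∏ e ∈ (Finset.finsuppAntidiag (Finset.univ : Finset (Fin N)) M).erase e', a e) * monomial (e - e') 1)
    (ha' e' he')
  rw [h1, ← Finset.mul_prod_erase _ _ hmem]
  have h3 : (C (b * (a e' * ∏ x ∈ (Finset.finsuppAntidiag (Finset.univ : Finset (Fin N)) M).erase e', a x)) :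
      MvPolynomial (Fin N) A) * (monomial (e - e') 1 * monomial e' 1) =
      C (b * ∏ e ∈ (Finset.finsuppAntidiag (Finset.univ : Finset (Fin N)) M).erase e', a e) * monomial (e - e') 1 *
        (C (a e') * monomial e' 1) := by
    simp only [C_mul]
    ring
  rw [h3]
  exact h2

/-- the class of a combination of the basis -/
private theorem S6_br {κ : Type} [Field κ] {m d : ℕ} {F : MvPolynomial (Fin m) (RatFunc κ)} {V : Finset (Fin m →₀ ℕ)}
    (bV : Module.Basis V (RatFunc κ) (PKm d F)) (hbV : ∀ v, bV v = brP d F (monomial v.1 1)) (x : PKm d F)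
    (s : Polynomial κ) (q : V → Polynomial κ)
    (hq : ∀ v, algebraMap (Polynomial κ) (RatFunc κ) (q v) = algebraMap (Polynomial κ) (RatFunc κ) s * bV.repr x v) :
    brP d F ((∑ v : V, C (q v) * monomial v.1 1 : MvPolynomial (Fin m) (Polynomial κ)).map
      (algebraMap (Polynomial κ) (RatFunc κ))) = algebraMap (Polynomial κ) (RatFunc κ) s • x := by
  rw [map_sum, map_sum]
  have h1 : ∀ v : V, brP d F (MvPolynomial.map (algebraMap (Polynomial κ) (RatFunc κ))
      (C (q v) * monomial v.1 1 : MvPolynomial (Fin m) (Polynomial κ))) =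
      algebraMap (Polynomial κ) (RatFunc κ) s • (bV.repr x v • bV v) := by
    intro v
    rw [map_mul, map_C, map_monomial, map_one, ← smul_eq_C_mul, map_smul, ← hbV, hq, mul_smul]
  rw [Finset.sum_congr rfl fun v _ => h1 v, ← Finset.smul_sum, bV.sum_repr]

/-- the class of the relation is zero -/
private theorem S6_rel {A K M ι : Type} [CommRing A] [Field K] [AddCommGroup M] [Module K M] [Fintype ι] {m : ℕ}
    (α : A →+* K) (br : MvPolynomial (Fin m) K →ₗ[K] M) (X P : MvPolynomial (Fin m) A)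
    (Pf : ι → MvPolynomial (Fin m) A) (s sd D : A) (G : ι → A) (el nel : M) (ef : ι → M)
    (hX : br (X.map α) = α sd • el + α s • nel) (hP : br (P.map α) = α s • el)
    (hPf : ∀ l, br ((Pf l).map α) = α s • ef l) (hc : α D • nel = ∑ l, α (G l) • ef l) :
    br ((C D * (C s * X - C sd * P) - C s * ∑ l, C (G l) * Pf l).map α) = 0 := by
  have e1 : MvPolynomial.map α (C D * (C s * X - C sd * P) - C s * ∑ l, C (G l) * Pf l) =
      α D • (α s • X.map α - α sd • P.map α) - α s • ∑ l, α (G l) • (Pf l).map α := by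
    simp only [map_sub, map_mul, map_C, map_sum, smul_eq_C_mul]
  have e2 : ∑ l, α (G l) • (α s • ef l) = α s • ∑ l, α (G l) • ef l := by
    rw [Finset.smul_sum]
    refine Finset.sum_congr rfl fun l _ => ?_
    rw [smul_smul, smul_smul, mul_comm]
  rw [e1, map_sub, map_smul, map_sub, map_smul, map_smul, map_smul, map_sum, hX, hP]
  have e3 : ∀ l, br (α (G l) • (Pf l).map α) = α (G l) • (α s • ef l) := fun l => by rw [map_smul, hPf]
  rw [Finset.sum_congr rfl fun l _ => e3 l, e2, ← hc]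
  simp only [smul_add, smul_sub, smul_smul]
  rw [mul_comm (α sd) (α s), add_sub_cancel_left, sub_eq_zero]
  congr 1
  ring

/-- the relation with a common denominator -/
private theorem S6_mem {A ι : Type} [CommRing A] [Fintype ι] [DecidableEq ι] {m : ℕ}
    (T : Submodule A (MvPolynomial (Fin m) A)) (X P : MvPolynomial (Fin m) A) (Pf : ι → MvPolynomial (Fin m) A)
    (s sd D a E : A) (G : ι → A) (δ : ι → A) (hE : E = a * ∏ l, δ l) (l : ι)
    (h : C (δ l) * (C D * (C s * X - C sd * P) - C s * ∑ l, C (G l) * Pf l) ∈ T) :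
    C (D * E) * (C (D * E) * (C s * X - C sd * P) - C s * ∑ l, C (G l * E) * Pf l) ∈ T := by
  have h3 : E = a * (∏ l' ∈ Finset.univ.erase l, δ l') * δ l := by
    rw [hE, ← Finset.prod_erase_mul _ _ (Finset.mem_univ l), mul_assoc]
  have h2 : ∑ l', C (G l' * E) * Pf l' = C E * ∑ l', C (G l') * Pf l' := by
    rw [Finset.mul_sum]
    refine Finset.sum_congr rfl fun l' _ => ?_
    rw [C_mul]
    ring
  have h4 : C (D * E) * (C (D * E) * (C s * X - C sd * P) - C s * ∑ l, C (G l * E) * Pf l) =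
      (D * E * (a * ∏ l' ∈ Finset.univ.erase l, δ l')) •
        (C (δ l) * (C D * (C s * X - C sd * P) - C s * ∑ l, C (G l) * Pf l)) := by
    obtain ⟨b, hb⟩ : ∃ b : A, b = a * ∏ l' ∈ Finset.univ.erase l, δ l' := ⟨_, rfl⟩
    rw [← hb] at h3 ⊢
    rw [h2, smul_eq_C_mul, h3]
    simp only [C_mul]
    ring
  rw [h4]
  exact Submodule.smul_mem _ _ h

private theorem S6_par {κ : Type} [Field κ] {m g : ℕ} (S : PDat κ m) (hd : 3 ≤ S.d)
    (H : RegF (S.d - 1) S.FK) {V : Finset (Fin m →₀ ℕ)} (c : V → (Fin m →₀ ℕ) → Polynomial κ)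
    (h s D : Polynomial κ) (Q : Nx g → V → Polynomial κ) (Q' : V → Nx g → Polynomial κ)
    (G : Matrix (Nx g) (Nx g) (Polynomial κ)) (low : Fin g ≃ {v : V // 2 * lvl S.d v.1 < m})
    (hom : S.ft.IsHomogeneous S.d) (hsm : ∃ M : ℕ, ∀ e : Fin m →₀ ℕ, M ≤ dg e → C D * monomial e 1 ∈ Jac S.ft)
    (hD : D ≠ 0) (hb : ∀ l l', Bil H S.d ((∑ v : V, C (Q l v) * monomial v.1 1 : MvPolynomial (Fin m) (Polynomial κ)).map
      (algebraMap (Polynomial κ) (RatFunc κ))) ((∑ v : V, C (Q l' v) * monomial v.1 1 : MvPolynomial (Fin m) (Polynomial κ)).map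
      (algebraMap (Polynomial κ) (RatFunc κ))) = - (algebraMap (Polynomial κ) (RatFunc κ) s) ^ 2 * JJ g (RatFunc κ) l l')
    (H' : HD κ m g) (hH' : H' = ⟨S.d, S.ft, V, c, h, s, Q, Q', D, G, low⟩)
    (L : Type) [Field L] (β : Polynomial κ →+* L) (hβ : β H'.Δ ≠ 0) (K' : RegF (H'.d - 1) (H'.F.map β)) (l l' : Nx g) :
    Bil K' H'.d ((H'.P l).map β) ((H'.P l').map β) = - (β H'.s) ^ 2 * JJ g L l l' := by
  subst hH'
  exact par_of (⟨S.d, S.ft, V, c, h, s, Q, Q', D, G, low⟩ : HD κ m g) hd hom hsm hD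
    (algebraMap (Polynomial κ) (RatFunc κ)) (RatFunc.algebraMap_injective κ) H hb L β hβ K' l l'

private theorem S6_dual {K M ι V : Type} [Field K] [AddCommGroup M] [Module K M] [Fintype ι] [Fintype V]
    [DecidableEq ι] (bV : Module.Basis V K M) (e : Module.Basis ι K M) (l l' : ι) :
    ∑ v, bV.repr (e l) v * e.repr (bV v) l' = if l = l' then (1 : K) else 0 := by
  have h1 : e.repr (∑ v, bV.repr (e l) v • bV v) l' = if l = l' then (1 : K) else 0 := by
    rw [bV.sum_repr, e.repr_self, Finsupp.single_apply]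
  rw [← h1, map_sum, Finsupp.finsetSum_apply]
  refine Finset.sum_congr rfl fun v _ => ?_
  rw [map_smul, Finsupp.smul_apply, smul_eq_mul]

theorem exists_HD0 {κ : Type} [Field κ] [CharZero κ] {m g : ℕ} (S : PDat κ m) (hS : S.Ok) (ho : Odd m)
    {nab : PKm S.d S.FK →+ PKm S.d S.FK} (hG : IsHG S nab (brP S.d S.FK)) (H : RegF (S.d - 1) S.FK)
    {B : PKm S.d S.FK →ₗ[RatFunc κ] PKm S.d S.FK →ₗ[RatFunc κ] RatFunc κ}
    {rho : MvPolynomial (Fin m) (RatFunc κ) →ₗ[RatFunc κ] RatFunc κ} (hP : IsPP S nab (brP S.d S.FK) B rho)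
    (hB : ∀ P Q, B (brP S.d S.FK P) (brP S.d S.FK Q) = Bil H S.d P Q)
    {V : Finset (Fin m →₀ ℕ)} {c : V → (Fin m →₀ ℕ) → Polynomial κ} {h : Polynomial κ}
    (hC : CData S.d (m - 1) S.ft (fun v : V => v.1) (fun v : V => lvl S.d v.1) c h) (hh : h ≠ 0) (hg : 0 < g)
    (low : Fin g ≃ {v : V // 2 * lvl S.d v.1 < m}) (bV : Module.Basis V (RatFunc κ) (PKm S.d S.FK))
    (e : Module.Basis (Nx g) (RatFunc κ) (PKm S.d S.FK)) (hbV : ∀ v, bV v = brP S.d S.FK (monomial v.1 1))
    (he1 : ∀ i, e (Sum.inl i) = bV (low i).1) (he2 : ∀ a b, B (e a) (e b) = - JJ g (RatFunc κ) a b) :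
    ∃ H' : HD κ m g, H'.Ok ∧ H'.d = S.d ∧ H'.F = S.ft ∧ H'.Δ ≠ 0 ∧
      ∀ l, algebraMap (Polynomial κ) (RatFunc κ) H'.Δ • nab (e l) =
        ∑ l', algebraMap (Polynomial κ) (RatFunc κ) (H'.G l' l) • e l' := by
  classical
  obtain ⟨α, hαd⟩ : ∃ α : Polynomial κ →+* RatFunc κ, α = algebraMap (Polynomial κ) (RatFunc κ) := ⟨_, rfl⟩
  have hα : Function.Injective α := by
    rw [hαd]
    exact RatFunc.algebraMap_injective κ
  have hfr : ∀ x : RatFunc κ, ∃ b s : Polynomial κ, s ≠ 0 ∧ α s * x = α b := by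
    intro x
    obtain ⟨s, y, hs, hy⟩ := clearD (fun _ : Unit => x)
    rw [hαd]
    exact ⟨y (), s, hs, (hy ()).symm⟩
  obtain ⟨s, Q, hs, hQ⟩ : ∃ (s : Polynomial κ) (Q : Nx g → V → Polynomial κ), s ≠ 0 ∧
      ∀ l v, α (Q l v) = α s * bV.repr (e l) v := by
    obtain ⟨s, y, h1, h2⟩ := clearD (fun z : Nx g × V => bV.repr (e z.1) z.2)
    rw [hαd]
    exact ⟨s, fun l v => y (l, v), h1, fun l v => h2 (l, v)⟩
  obtain ⟨s', y1, y2, hs', hy1, hy2⟩ : ∃ (s : Polynomial κ) (y1 : Nx g → Nx g → Polynomial κ)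
      (y2 : V → Nx g → Polynomial κ), s ≠ 0 ∧ (∀ l' l, α (y1 l' l) = α s * e.repr (nab (e l)) l') ∧
        ∀ v l, α (y2 v l) = α s * e.repr (bV v) l := by
    obtain ⟨s, y, h1, h2⟩ := clearD (fun z : (Nx g × Nx g) ⊕ (V × Nx g) =>
      Sum.elim (fun z => e.repr (nab (e z.2)) z.1) (fun z => e.repr (bV z.1) z.2) z)
    rw [hαd]
    exact ⟨s, fun l' l => y (Sum.inl (l', l)), fun v l => y (Sum.inr (v, l)), h1, fun l' l => h2 (Sum.inl (l', l)),
      fun v l => h2 (Sum.inr (v, l))⟩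
  -- the polynomials
  obtain ⟨P, hPd⟩ : ∃ P : Nx g → MvPolynomial (Fin m) (Polynomial κ),
      ∀ l, P l = ∑ v : V, C (Q l v) * monomial v.1 1 := ⟨_, fun _ => rfl⟩
  obtain ⟨X, hXd⟩ : ∃ X : Nx g → MvPolynomial (Fin m) (Polynomial κ),
      ∀ l, X l = nb (dX κ) S.ft (P l) := ⟨_, fun _ => rfl⟩
  obtain ⟨sd, hsd⟩ : ∃ sd : Polynomial κ, sd = dX κ s := ⟨_, rfl⟩
  have hFK : S.FK = S.ft.map α := by
    rw [hαd]
    rfl
  have hP1 : ∀ l, brP S.d S.FK ((P l).map α) = α s • e l := by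
    intro l
    rw [hPd, hαd]
    exact S6_br bV hbV (e l) s (Q l) fun v => by
      rw [← hαd]
      exact hQ l v
  have hX1 : ∀ l, brP S.d S.FK ((X l).map α) = α sd • e l + α s • nab (e l) := by
    intro l
    have h1 : (X l).map α = nb (DZ κ) S.FK ((P l).map α) := by
      rw [hXd, hFK, hαd]
      exact nb_map _ _
    have h2 : DK κ (α s) = α sd := by
      rw [hsd, hαd]
      exact DK_poly κ s
    rw [h1, ← hG.nab_br, hP1, hG.leib, h2]
  have hconn : ∀ (E : Polynomial κ) (l), α (s * h * s' * E) • nab (e l) = ∑ l', α (s * h * y1 l' l * E) • e l' := by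
    intro E l
    conv_lhs => rw [← e.sum_repr (nab (e l))]
    rw [Finset.smul_sum]
    refine Finset.sum_congr rfl fun l' _ => ?_
    rw [smul_smul]
    congr 1
    rw [map_mul, map_mul, map_mul α (s * h * y1 l' l), map_mul α (s * h), hy1]
    ring
  -- the relations
  have hrel : ∀ l, ∃ δ : Polynomial κ, δ ≠ 0 ∧
      C δ * (C (s * h * s') * (C s * X l - C sd * P l) - C s * ∑ l', C (s * h * y1 l' l) * P l') ∈
        relR S.d S.ft := by
    intro l
    refine relR_desc α hα hfr S.ft _ ?_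
    rw [← hFK, ← relZ_eq]
    refine (Submodule.Quotient.mk_eq_zero _).1 ?_
    refine S6_rel α (brP S.d S.FK) (X l) (P l) P s sd (s * h * s') (fun l' => s * h * y1 l' l) (e l) (nab (e l)) e
      (hX1 l) (hP1 l) hP1 ?_
    have h1 := hconn 1 l
    simp only [mul_one] at h1
    exact h1
  choose δ hδ hδ' using hrel
  obtain ⟨a, ha, ha'⟩ := S6_sm α hα S.ft (m * (S.d - 2) + 1) fun e he => by
    rw [← hFK]
    exact hP.top e (by omega)
  obtain ⟨E, hE⟩ : ∃ E : Polynomial κ, E = a * ∏ l, δ l := ⟨_, rfl⟩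
  have hE0 : E ≠ 0 := by
    rw [hE]
    exact mul_ne_zero ha (Finset.prod_ne_zero_iff.2 fun l _ => hδ l)
  have hΔ0 : s * h * s' * E ≠ 0 := mul_ne_zero (mul_ne_zero (mul_ne_zero hs hh) hs') hE0
  have hkey : ∀ l, C (s * h * s' * E) * (C (s * h * s' * E) * (C s * X l - C sd * P l) -
      C s * ∑ l', C (s * h * y1 l' l * E) * P l') ∈ relR S.d S.ft :=
    fun l => S6_mem _ (X l) (P l) P s sd (s * h * s') a E (fun l' => s * h * y1 l' l) δ hE l (hδ' l)
  have hsm : ∃ M : ℕ, ∀ e : Fin m →₀ ℕ, M ≤ dg e → C (s * h * s' * E) * monomial e 1 ∈ Jac S.ft := by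
    refine ⟨m * (S.d - 2) + 1, fun e he => ?_⟩
    have h1 := ha' (s * h * s' * ∏ l, δ l) e he
    have h2 : s * h * s' * E = s * h * s' * (∏ l, δ l) * a := by
      rw [hE]
      ring
    rw [h2]
    exact h1
  have hom : S.ft.IsHomogeneous S.d := by
    have h1 : S.G.IsHomogeneous S.d := Hm_iff.1 hS.homG
    have h2 : S.H.IsHomogeneous S.d := Hm_iff.1 hS.homH
    exact (h1.map _).sub ((h2.map _).C_mul _)
  have hQl : ∀ i v, Q (Sum.inl i) v = if v = (low i).1 then s else 0 := by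
    intro i v
    apply hα
    rw [hQ, he1, bV.repr_self, Finsupp.single_apply]
    by_cases hv : v = (low i).1
    · rw [if_pos hv, if_pos hv.symm, mul_one]
    · rw [if_neg hv, if_neg fun h => hv h.symm, mul_zero, map_zero]
  have hbas : ∀ l l', ∑ v, Q l v * (h * y2 v l' * E) = if l = l' then s * h * s' * E else 0 := by
    intro l l'
    apply hα
    rw [map_sum]
    have h1 : ∀ v, α (Q l v * (h * y2 v l' * E)) = α (s * h * s' * E) * (bV.repr (e l) v * e.repr (bV v) l') := by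
      intro v
      rw [map_mul, map_mul, map_mul, hQ, hy2, map_mul, map_mul, map_mul]
      ring
    rw [Finset.sum_congr rfl fun v _ => h1 v, ← Finset.mul_sum, S6_dual]
    split_ifs
    · rw [mul_one]
    · rw [mul_zero, map_zero]
  have hbas' : ∀ v v', ∑ l, h * y2 v l * E * Q l v' = if v = v' then s * h * s' * E else 0 := by
    intro v v'
    apply hα
    rw [map_sum]
    have h1 : ∀ l, α (h * y2 v l * E * Q l v') = α (s * h * s' * E) * (e.repr (bV v) l * bV.repr (e l) v') := by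
      intro l
      rw [map_mul, map_mul, map_mul, hQ, hy2, map_mul, map_mul, map_mul]
      ring
    rw [Finset.sum_congr rfl fun l _ => h1 l, ← Finset.mul_sum, S6_dual]
    split_ifs
    · rw [mul_one]
    · rw [mul_zero, map_zero]
  have hbil : ∀ l l', Bil H S.d ((P l).map α) ((P l').map α) = - (α s) ^ 2 * JJ g (RatFunc κ) l l' := by
    intro l l'
    have h1 := hB ((P l).map α) ((P l').map α)
    rw [hP1, hP1, map_smul, map_smul, LinearMap.smul_apply, he2, smul_eq_mul, smul_eq_mul] at h1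
    rw [← h1]
    ring
  refine ⟨⟨S.d, S.ft, V, c, h, s, Q, fun v l => h * y2 v l * E, s * h * s' * E,
    Matrix.of fun l' l => s * h * y1 l' l * E, low⟩, ?_, rfl, rfl, hΔ0, fun l => ?_⟩
  · refine ⟨hS.hN, ho, hS.hd, hg, hom, hC, fun l => ?_, ?_, hbas, hbas', hQl, ⟨s * s' * E, by ring⟩,
      ⟨h * s' * E, by ring⟩, hsm, ?_⟩
    · have h1 := hkey l
      rw [hXd, hsd] at h1
      simp only [hPd] at h1
      exact h1
    · refine flat_symp nab B hP.flat e he2 (s * h * s' * E) _ fun l => ?_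
      have h1 := hconn E l
      rw [hαd] at h1
      exact h1
    · intro L _ β hβ K' l l'
      refine S6_par S hS.hd H c h s (s * h * s' * E) Q (fun v l => h * y2 v l * E)
        (Matrix.of fun l' l => s * h * y1 l' l * E) low hom hsm hΔ0 (fun l l' => ?_) _ rfl L β hβ K' l l'
      have h1 := hbil l l'
      rw [hPd, hPd, hαd] at h1
      exact h1
  · have h1 := hconn E l
    rw [hαd] at h1
    exact h1

end MPadcOH
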