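import Pool.Agent.Lib.MP_adc574_ag_OH.RD
import Pool.Agent.Lib.MP_adc574_ag_PC.N1
import Pool.Agent.Lib.MP_adc574_ag_LZ.GeoMain
import Pool.Agent.Lib.MP_adc574_ag_BK.BKDefs

/-!
# Pencils, ultraproducts of forms: definitions
-/

set_option autoImplicit false

namespace MPadcOH

open MvPolynomial MPadcGM MPadcHM MPadcLZ MPadcBK MPadcOA

/-- The pencil `G - t x_{i₀} ^ d` is a Lefschetz pencil and `G` is a Morse polynomial on `x_{i₀} ≠ 0`. -/
def MorseOver {k : Type} [Field k] {m : ℕ} (i₀ : Fin m) (d : ℕ) (G : MvPolynomial (Fin m) k) : Prop :=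
  (∀ x : Fin m → k, x i₀ = 0 → (∀ i, i ≠ i₀ → eval x (pderiv i G) = 0) → x = 0) ∧ IsLef G (X i₀ ^ d)

/-- The pencil over `k[t]`. -/
noncomputable def pen {k : Type} [CommRing k] {m : ℕ} (i₀ : Fin m) (d : ℕ) (G : MvPolynomial (Fin m) k) :
    MvPolynomial (Fin m) (Polynomial k) :=
  G.map Polynomial.C - C Polynomial.X * X i₀ ^ d

/-- The exponents at most `d`. -/
noncomputable def exps (m d : ℕ) : Finset (Fin m →₀ ℕ) :=
  open Classical in
  (Finset.univ : Finset (Fin m → Fin (d + 1))).image fun f => Finsupp.equivFunOnFinite.symm fun i => (f i : ℕ)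

/-- The ultraproduct of forms of degree `d`. -/
noncomputable def ultP {k : ℕ → Type} [∀ n, Field (k n)] {m : ℕ} (d : ℕ) (G : ∀ n, MvPolynomial (Fin m) (k n)) :
    MvPolynomial (Fin m) (LL k) :=
  ∑ e ∈ exps m d, monomial e (cl fun n => coeff e (G n))

/-- All determinants are not zero. -/
def Gd {k : Type} [Field k] (p : ℕ) [Fact p.Prime] [CharP k p] {m : ℕ} (d : ℕ) (F : MvPolynomial (Fin m) k) : Prop :=
  ∃ (V : Finset (Fin m →₀ ℕ)) (c : V → (Fin m →₀ ℕ) → k) (h : k), h ≠ 0 ∧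
    CData d (m - 1) F (fun v : V => v.1) (fun v : V => lvl d v.1) c h ∧ Smooth F ∧
      ∀ j, 1 ≤ j → j ≤ m - 1 → dj p d F V c j ≠ 0

/-- The exceptional set of a pencil over a finite field is small. -/
def FewM (m : ℕ) (i₀ : Fin m) (d : ℕ) : Prop :=
  ∀ ε : ℝ, 0 < ε → ∃ p₀ : ℕ, ∀ p : ℕ, p.Prime → p₀ ≤ p → ∀ (E : Type) [Field E] [Finite E] [CharP E p]
    (G : MvPolynomial (Fin m) E), G.IsHomogeneous d →
      MorseOver i₀ d (G.map (algebraMap E (AlgebraicClosure E))) →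
        (Nat.card {t : E // ¬ (Smooth (G - C t * X i₀ ^ d) ∧ IsBlochKatoOrdinary (G - C t * X i₀ ^ d))} : ℝ) ≤
          ε * Nat.card E

end MPadcOH
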