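import Pool.Agent.Lib.MP_adc574_ag_OH.S3
import Pool.Agent.Lib.MP_adc574_ag_OH.S6
import Pool.Agent.Lib.MP_adc574_ag_OH.SD
import Pool.Agent.Lib.MP_adc574_ag_PC.L4
import Pool.Agent.Lib.MP_adc574_ag_PC.K6
import Pool.Agent.Lib.MP_adc574_ag_BN.BigL

/-!
# S7: the family data of a Morse pencil in an odd number of variables, with big monodromy

PROOF. Follow `K7_main`, `big_plane` in MP_adc574_ag_PC/K7.lean. (1) From the first condition of `MorseOver`: `∃ M₀, ∀ e, M₀ ≤ dg e → monomial e 1 ∈ Ideal.span ({P | ∃ i, i ≠ i₀ ∧ P = pderiv i G} ∪ {X i₀})` (projective Nullstellensatz over the algebraically closed field `κ`; this is `inf_of_morse` in MP_adc574_ag_PC/U6.lean for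
`m = 3`, or see `key_morse`/the geometric files in MP_adc574_ag_LZ, e.g. GeoA; find the general lemma used there: from the only common zero is 0 to all monomials of large degree are in the ideal). `exists_pdat` (LZ/GeoMain) with `G`, `H = X i₀ ^ d`, `M₀` gives `S : PDat κ m`, `S.d = d` (`subst`), `S.G = G`, `S.H = X i₀ ^ d`, `M₀ ≤ S.M`, `hS : S.Ok`.
`S.ft = pen i₀ d G` (definitions; `map_pow`, `map_X`). (2) `exists_hg` gives `nab`, `hG`; `exists_ppB` (S3) gives `H`, `B`, `rho`, `hP`, `hB`; `infw_morse` (PC/K6) gives `hIW`; `pk_exists`; `mo_fin`; `bl_pair` (nontrivial), `bl_sign`, `halt` (`ho.neg_one_pow`), `exists_LB`, `irr_pdat`, `bl_loc` as in K7.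
(3) `exists_cdata_dom` (BK/GBas) over `Polynomial κ` for `S.ft`, `J = m - 1`, gives `V`, `c`, `h ≠ 0`, `hC` (the level function there is `tdg v / d`, `rfl`). (4) `exists_e` (S5), `exists_HD0` (S6). (5) `big_of_mo` (PC/L4) with this `e`, `Δ = H'.Δ`, `G = H'.G`, `symp = hOk.symp`.
-/

set_option autoImplicit false

namespace MPadcOH

open MvPolynomial MPadcGM MPadcHM MPadcLZ MPadcBK MPadcOA MPadcBM MPadcBN MPadcPC

private theorem S7_main {κ : Type} [Field κ] [CharZero κ] [IsAlgClosed κ] {m : ℕ} (ho : Odd m) (i₀ : Fin m)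
    (S : PDat κ m) (hS : S.Ok) (hSH : S.H = X i₀ ^ S.d)
    (hG0 : ∀ e : Fin m →₀ ℕ, S.M ≤ dg e → monomial e (1 : κ) ∈
      Ideal.span ({P | ∃ i, i ≠ i₀ ∧ P = pderiv i S.G} ∪ {X i₀})) :
    ∃ (g : ℕ) (H : HD κ m g), H.Ok ∧ H.d = S.d ∧ H.F = S.ft ∧ H.Δ ≠ 0 ∧ MPadcPC.Big H.Δ H.G := by
  classical
  have hd : 3 ≤ S.d := hS.hd
  obtain ⟨nab, hG⟩ := exists_hg S hS
  obtain ⟨K, B, rho, hP, hB⟩ := exists_ppB S hS hG
  obtain ⟨s, r₀, g₁, w, W₀, hIW⟩ := infw_morse S hS i₀ hSH hG0 nab hG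
  obtain ⟨k, E, u, al, hK⟩ := pk_exists S hS hG
  have hfin := mo_fin S hS hG hP
  obtain ⟨u₁, v₁, hne, -⟩ := bl_pair S hS hP
  have hnt : Nontrivial (PKm S.d S.FK) := by
    refine ⟨⟨brP S.d S.FK (monomial u₁ 1), 0, fun h0 => hne ?_⟩⟩
    rw [h0, map_zero, LinearMap.zero_apply]
  have hsign : ∀ x y, B y x = (-1) ^ m * B x y := bl_sign S hS hG hP hIW
  have halt : ∀ x y, B y x = -B x y := by
    intro x y
    rw [hsign, ho.neg_one_pow, neg_one_mul]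
  obtain ⟨n, b, hb⟩ := exists_LB hK.ld.fg hK.ld.spn
  have irr := irr_pdat S hS hG hP hIW
  have hft : S.ft.IsHomogeneous S.d := by
    unfold PDat.ft
    refine MvPolynomial.IsHomogeneous.sub ((Hm_iff.1 hS.homG).map _) ?_
    have h1 := (isHomogeneous_C (Fin m) (Polynomial.X : Polynomial κ)).mul
      ((Hm_iff.1 hS.homH).map (Polynomial.C : κ →+* Polynomial κ))
    rwa [zero_add] at h1
  obtain ⟨V, c, h, hh, hC⟩ := exists_cdata_dom (by omega : 1 ≤ S.d) S.ft hft (m - 1)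
  obtain ⟨g, low, bV, e, hg, hbV, he1, he2⟩ := exists_e S hS ho K B hB halt hC hh
  obtain ⟨H', hOk, hHd, hHF, hHΔ, hHe⟩ := exists_HD0 S hS ho hG K hP hB hC hh hg low bV e hbV he1 he2
  exact ⟨g, H', hOk, hHd, hHF, hHΔ, big_of_mo hG.leib hK.ld.fg hK.ld.spn b hb hIW.ok irr
    (bl_loc S hS hG hK hP halt b hb) hg e H'.Δ hHΔ H'.G hOk.symp hHe⟩

theorem exists_HD {κ : Type} [Field κ] [CharZero κ] [IsAlgClosed κ] {m d : ℕ} (hm : 3 ≤ m) (ho : Odd m) (hd : 3 ≤ d)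
    (i₀ : Fin m) (G : MvPolynomial (Fin m) κ) (hG : G.IsHomogeneous d) (hM : MorseOver i₀ d G) :
    ∃ (g : ℕ) (H : HD κ m g), H.Ok ∧ H.d = d ∧ H.F = pen i₀ d G ∧ H.Δ ≠ 0 ∧ MPadcPC.Big H.Δ H.G := by
  obtain ⟨M₁, hM₁⟩ := null_c (Ideal.span ({P | ∃ i, i ≠ i₀ ∧ P = pderiv i G} ∪ {X i₀})) (fun x hx =>
    hM.1 x (by
      have h1 := hx (X i₀) (Ideal.subset_span (Or.inr rfl))
      rwa [eval_X] at h1) fun i hi => hx _ (Ideal.subset_span (Or.inl ⟨i, hi, rfl⟩)))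
  have hM₀ := mono_mem (by omega : 0 < m) (Ideal.span ({P | ∃ i, i ≠ i₀ ∧ P = pderiv i G} ∪ {X i₀})) M₁ hM₁
  have hHm : Hm d (X i₀ ^ d : MvPolynomial (Fin m) κ) := Hm_iff.2 (isHomogeneous_X_pow (R := κ) i₀ d)
  obtain ⟨S, hSd, hSG, hSH, hSM, hS⟩ := exists_pdat hm hd G (X i₀ ^ d) (Hm_iff.2 hG) hHm hM.2 (m * M₁)
  subst hSd
  obtain ⟨g, H, h1, h2, h3, h4, h5⟩ := S7_main ho i₀ S hS hSH (fun e he => by
    rw [hSG]
    exact hM₀ e (hSM.trans he))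
  refine ⟨g, H, h1, h2, ?_, h4, h5⟩
  rw [h3]
  unfold PDat.ft pen
  rw [hSG, hSH, map_pow, map_X]

end MPadcOH
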