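import Pool.Agent.Lib.MP_adc574_ag_OH.SD

/-!
# S1: the ultraproduct of Morse forms is Morse

PROOF. Let `GP : MvPolynomial (Fin m) (∀ n, k n) = ∑ e ∈ exps m d, monomial e (fun n => coeff e (G n))`. Then `GP.map (Pi.evalRingHom k n) = G n` (every `e` in the support of `G n` has `∑ e = d`, so `e ∈ exps m d`; `IsHomogeneous`) and `GP.map (ultMk HF k) = ultP d G`
(`cl` is `ultMk`, `rfl`). For `x : Fin m → LL k` choose representatives `ξ i : ∀ n, k n` (`sg`, `cl (sg x) = x`: `cl_sg`); then for every polynomial `P` over the product ring `eval x (P.map (ultMk ..)) = cl (fun n => eval (fun i => ξ i n) (P.map (Pi.evalRingHom k n)))`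
(`eval_map`/`hom` : both sides are ring homomorphisms in `P`; or `MvPolynomial.eval₂_comp_left`); `pderiv_map`. An equation `cl a = 0` means `∀ᶠ n in HF, a n = 0` (`cl_eq`, `ultMk_eq_zero`), `cl a ≠ 0` means `∀ᶠ n, a n ≠ 0` (ultrafilter: `Filter.not_eventually`, `Ultrafilter.frequently_iff_eventually`, see
`closed_LL` in PC/N3.lean). So: first condition of `MorseOver`: for almost all `n` the hypotheses hold for `ξ n`, so `ξ n = 0`, so `x = 0` (finitely many coordinates: `Filter.eventually_all`). `IsLef`: `IsSing G H τ x` (`x ≠ 0`: some coordinate `x i ≠ 0`, so `ξ i n ≠ 0` for almost all `n`) gives `IsSing (G n) (X i₀ ^ d) (sg τ n) (ξ n)`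
for almost all `n`; `base`: `eval (ξ n) (X i₀ ^ d) ≠ 0`; `node`: for almost all `n` there is `c n` with `v n = c n • ξ n` (take `0` for the other `n`), `c = cl c`; `uniq` in the same way. Homogeneous: every `e` with `coeff e (ultP d G) ≠ 0` has `coeff e (G n) ≠ 0` for some `n`, so `∑ e = d`.
-/

set_option autoImplicit false

namespace MPadcOH

open MvPolynomial MPadcGM MPadcHM MPadcLZ MPadcBK MPadcOA

private theorem S1_comp {R S : Type*} [CommRing R] [CommRing S] {m : ℕ} (φ : R →+* S) (ξ : Fin m → R)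
    (P : MvPolynomial (Fin m) R) : eval (fun i => φ (ξ i)) (P.map φ) = φ (eval ξ P) := by
  rw [eval_map]
  exact (eval₂_comp φ ξ P).symm

private theorem S1_exps {m d : ℕ} {e : Fin m →₀ ℕ} (h : ∀ i, e i ≤ d) : e ∈ exps m d := by
  classical
  unfold exps
  rw [Finset.mem_image]
  refine ⟨fun i => ⟨e i, Nat.lt_succ_of_le (h i)⟩, Finset.mem_univ _, ?_⟩
  ext i
  rfl

private theorem S1_le {R : Type*} [CommRing R] {m d : ℕ} {P : MvPolynomial (Fin m) R} (hP : P.IsHomogeneous d)
    {e : Fin m →₀ ℕ} (he : coeff e P ≠ 0) (i : Fin m) : e i ≤ d := by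
  have h2 := hP he
  have h3 : ∑ i, e i = d := by
    rw [← h2, Finsupp.weight_apply, Finsupp.sum_fintype _ _ (fun i => by simp)]
    exact Finset.sum_congr rfl fun i _ => by simp
  rw [← h3]
  exact Finset.single_le_sum (f := fun i => e i) (fun _ _ => Nat.zero_le _) (Finset.mem_univ i)

/-- The form over the product ring. -/
private noncomputable def S1_GP {k : ℕ → Type} [∀ n, Field (k n)] {m : ℕ} (d : ℕ) (G : ∀ n, MvPolynomial (Fin m) (k n)) :
    MvPolynomial (Fin m) (∀ n, k n) :=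
  ∑ e ∈ exps m d, monomial e (fun n => coeff e (G n))

private theorem S1_coeff {k : ℕ → Type} [∀ n, Field (k n)] {m d : ℕ} (G : ∀ n, MvPolynomial (Fin m) (k n))
    (hG : ∀ n, (G n).IsHomogeneous d) (e : Fin m →₀ ℕ) : coeff e (S1_GP d G) = fun n => coeff e (G n) := by
  classical
  unfold S1_GP
  rw [coeff_sum]
  simp only [coeff_monomial]
  rw [Finset.sum_ite_eq']
  split_ifs with h
  · rfl
  · funext n
    by_contra hne
    exact h (S1_exps (S1_le (hG n) (Ne.symm hne)))

private theorem S1_ev {k : ℕ → Type} [∀ n, Field (k n)] {m d : ℕ} (G : ∀ n, MvPolynomial (Fin m) (k n))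
    (hG : ∀ n, (G n).IsHomogeneous d) (n : ℕ) : (S1_GP d G).map (Pi.evalRingHom k n) = G n := by
  refine MvPolynomial.ext _ _ fun e => ?_
  rw [coeff_map, S1_coeff G hG]
  rfl

private theorem S1_mu {k : ℕ → Type} [∀ n, Field (k n)] {m d : ℕ} (G : ∀ n, MvPolynomial (Fin m) (k n)) :
    (S1_GP d G).map (ultMk (Filter.hyperfilter ℕ) k) = ultP d G := by
  unfold S1_GP ultP
  rw [map_sum]
  refine Finset.sum_congr rfl fun e _ => ?_
  rw [map_monomial]
  rfl

private theorem S1_key {k : ℕ → Type} [∀ n, Field (k n)] {m : ℕ} (P : MvPolynomial (Fin m) (∀ n, k n))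
    (x : Fin m → LL k) : eval x (P.map (ultMk (Filter.hyperfilter ℕ) k)) =
      ultMk (Filter.hyperfilter ℕ) k
        (fun n => eval (fun i => sg (x i) n) (P.map (Pi.evalRingHom k n))) := by
  have hx : x = fun i => ultMk (Filter.hyperfilter ℕ) k (sg (x i)) := funext fun i => (cl_sg (x i)).symm
  have h1 := S1_comp (ultMk (Filter.hyperfilter ℕ) k) (fun i => sg (x i)) P
  rw [← hx] at h1
  rw [h1]
  congr 1
  funext n
  exact (S1_comp (Pi.evalRingHom k n) (fun i => sg (x i)) P).symm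

private theorem S1_zero {k : ℕ → Type} [∀ n, Field (k n)] {m : ℕ} {P : MvPolynomial (Fin m) (∀ n, k n)}
    {x : Fin m → LL k} (h : eval x (P.map (ultMk (Filter.hyperfilter ℕ) k)) = 0) :
    ∀ᶠ n in HF, eval (fun i => sg (x i) n) (P.map (Pi.evalRingHom k n)) = 0 := by
  rw [S1_key, ultMk_eq_zero] at h
  exact h

private theorem S1_cl0 {k : ℕ → Type} [∀ n, Field (k n)] {x : LL k} : x = 0 ↔ ∀ᶠ n in HF, sg x n = 0 := by
  rw [← ultMk_eq_zero]
  have h := cl_sg x
  unfold cl at h
  rw [h]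

private theorem S1_pd {R S : Type*} [CommRing R] [CommRing S] {m : ℕ} (φ : R →+* S) (i : Fin m)
    (P : MvPolynomial (Fin m) R) : (pderiv i P).map φ = pderiv i (P.map φ) := pderiv_map.symm

private theorem S1_pd2 {R S : Type*} [CommRing R] [CommRing S] {m : ℕ} (φ : R →+* S) (a b i₀ : Fin m) (d : ℕ) (t : R)
    (P : MvPolynomial (Fin m) R) : (pderiv a (pderiv b (P - C t * X i₀ ^ d))).map φ =
      pderiv a (pderiv b (P.map φ - C (φ t) * X i₀ ^ d)) := by
  have h1 : (P - C t * X i₀ ^ d).map φ = P.map φ - C (φ t) * X i₀ ^ d := by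
    rw [map_sub, map_mul, map_C, map_pow, map_X]
  rw [S1_pd, S1_pd, h1]

private theorem S1_sing {k : ℕ → Type} [∀ n, Field (k n)] {m d : ℕ} (i₀ : Fin m) (G : ∀ n, MvPolynomial (Fin m) (k n))
    (hG : ∀ n, (G n).IsHomogeneous d) {τ : LL k} {x : Fin m → LL k}
    (h : IsSing (ultP d G) (X i₀ ^ d) τ x) :
    ∀ᶠ n in HF, IsSing (G n) (X i₀ ^ d) (sg τ n) (fun i => sg (x i) n) := by
  have h1 : ∀ᶠ n in HF, (fun i => sg (x i) n) ≠ (0 : Fin m → k n) := by
    by_contra hcon
    rw [Filter.not_eventually] at hcon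
    have h5 := (Ultrafilter.frequently_iff_eventually (f := Filter.hyperfilter ℕ)).1 hcon
    apply h.1
    funext i
    rw [Pi.zero_apply, S1_cl0]
    filter_upwards [h5] with n hn
    exact congrFun (not_not.1 hn) i
  have h2 : ∀ᶠ n in HF, ∀ i, eval (fun i => sg (x i) n)
      ((pderiv i (S1_GP d G) - C (sg τ) * pderiv i (X i₀ ^ d)).map (Pi.evalRingHom k n)) = 0 := by
    refine Filter.eventually_all.2 fun i => S1_zero ?_
    rw [map_sub, map_mul, S1_pd, S1_pd, S1_mu, map_pow, map_X, map_C, map_sub, map_mul, eval_C, h.2 i]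
    have h6 : ultMk (Filter.hyperfilter ℕ) k (sg τ) = τ := cl_sg τ
    rw [h6, sub_self]
  filter_upwards [h1, h2] with n h3 h4
  refine ⟨h3, fun i => ?_⟩
  have h5 := h4 i
  rw [map_sub, map_mul, S1_pd, S1_pd, S1_ev G hG, map_pow, map_X, map_C, map_sub, map_mul, eval_C,
    sub_eq_zero] at h5
  exact h5

private theorem S1_smul {k : ℕ → Type} [∀ n, Field (k n)] {m : ℕ} (x y : Fin m → LL k)
    (h : ∀ᶠ n in HF, ∃ c : k n, (fun i => sg (y i) n) = c • fun i => sg (x i) n) : ∃ c : LL k, y = c • x := by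
  have h1 : ∀ n, ∃ c : k n, (∃ c : k n, (fun i => sg (y i) n) = c • fun i => sg (x i) n) →
      (fun i => sg (y i) n) = c • fun i => sg (x i) n := by
    intro n
    by_cases h2 : ∃ c : k n, (fun i => sg (y i) n) = c • fun i => sg (x i) n
    · obtain ⟨c, hc⟩ := h2
      exact ⟨c, fun _ => hc⟩
    · exact ⟨0, fun h3 => absurd h3 h2⟩
  choose c hc using h1
  refine ⟨cl c, ?_⟩
  funext i
  rw [Pi.smul_apply, smul_eq_mul, ← cl_sg (y i)]
  conv_rhs => rw [← cl_sg (x i)]
  have h3 : cl c * cl (sg (x i)) = cl (fun n => c n * sg (x i) n) :=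
    (map_mul (ultMk (Filter.hyperfilter ℕ) k) _ _).symm
  rw [h3, cl_eq]
  filter_upwards [h] with n hn
  exact congrFun (hc n hn) i

theorem coeff_ultP {k : ℕ → Type} [∀ n, Field (k n)] {m d : ℕ} (G : ∀ n, MvPolynomial (Fin m) (k n))
    (hG : ∀ n, (G n).IsHomogeneous d) (e : Fin m →₀ ℕ) : coeff e (ultP d G) = cl fun n => coeff e (G n) := by
  rw [← S1_mu, coeff_map, S1_coeff G hG]
  rfl

theorem hom_ultP {k : ℕ → Type} [∀ n, Field (k n)] {m d : ℕ} (G : ∀ n, MvPolynomial (Fin m) (k n))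
    (hG : ∀ n, (G n).IsHomogeneous d) : (ultP d G).IsHomogeneous d := by
  intro e he
  rw [coeff_ultP G hG] at he
  by_contra hne
  apply he
  have h1 : ∀ n, coeff e (G n) = 0 := fun n => by
    by_contra h2
    exact hne (hG n h2)
  have h2 : (fun n => coeff e (G n)) = (0 : ∀ n, k n) := funext h1
  rw [h2]
  exact map_zero (ultMk (Filter.hyperfilter ℕ) k)

theorem morse_ult {k : ℕ → Type} [∀ n, Field (k n)] {m d : ℕ} (i₀ : Fin m) (G : ∀ n, MvPolynomial (Fin m) (k n))
    (hG : ∀ n, (G n).IsHomogeneous d) (hM : ∀ n, MorseOver i₀ d (G n)) : MorseOver i₀ d (ultP d G) := by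
  refine ⟨fun x hx0 hx => ?_, ?_, ?_, ?_⟩
  · have h1 : ∀ᶠ n in HF, sg (x i₀) n = 0 := S1_cl0.1 hx0
    have h2 : ∀ᶠ n in HF, ∀ i, i ≠ i₀ → eval (fun i => sg (x i) n)
        ((pderiv i (S1_GP d G)).map (Pi.evalRingHom k n)) = 0 := by
      refine Filter.eventually_all.2 fun i => ?_
      by_cases hi : i = i₀
      · exact Filter.Eventually.of_forall fun n h => absurd hi h
      · have h3 : ∀ᶠ n in HF, eval (fun i => sg (x i) n)
            ((pderiv i (S1_GP d G)).map (Pi.evalRingHom k n)) = 0 := by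
          refine S1_zero ?_
          rw [S1_pd, S1_mu]
          exact hx i hi
        filter_upwards [h3] with n hn _
        exact hn
    have h4 : ∀ᶠ n in HF, (fun i => sg (x i) n) = (0 : Fin m → k n) := by
      filter_upwards [h1, h2] with n h5 h6
      refine (hM n).1 _ h5 fun i hi => ?_
      have h7 := h6 i hi
      rw [S1_pd, S1_ev G hG] at h7
      exact h7
    funext i
    rw [Pi.zero_apply, S1_cl0]
    filter_upwards [h4] with n hn
    exact congrFun hn i
  · intro τ x hs h0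
    have h1 := S1_sing i₀ G hG hs
    have h2 : ∀ᶠ n in HF, eval (fun i => sg (x i) n)
        ((X i₀ ^ d : MvPolynomial (Fin m) (∀ n, k n)).map (Pi.evalRingHom k n)) = 0 := by
      refine S1_zero ?_
      rw [map_pow, map_X]
      exact h0
    obtain ⟨n, h3, h4⟩ := (h1.and h2).exists
    rw [map_pow, map_X] at h4
    exact (hM n).2.base _ _ h3 h4
  · intro τ x hs v hv
    have h1 := S1_sing i₀ G hG hs
    have h6 : ultMk (Filter.hyperfilter ℕ) k (sg τ) = τ := cl_sg τ
    have h2 : ∀ᶠ n in HF, ∀ a, ∑ b, eval (fun i => sg (x i) n)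
        ((pderiv a (pderiv b (S1_GP d G - C (sg τ) * X i₀ ^ d))).map (Pi.evalRingHom k n)) *
          sg (v b) n = 0 := by
      refine Filter.eventually_all.2 fun a => ?_
      have h3 := hv a
      have h4 : ∀ b, eval x (pderiv a (pderiv b (ultP d G - C τ * X i₀ ^ d))) * v b =
          ultMk (Filter.hyperfilter ℕ) k ((fun n => eval (fun i => sg (x i) n)
            ((pderiv a (pderiv b (S1_GP d G - C (sg τ) * X i₀ ^ d))).map (Pi.evalRingHom k n))) *
              sg (v b)) := by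
        intro b
        have h7 : ultMk (Filter.hyperfilter ℕ) k (sg (v b)) = v b := cl_sg (v b)
        rw [map_mul, ← S1_key, h7, S1_pd2, S1_mu, h6]
      rw [Finset.sum_congr rfl fun b _ => h4 b, ← map_sum, ultMk_eq_zero] at h3
      filter_upwards [h3] with n hn
      rw [Finset.sum_apply] at hn
      exact hn
    refine S1_smul x v ?_
    filter_upwards [h1, h2] with n h3 h4
    refine (hM n).2.node _ _ h3 _ fun a => ?_
    have h5 := h4 a
    simp only [S1_pd2, S1_ev G hG] at h5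
    exact h5
  · intro τ x y hx hy
    refine S1_smul x y ?_
    filter_upwards [S1_sing i₀ G hG hx, S1_sing i₀ G hG hy] with n h1 h2
    exact (hM n).2.uniq _ _ _ h1 h2

end MPadcOH
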