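import Pool.Agent.Lib.MP_adc574_ag_OH.R1

/-!
# R2: the derivative of the functionals `gf`

PROOF. Both sides are additive in `P`; for `P = monomial e a`: `D (a * x) = a * D x + x * D a`, `cder D (monomial e a) = monomial e (D a)` (see BK/Cc or HM), so `P = monomial e 1` is enough (`nb D F (monomial e 1) = cder D F * monomial e 1`
since `D 1 = 0`). If `d` does not divide `tdg e` all terms are 0 (`cder D F * x ^ e` has monomials of `tdg = tdg e + d`, `gf_mono`). If `tdg e = k d` (`k ≥ 1` as `tdg e ≥ m`), multiply `gam_der` (BK/Gam) by `(-1) ^ k`, use `gf_hom` for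
`cder D F * x ^ e` (level `k + 1`) and `gf_mono` for the `gf v'`.
-/

set_option autoImplicit false

namespace MPadcOH

open MvPolynomial MPadcGM MPadcHM MPadcLZ MPadcBK MPadcOA

private theorem r2_cder {R : Type} [CommRing R] {m d : ℕ} {F : MvPolynomial (Fin m) R}
    (hF : F.IsHomogeneous d) (D : Derivation ℤ R R) (e e' : Fin m →₀ ℕ)
    (he' : e' ∈ (cder D F * monomial e (1 : R)).support) : tdg e' = tdg e + d := by
  have h1 := mem_support_iff.1 he'
  rw [coeff_mul_monomial'] at h1
  by_cases h2 : e ≤ e'
  · rw [if_pos h2, mul_one, coeff_cder] at h1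
    have h3 : coeff (e' - e) F ≠ 0 := by
      intro h4
      rw [h4, map_zero] at h1
      exact h1 rfl
    have h4 := hF h3
    rw [Finsupp.weight_apply, Finsupp.sum_fintype _ _ (by simp)] at h4
    simp only [Pi.one_apply, smul_eq_mul, mul_one] at h4
    have h5 : e' = e + (e' - e) := (add_tsub_cancel_of_le h2).symm
    unfold tdg
    rw [← h4, ← Finset.sum_add_distrib]
    refine Finset.sum_congr rfl fun i _ => ?_
    have h6 : e' i = e i + (e' - e) i := by
      have h7 := congrArg (fun f : Fin m →₀ ℕ => f i) h5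
      exact h7
    omega
  · rw [if_neg h2] at h1
    exact absurd rfl h1

private theorem r2_zero {R : Type} [CommRing R] (p : ℕ) [Fact p.Prime] [CharP R p] {m d : ℕ} {F : MvPolynomial (Fin m) R}
    {V : Finset (Fin m →₀ ℕ)} {c : V → (Fin m →₀ ℕ) → R} (v : V) (P : MvPolynomial (Fin m) R)
    (hP : ∀ e ∈ P.support, ¬ d ∣ tdg e) : gf p d F V c v P = 0 := by
  rw [← support_sum_monomial_coeff P, map_sum]
  refine Finset.sum_eq_zero fun e he => ?_
  rw [gf_mono, if_neg (hP e he), mul_zero]

private theorem r2_scal {R : Type} [CommRing R] (p : ℕ) [Fact p.Prime] [CharP R p] {m d : ℕ} {F : MvPolynomial (Fin m) R}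
    {V : Finset (Fin m →₀ ℕ)} {c : V → (Fin m →₀ ℕ) → R} (v : V) (e : Fin m →₀ ℕ) (a : R) :
    gf p d F V c v (monomial e a) = a * gf p d F V c v (monomial e 1) := by
  rw [gf_mono, gf_mono p v e 1, one_mul]

private theorem r2_mono {R : Type} [CommRing R] (p : ℕ) [Fact p.Prime] [CharP R p] {m d : ℕ} {F : MvPolynomial (Fin m) R}
    {V : Finset (Fin m →₀ ℕ)} {c : V → (Fin m →₀ ℕ) → R} {h : R} (hm : 2 ≤ m) (hd : 1 ≤ d) (hF : F.IsHomogeneous d) {J : ℕ} (hJ : J < p)
    (hC : CData d J F (fun v : V => v.1) (fun v : V => lvl d v.1) c h) (D : Derivation ℤ R R) (v : V)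
    (e : Fin m →₀ ℕ) :
    h ^ p * D (gf p d F V c v (monomial e 1)) = h ^ p * gf p d F V c v (cder D F * monomial e 1) -
      ∑ v' : V, (if lvl d v'.1 + 1 = lvl d v.1 then
        ell (fun v e => c v e ^ p) v (vB p D F * monomial v'.1 1) else 0) * gf p d F V c v' (monomial e 1) := by
  by_cases hde : d ∣ tdg e
  · obtain ⟨k, hk⟩ := hde
    have hk' : tdg e = k * d := by rw [hk, mul_comm]
    have hk1 : 1 ≤ k := by
      rcases Nat.eq_zero_or_pos k with h0 | h0
      · exfalso
        rw [h0, mul_zero] at hk
        have h1 : tdg e = ∑ i, e i + m := by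
          unfold tdg
          rw [Finset.sum_add_distrib]
          simp
        omega
      · exact h0
    have hsup1 : ∀ e' ∈ (monomial e (1 : R) : MvPolynomial (Fin m) R).support, tdg e' = k * d := by
      intro e' he'
      have h1 := Finset.mem_singleton.1 (support_monomial_subset he')
      rw [h1, hk']
    have hsup2 : ∀ e' ∈ (cder D F * monomial e (1 : R)).support, tdg e' = (k + 1) * d := by
      intro e' he'
      rw [r2_cder hF D e e' he', hk', add_mul, one_mul]
    have hg1 : ∀ v' : V, gf p d F V c v' (monomial e 1) =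
        (-1) ^ k * gam p F c (fun v : V => lvl d v.1) v' k (monomial e 1) :=
      fun v' => gf_hom p v' k hd _ hsup1
    have hg2 := gf_hom p (c := c) v (k + 1) hd (F := F) _ hsup2
    have hder := gam_der p hF hC hJ D v hk1 e hk'
    have hDs : ∀ x : R, D ((-1) ^ k * x) = (-1) ^ k * D x := by
      intro x
      rcases neg_one_pow_eq_or R k with h1 | h1
      · rw [h1, one_mul, one_mul]
      · rw [h1, neg_one_mul, neg_one_mul, map_neg]
    have hsum : (∑ v' : V, (if lvl d v'.1 + 1 = lvl d v.1 then
        ell (fun v e => c v e ^ p) v (vB p D F * monomial v'.1 1) else 0) * gf p d F V c v' (monomial e 1)) =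
        (-1) ^ k * ∑ v' : V, (if lvl d v'.1 + 1 = lvl d v.1 then
        ell (fun v e => c v e ^ p) v (vB p D F * monomial v'.1 1) else 0) *
          gam p F c (fun v : V => lvl d v.1) v' k (monomial e 1) := by
      rw [Finset.mul_sum]
      refine Finset.sum_congr rfl fun v' _ => ?_
      rw [hg1 v']
      ring
    rw [hsum, hg1 v, hg2, hDs, pow_succ]
    linear_combination (-1) ^ k * hder
  · have h1 : ∀ v' : V, gf p d F V c v' (monomial e 1) = 0 := by
      intro v'
      rw [gf_mono, if_neg hde, mul_zero]
    have h2 : gf p d F V c v (cder D F * monomial e 1) = 0 := by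
      refine r2_zero p v _ fun e' he' => ?_
      rw [r2_cder hF D e e' he']
      intro h3
      exact hde ((Nat.dvd_add_left (dvd_refl d)).1 h3)
    rw [h1 v, h2, map_zero, mul_zero, Finset.sum_eq_zero (fun v' _ => by rw [h1 v', mul_zero]), sub_zero]

theorem gf_der {R : Type} [CommRing R] (p : ℕ) [Fact p.Prime] [CharP R p] {m d : ℕ} {F : MvPolynomial (Fin m) R}
    {V : Finset (Fin m →₀ ℕ)} {c : V → (Fin m →₀ ℕ) → R} {h : R} (hm : 2 ≤ m) (hd : 1 ≤ d) (hF : F.IsHomogeneous d) {J : ℕ} (hJ : J < p)
    (hC : CData d J F (fun v : V => v.1) (fun v : V => lvl d v.1) c h) (D : Derivation ℤ R R) (v : V)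
    (P : MvPolynomial (Fin m) R) :
    h ^ p * D (gf p d F V c v P) = h ^ p * gf p d F V c v (nb D F P) -
      ∑ v' : V, (if lvl d v'.1 + 1 = lvl d v.1 then
        ell (fun v e => c v e ^ p) v (vB p D F * monomial v'.1 1) else 0) * gf p d F V c v' P := by
  induction P using MvPolynomial.induction_on' with
  | monomial e a =>
    have key := r2_mono p hm hd hF hJ hC D v e
    have hnb : nb D F (monomial e a) = monomial e (D a) + a • (cder D F * monomial e 1) := by
      unfold nb
      rw [cder_monomial]
      have h1 : (monomial e a : MvPolynomial (Fin m) R) = a • monomial e 1 := by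
        rw [smul_monomial, smul_eq_mul, mul_one]
      rw [← mul_smul_comm, ← h1]
    have hS : (∑ v' : V, (if lvl d v'.1 + 1 = lvl d v.1 then
        ell (fun v e => c v e ^ p) v (vB p D F * monomial v'.1 1) else 0) * gf p d F V c v' (monomial e a)) =
        a * ∑ v' : V, (if lvl d v'.1 + 1 = lvl d v.1 then
        ell (fun v e => c v e ^ p) v (vB p D F * monomial v'.1 1) else 0) *
          gf p d F V c v' (monomial e 1) := by
      rw [Finset.mul_sum]
      refine Finset.sum_congr rfl fun v' _ => ?_
      rw [r2_scal p v' e a]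
      ring
    rw [hS, hnb, map_add, map_smul, smul_eq_mul, r2_scal p v e (D a), r2_scal p v e a, Derivation.leibniz,
      smul_eq_mul, smul_eq_mul]
    linear_combination a * key
  | add P Q hP hQ =>
    have hnb : nb D F (P + Q) = nb D F P + nb D F Q := by
      unfold nb
      rw [cder_add]
      ring
    have hS : (∑ v' : V, (if lvl d v'.1 + 1 = lvl d v.1 then
        ell (fun v e => c v e ^ p) v (vB p D F * monomial v'.1 1) else 0) * gf p d F V c v' (P + Q)) =
        (∑ v' : V, (if lvl d v'.1 + 1 = lvl d v.1 then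
        ell (fun v e => c v e ^ p) v (vB p D F * monomial v'.1 1) else 0) * gf p d F V c v' P) +
        ∑ v' : V, (if lvl d v'.1 + 1 = lvl d v.1 then
        ell (fun v e => c v e ^ p) v (vB p D F * monomial v'.1 1) else 0) * gf p d F V c v' Q := by
      rw [← Finset.sum_add_distrib]
      refine Finset.sum_congr rfl fun v' _ => ?_
      rw [map_add]
      ring
    rw [hS, hnb, map_add, map_add, map_add]
    linear_combination hP + hQ

end MPadcOH
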