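import Pool.Agent.Lib.MP_adc574_ag_OH.OD

/-!
# S8a: the properties of the family data are stable under base change

PROOF. Let `Φ = Polynomial.mapRingHom φ : R[X] →+* S[X]`. `(H.map φ).P l = (H.P l).map Φ` (`map_sum`, `map_mul`, `map_C`, `map_monomial`). `hom`: `IsHomogeneous.map`. `cd`: `CData.map` (BK/CData.lean) with `Φ` (`H.c v e` mapped by `Polynomial.map φ` is `Φ (H.c v e)`, `rfl`/`coe_mapRingHom`). `rel`: the image of `relR d F` under `MvPolynomial.map Φ` is contained in
`relR d (F.map Φ)`: `Submodule.span_induction`: `(dl F i Q).map Φ = dl (F.map Φ) i (Q.map Φ)` (`pderiv_map`), monomials, sums, multiples (`(r • P).map Φ = Φ r • P.map Φ`); `nb (dX S) (F.map Φ) (P.map Φ) = (nb (dX R) F P).map Φ` (`cder` commutes with coefficient maps, `Polynomial.derivative_map`; compare coefficients). `symp`: `JJ` is mapped to `JJ`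
(entries 0, 1, -1; see `N1_JJ` in MP_adc574_ag_PC/N1.lean), `Matrix.map_mul`. `bas`, `bas'`, `inl`: `map_sum`, `apply_ite`. `hdvd`, `sdvd`: `map_dvd`. `sm`: `Ideal.mem_map_of_mem` as `mapza_jac` in MP_adc574_ag_LZ/MapZ.lean. `par`: for `β : S[X] →+* L` use `hH.par L (β.comp Φ)` (`MvPolynomial.map_map`).
-/

set_option autoImplicit false

namespace MPadcOH

open MvPolynomial MPadcGM MPadcHM MPadcLZ MPadcBK MPadcOA

private theorem S8a_jac {A B : Type*} [CommRing A] [CommRing B] {N : ℕ} (φ : A →+* B) (F P : MvPolynomial (Fin N) A)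
    (h : P ∈ Jac F) : P.map φ ∈ Jac (F.map φ) := by
  have h1 := Ideal.mem_map_of_mem (MvPolynomial.map φ) h
  unfold Jac at h1 ⊢
  rw [Ideal.map_span] at h1
  refine Ideal.span_mono ?_ h1
  rintro _ ⟨_, ⟨i, rfl⟩, rfl⟩
  exact ⟨i, pderiv_map⟩

private theorem S8a_dl {A B : Type*} [CommRing A] [CommRing B] {N : ℕ} (φ : A →+* B) (F Q : MvPolynomial (Fin N) A)
    (i : Fin N) : (dl F i Q).map φ = dl (F.map φ) i (Q.map φ) := by
  unfold dl
  rw [map_add, map_mul, pderiv_map, pderiv_map]

private theorem S8a_rel {A B : Type} [CommRing A] [CommRing B] {N d : ℕ} (φ : A →+* B) (F P : MvPolynomial (Fin N) A)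
    (h : P ∈ relR d F) : P.map φ ∈ relR d (F.map φ) := by
  unfold relR at h
  induction h using Submodule.span_induction with
  | mem x hx =>
    rcases hx with ⟨i, Q, rfl⟩ | ⟨e, he, rfl⟩
    · exact Submodule.subset_span (Or.inl ⟨i, Q.map φ, S8a_dl φ F Q i⟩)
    · refine Submodule.subset_span (Or.inr ⟨e, he, ?_⟩)
      rw [map_monomial, map_one]
  | zero => rw [map_zero]; exact Submodule.zero_mem _
  | add x y _ _ hx hy => rw [map_add]; exact Submodule.add_mem _ hx hy
  | smul a x _ hx =>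
    have h1 : (a • x).map φ = φ a • x.map φ := by
      rw [MvPolynomial.smul_eq_C_mul, map_mul, map_C, MvPolynomial.smul_eq_C_mul]
    rw [h1]
    exact Submodule.smul_mem _ _ hx

private theorem S8a_nb {R S : Type} [CommRing R] [CommRing S] {m : ℕ} (φ : R →+* S)
    (F P : MvPolynomial (Fin m) (Polynomial R)) :
    nb (dX S) (F.map (Polynomial.mapRingHom φ)) (P.map (Polynomial.mapRingHom φ)) =
      (nb (dX R) F P).map (Polynomial.mapRingHom φ) := by
  have h : ∀ a : Polynomial R, dX S (Polynomial.mapRingHom φ a) = Polynomial.mapRingHom φ (dX R a) := by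
    intro a
    show Polynomial.derivative (a.map φ) = (Polynomial.derivative a).map φ
    exact Polynomial.derivative_map a φ
  unfold nb
  rw [cder_map (Polynomial.mapRingHom φ) (dX R) (dX S) h, cder_map (Polynomial.mapRingHom φ) (dX R) (dX S) h,
    map_add, map_mul]

private theorem S8a_JJ {R S : Type*} [CommRing R] [CommRing S] (g : ℕ) (f : R →+* S) : (JJ g R).map f = JJ g S := by
  unfold JJ
  rw [Matrix.fromBlocks_map]
  congr 1
  · exact Matrix.map_zero _ (map_zero f)
  · exact Matrix.map_one _ (map_zero f) (map_one f)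
  · ext i j
    simp only [Matrix.map_apply, Matrix.neg_apply, map_neg]
    rw [Matrix.one_apply, Matrix.one_apply]
    split_ifs
    · rw [map_one]
    · rw [map_zero]
  · exact Matrix.map_zero _ (map_zero f)

private theorem S8a_P {R S : Type} [CommRing R] [CommRing S] {m g : ℕ} (H : HD R m g) (φ : R →+* S) (l : Nx g) :
    (H.map φ).P l = (H.P l).map (Polynomial.mapRingHom φ) := by
  unfold HD.P
  rw [map_sum]
  refine Finset.sum_congr rfl fun v _ => ?_
  have h1 : MvPolynomial.map (Polynomial.mapRingHom φ) (C (H.Q l v) * monomial v.1 1) =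
      C (Polynomial.mapRingHom φ (H.Q l v)) * monomial v.1 1 := by
    rw [map_mul, map_C, map_monomial, map_one]
  rw [h1]
  rfl

private theorem S8a_cd {R S : Type} [CommRing R] [CommRing S] {m g : ℕ} {H : HD R m g} (hH : H.Ok) (φ : R →+* S) :
    CData (H.map φ).d (m - 1) (H.map φ).F (fun v : (H.map φ).V => v.1) (fun v : (H.map φ).V => lvl (H.map φ).d v.1)
      (H.map φ).c (H.map φ).h := by
  have h1 := hH.cd.map (Polynomial.mapRingHom φ)
  exact h1

private theorem S8a_rel2 {R S : Type} [CommRing R] [CommRing S] {m g : ℕ} {H : HD R m g} (hH : H.Ok) (φ : R →+* S)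
    (l : Nx g) : C (H.map φ).Δ * (C (H.map φ).Δ * (C (H.map φ).s * nb (dX S) (H.map φ).F ((H.map φ).P l) -
      C (dX S (H.map φ).s) * (H.map φ).P l) -
      C (H.map φ).s * ∑ l', C ((H.map φ).G l' l) * (H.map φ).P l') ∈ relR (H.map φ).d (H.map φ).F := by
  have h3 : dX S ((H.map φ).s) = Polynomial.mapRingHom φ (dX R H.s) := by
    show Polynomial.derivative (H.s.map φ) = (Polynomial.derivative H.s).map φ
    exact Polynomial.derivative_map H.s φ
  have h1 := S8a_rel (Polynomial.mapRingHom φ) _ _ (hH.rel l)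
  have h4 : MvPolynomial.map (Polynomial.mapRingHom φ) (C H.Δ * (C H.Δ * (C H.s * nb (dX R) H.F (H.P l) -
      C (dX R H.s) * H.P l) - C H.s * ∑ l', C (H.G l' l) * H.P l')) =
      C (Polynomial.mapRingHom φ H.Δ) * (C (Polynomial.mapRingHom φ H.Δ) * (C (Polynomial.mapRingHom φ H.s) *
        nb (dX S) (H.F.map (Polynomial.mapRingHom φ)) ((H.map φ).P l) -
      C (Polynomial.mapRingHom φ (dX R H.s)) * (H.map φ).P l) -
      C (Polynomial.mapRingHom φ H.s) * ∑ l', C (Polynomial.mapRingHom φ (H.G l' l)) * (H.map φ).P l') := by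
    simp only [map_mul, map_sub, map_sum, map_C, S8a_P, S8a_nb]
  rw [h4] at h1
  rw [h3]
  exact h1

private theorem S8a_symp {R S : Type} [CommRing R] [CommRing S] {m g : ℕ} {H : HD R m g} (hH : H.Ok) (φ : R →+* S) :
    (H.map φ).G * JJ g (Polynomial S) + JJ g (Polynomial S) * (H.map φ).G.transpose = 0 := by
  have h1 := congrArg (fun M => Matrix.map M (Polynomial.mapRingHom φ)) hH.symp
  beta_reduce at h1
  rw [Matrix.map_add _ (map_add _), Matrix.map_mul, Matrix.map_mul, S8a_JJ, Matrix.transpose_map,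
    Matrix.map_zero _ (map_zero _)] at h1
  exact h1

private theorem S8a_sum {R S : Type} [CommRing R] [CommRing S] (φ : R →+* S) {ι : Type} [Fintype ι]
    (a b : ι → Polynomial R) (c : Polynomial R) (P : Prop) [Decidable P] (h : ∑ i, a i * b i = if P then c else 0) :
    ∑ i, (a i).map φ * (b i).map φ = if P then c.map φ else 0 := by
  have h1 : ∑ i, (a i).map φ * (b i).map φ = (∑ i, a i * b i).map φ := by
    rw [Polynomial.map_sum]
    exact Finset.sum_congr rfl fun i _ => (Polynomial.map_mul φ).symm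
  rw [h1, h]
  split_ifs
  · rfl
  · exact Polynomial.map_zero φ

private theorem S8a_inl {R S : Type} [CommRing R] [CommRing S] {m g : ℕ} {H : HD R m g} (hH : H.Ok) (φ : R →+* S)
    (i : Fin g) (v : H.V) : (H.Q (Sum.inl i) v).map φ = if v = (H.low i).1 then H.s.map φ else 0 := by
  rw [hH.inl i v]
  split_ifs
  · rfl
  · exact Polynomial.map_zero φ

private theorem S8a_sm {R S : Type} [CommRing R] [CommRing S] {m g : ℕ} {H : HD R m g} (hH : H.Ok) (φ : R →+* S) :
    ∃ M : ℕ, ∀ e : Fin m →₀ ℕ, M ≤ dg e → C (H.map φ).Δ * monomial e 1 ∈ Jac (H.map φ).F := by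
  obtain ⟨M, hM⟩ := hH.sm
  refine ⟨M, fun e he => ?_⟩
  have h1 := S8a_jac (Polynomial.mapRingHom φ) _ _ (hM e he)
  have h2 : MvPolynomial.map (Polynomial.mapRingHom φ) (C H.Δ * monomial e 1) =
      C (Polynomial.mapRingHom φ H.Δ) * monomial e 1 := by
    rw [map_mul, map_C, map_monomial, map_one]
  rw [h2] at h1
  exact h1

private theorem S8a_par {R S : Type} [CommRing R] [CommRing S] {m g : ℕ} {H : HD R m g} (hH : H.Ok) (φ : R →+* S)
    (L : Type) [Field L] (β : Polynomial S →+* L) (hβ : β (H.map φ).Δ ≠ 0)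
    (K : RegF ((H.map φ).d - 1) ((H.map φ).F.map β)) (l l' : Nx g) :
    Bil K (H.map φ).d (((H.map φ).P l).map β) (((H.map φ).P l').map β) = - (β (H.map φ).s) ^ 2 * JJ g L l l' := by
  have hP : ∀ l, ((H.map φ).P l).map β = (H.P l).map (β.comp (Polynomial.mapRingHom φ)) := by
    intro l
    rw [S8a_P, MvPolynomial.map_map]
  have key : ∀ (F' : MvPolynomial (Fin m) L) (_ : F' = H.F.map (β.comp (Polynomial.mapRingHom φ)))
      (K' : RegF (H.d - 1) F'), Bil K' H.d (((H.map φ).P l).map β) (((H.map φ).P l').map β) =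
        - (β (H.map φ).s) ^ 2 * JJ g L l l' := by
    intro F' hF' K'
    subst hF'
    rw [hP, hP]
    exact hH.par L (β.comp (Polynomial.mapRingHom φ)) hβ K' l l'
  exact key _ (MvPolynomial.map_map _ _ _) K

theorem ok_map {R S : Type} [CommRing R] [CommRing S] {m g : ℕ} {H : HD R m g} (hH : H.Ok) (φ : R →+* S) : (H.map φ).Ok := by
  refine ⟨hH.hm, hH.odd, hH.hd, hH.hg, hH.hom.map _, S8a_cd hH φ, S8a_rel2 hH φ, S8a_symp hH φ, ?_, ?_, ?_, ?_, ?_,
    S8a_sm hH φ, fun L _ β hβ K l l' => S8a_par hH φ L β hβ K l l'⟩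
  · intro l l'
    exact S8a_sum φ (fun v => H.Q l v) (fun v => H.Q' v l') _ _ (hH.bas l l')
  · intro v v'
    exact S8a_sum φ (fun l => H.Q' v l) (fun l => H.Q l v') _ _ (hH.bas' v v')
  · intro i v
    exact S8a_inl hH φ i v
  · exact Polynomial.map_dvd φ hH.hdvd
  · exact Polynomial.map_dvd φ hH.sdvd

end MPadcOH
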