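import Pool.Agent.Lib.MP_adc574_ag_OH.OD

/-!
# S8b: certificates for relations

PROOF. `Φ A = Polynomial.mapRingHom (algebraMap A κ)`. `lift_mv`: `P = ∑ e ∈ P.support, monomial e (coeff e P)`, and every `coeff e P ∈ κ[X]` with coefficients in `A` is the image of a polynomial over `A` (`Polynomial.lifts`, `Polynomial.mem_lifts`, `Polynomial.lifts_iff_coeff_lifts`, or the sum of monomials). `cert_rel`: the set of all `P` with the property `∃ T, ∀ A ⊇ T, ∀ F' P', ..` is a
submodule which contains the generators: for `dl F i Q` let `T` be the coefficients (of the coefficients) of `Q`; for `A ⊇ T` choose `Q'` over `A[X]` with image `Q`, then `dl F' i Q'` has the image `dl F i Q = P = P'.map Φ`, so `P' = dl F' i Q'` (`map_injective`, `Φ` is injective since `A → κ` is). Sum `P + R` of two such elements: `T = T₁ ∪ T₂ ∪ coefficients of P and R`: for `A ⊇ T` lift `P` and `R` to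
`P₁`, `R₁`, these are in `relR d F'`, and `P' = P₁ + R₁` by injectivity. Multiple `a • P`: `T` = the coefficients of `a` and of `P` and `T₁`. Monomials: `P' = monomial e 1`. `0`: `P' = 0`. (`Submodule.span_induction`.)
-/

set_option autoImplicit false

namespace MPadcOH

open MvPolynomial MPadcGM MPadcHM MPadcLZ MPadcBK MPadcOA

private theorem S8b_lift {κ : Type} [Field κ] (A : Subalgebra ℤ κ) (a : Polynomial κ) (h : ∀ j, a.coeff j ∈ A) :
    ∃ a' : Polynomial A, a'.map (algebraMap A κ) = a := by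
  have h1 : a ∈ Polynomial.lifts (algebraMap A κ) :=
    (Polynomial.lifts_iff_coeff_lifts a).2 fun j => ⟨⟨a.coeff j, h j⟩, rfl⟩
  obtain ⟨a', ha'⟩ := (Polynomial.mem_lifts a).1 h1
  exact ⟨a', ha'⟩

theorem lift_mv {κ : Type} [Field κ] {m : ℕ} (A : Subalgebra ℤ κ) (P : MvPolynomial (Fin m) (Polynomial κ))
    (h : ∀ e j, (coeff e P).coeff j ∈ A) :
    ∃ P' : MvPolynomial (Fin m) (Polynomial A), P'.map (Polynomial.mapRingHom (algebraMap A κ)) = P := by
  classical
  have h1 : ∀ e, ∃ a' : Polynomial A, a'.map (algebraMap A κ) = coeff e P := fun e => S8b_lift A (coeff e P) (h e)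
  choose q hq using h1
  refine ⟨∑ e ∈ P.support, monomial e (q e), ?_⟩
  rw [map_sum]
  conv_rhs => rw [P.as_sum]
  refine Finset.sum_congr rfl fun e _ => ?_
  rw [map_monomial, Polynomial.coe_mapRingHom, hq e]

theorem map_mv_inj {κ : Type} [Field κ] {m : ℕ} (A : Subalgebra ℤ κ) :
    Function.Injective (MvPolynomial.map (Polynomial.mapRingHom (algebraMap A κ)) :
      MvPolynomial (Fin m) (Polynomial A) → MvPolynomial (Fin m) (Polynomial κ)) := by
  refine map_injective _ ?_
  rw [Polynomial.coe_mapRingHom]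
  exact Polynomial.map_injective _ Subtype.val_injective

theorem exists_coefs {κ : Type} [Field κ] {m : ℕ} (P : MvPolynomial (Fin m) (Polynomial κ)) :
    ∃ T : Finset κ, ∀ A : Subalgebra ℤ κ, (∀ x ∈ T, x ∈ A) → ∀ e j, (coeff e P).coeff j ∈ A := by
  classical
  refine ⟨P.support.biUnion fun e => (coeff e P).support.image fun j => (coeff e P).coeff j, fun A hA e j => ?_⟩
  by_cases he : e ∈ P.support
  · by_cases hj : j ∈ (coeff e P).support
    · exact hA _ (Finset.mem_biUnion.2 ⟨e, he, Finset.mem_image_of_mem _ hj⟩)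
    · rw [Polynomial.notMem_support_iff.1 hj]
      exact A.zero_mem
  · rw [notMem_support_iff.1 he, Polynomial.coeff_zero]
    exact A.zero_mem

theorem cert_rel {κ : Type} [Field κ] {m d : ℕ} (F P : MvPolynomial (Fin m) (Polynomial κ)) (hP : P ∈ relR d F) :
    ∃ T : Finset κ, ∀ A : Subalgebra ℤ κ, (∀ x ∈ T, x ∈ A) → ∀ F' P' : MvPolynomial (Fin m) (Polynomial A),
      F'.map (Polynomial.mapRingHom (algebraMap A κ)) = F → P'.map (Polynomial.mapRingHom (algebraMap A κ)) = P →
        P' ∈ relR d F' := by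
  classical
  refine Submodule.span_induction (p := fun P _ => ∃ T : Finset κ, ∀ A : Subalgebra ℤ κ, (∀ x ∈ T, x ∈ A) →
    ∀ F' P' : MvPolynomial (Fin m) (Polynomial A), F'.map (Polynomial.mapRingHom (algebraMap A κ)) = F →
      P'.map (Polynomial.mapRingHom (algebraMap A κ)) = P → P' ∈ relR d F') ?_ ?_ ?_ ?_ hP
  · rintro P (⟨i, Q, rfl⟩ | ⟨e, he, rfl⟩)
    · obtain ⟨T, hT⟩ := exists_coefs Q
      refine ⟨T, fun A hA F' P' hF hP' => ?_⟩
      obtain ⟨Q', hQ'⟩ := lift_mv A Q (hT A hA)
      have h1 : P' = dl F' i Q' := by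
        refine map_mv_inj A ?_
        rw [hP', dl, dl, map_add, map_mul, ← pderiv_map, ← pderiv_map, hF, hQ']
      rw [h1]
      exact Submodule.subset_span (Or.inl ⟨i, Q', rfl⟩)
    · refine ⟨∅, fun A _ F' P' _ hP' => ?_⟩
      have h1 : P' = monomial e 1 := by
        refine map_mv_inj A ?_
        rw [hP', map_monomial, (Polynomial.mapRingHom (algebraMap A κ)).map_one]
      rw [h1]
      exact Submodule.subset_span (Or.inr ⟨e, he, rfl⟩)
  · refine ⟨∅, fun A _ F' P' _ hP' => ?_⟩
    have h1 : P' = 0 := by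
      refine map_mv_inj A ?_
      rw [hP', map_zero]
    rw [h1]
    exact Submodule.zero_mem _
  · rintro x y _ _ ⟨T₁, hT₁⟩ ⟨T₂, hT₂⟩
    obtain ⟨T₃, hT₃⟩ := exists_coefs x
    obtain ⟨T₄, hT₄⟩ := exists_coefs y
    refine ⟨(T₁ ∪ T₂) ∪ (T₃ ∪ T₄), fun A hA F' P' hF hP' => ?_⟩
    obtain ⟨x', hx'⟩ := lift_mv A x (hT₃ A fun z hz => hA z
      (Finset.mem_union_right _ (Finset.mem_union_left _ hz)))
    obtain ⟨y', hy'⟩ := lift_mv A y (hT₄ A fun z hz => hA z
      (Finset.mem_union_right _ (Finset.mem_union_right _ hz)))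
    have h1 : P' = x' + y' := by
      refine map_mv_inj A ?_
      rw [hP', map_add, hx', hy']
    rw [h1]
    exact Submodule.add_mem _
      (hT₁ A (fun z hz => hA z (Finset.mem_union_left _ (Finset.mem_union_left _ hz))) F' x' hF hx')
      (hT₂ A (fun z hz => hA z (Finset.mem_union_left _ (Finset.mem_union_right _ hz))) F' y' hF hy')
  · rintro a x _ ⟨T₁, hT₁⟩
    obtain ⟨T₂, hT₂⟩ := exists_coefs x
    refine ⟨(T₁ ∪ T₂) ∪ a.support.image fun j => a.coeff j, fun A hA F' P' hF hP' => ?_⟩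
    obtain ⟨x', hx'⟩ := lift_mv A x (hT₂ A fun z hz => hA z
      (Finset.mem_union_left _ (Finset.mem_union_right _ hz)))
    obtain ⟨a', ha'⟩ := S8b_lift A a (fun j => by
      by_cases hj : j ∈ a.support
      · exact hA _ (Finset.mem_union_right _ (Finset.mem_image_of_mem _ hj))
      · rw [Polynomial.notMem_support_iff.1 hj]
        exact A.zero_mem)
    have h1 : P' = a' • x' := by
      refine map_mv_inj A ?_
      rw [hP', smul_eq_C_mul, smul_eq_C_mul, map_mul, map_C, hx', Polynomial.coe_mapRingHom, ha']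
    rw [h1]
    exact Submodule.smul_mem _ _
      (hT₁ A (fun z hz => hA z (Finset.mem_union_left _ (Finset.mem_union_left _ hz))) F' x' hF hx')

end MPadcOH
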