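import Pool.Agent.Lib.MP_adc574_ag_OH.S8b

/-!
# S8c: certificates for the Jacobian ideal and for coordinates

PROOF. `cert_jac`: `P = ∑ j, Q j * pderiv j F` (`Ideal.mem_span_range_iff_exists_fun`); `T` = the coefficients of the `Q j` (`exists_coefs`, S8b); for `A ⊇ T` lift the `Q j` (`lift_mv`), `∑ j, Q' j * pderiv j F'` has the image `P` (`pderiv_map`), so it is `P'` (`map_mv_inj`).
`cert_cd`: the exponents `e` with `tdg e ≤ J * d` are finitely many (`spr_fin` in BK/Spr.lean, copy it); for these `e` and `1 ≤ i ≤ J` with `tdg e = i * d` apply `cert_jac` to `hC.span i .. e ..`; `T` = the union of these finitely many sets (choose, `Finset.biUnion`). For `A ⊇ T` and lifts `F'`, `c'`, `h'`: `lv_pos`, `lv_le`, `lev`: the same; `ker`: map to `κ[X]` (`ell_map`, injectivity of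
`A[X] → κ[X]`), `self`, `zero`: injectivity; `span`: the membership by `cert_jac` (the polynomial `C h' * monomial e 1 - ∑ ..` over `A[X]` has the image the one over `κ[X]`).
-/

set_option autoImplicit false

namespace MPadcOH

open MvPolynomial MPadcGM MPadcHM MPadcLZ MPadcBK MPadcOA

private theorem S8c_fin (m N : ℕ) : {e : Fin m →₀ ℕ | tdg e ≤ N}.Finite := by
  refine (Set.finite_Iic (Finsupp.equivFunOnFinite.symm (fun _ : Fin m => N))).subset ?_
  intro e he
  have he' : tdg e ≤ N := he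
  rw [Set.mem_Iic, Finsupp.le_def]
  intro i
  change e i ≤ N
  unfold tdg at he'
  have h1 := Finset.single_le_sum (f := fun i => e i + 1) (fun _ _ => Nat.zero_le _) (Finset.mem_univ i)
  have h2 : e i + 1 ≤ ∑ i, (e i + 1) := h1
  omega

private theorem S8c_inj {κ : Type} [Field κ] (A : Subalgebra ℤ κ) :
    Function.Injective (Polynomial.mapRingHom (algebraMap A κ)) := by
  rw [Polynomial.coe_mapRingHom]
  exact Polynomial.map_injective _ Subtype.val_injective

theorem cert_jac {κ : Type} [Field κ] {m : ℕ} (F P : MvPolynomial (Fin m) (Polynomial κ)) (hP : P ∈ Jac F) :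
    ∃ T : Finset κ, ∀ A : Subalgebra ℤ κ, (∀ x ∈ T, x ∈ A) → ∀ F' P' : MvPolynomial (Fin m) (Polynomial A),
      F'.map (Polynomial.mapRingHom (algebraMap A κ)) = F → P'.map (Polynomial.mapRingHom (algebraMap A κ)) = P →
        P' ∈ Jac F' := by
  classical
  obtain ⟨Q, hQ⟩ := Ideal.mem_span_range_iff_exists_fun.mp hP
  choose T hT using fun j => exists_coefs (Q j)
  refine ⟨Finset.univ.biUnion T, fun A hA F' P' hF hP' => ?_⟩
  have hl : ∀ j, ∃ Q' : MvPolynomial (Fin m) (Polynomial A), Q'.map (Polynomial.mapRingHom (algebraMap A κ)) = Q j := fun j =>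
    lift_mv A (Q j) (hT j A fun x hx => hA x (Finset.mem_biUnion.mpr ⟨j, Finset.mem_univ j, hx⟩))
  choose Q' hQ' using hl
  refine Ideal.mem_span_range_iff_exists_fun.mpr ⟨Q', map_mv_inj A ?_⟩
  rw [map_sum, hP', ← hQ]
  refine Finset.sum_congr rfl fun j _ => ?_
  rw [map_mul, hQ', ← MvPolynomial.pderiv_map, hF]

theorem cert_cd {κ : Type} [Field κ] {m d J : ℕ} {F : MvPolynomial (Fin m) (Polynomial κ)} {V : Finset (Fin m →₀ ℕ)}
    {c : V → (Fin m →₀ ℕ) → Polynomial κ} {h : Polynomial κ}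
    (hC : CData d J F (fun v : V => v.1) (fun v : V => lvl d v.1) c h) :
    ∃ T : Finset κ, ∀ A : Subalgebra ℤ κ, (∀ x ∈ T, x ∈ A) → ∀ (F' : MvPolynomial (Fin m) (Polynomial A))
      (c' : V → (Fin m →₀ ℕ) → Polynomial A) (h' : Polynomial A),
      F'.map (Polynomial.mapRingHom (algebraMap A κ)) = F → (∀ v e, (c' v e).map (algebraMap A κ) = c v e) →
        h'.map (algebraMap A κ) = h → CData d J F' (fun v : V => v.1) (fun v : V => lvl d v.1) c' h' := by
  classical
  have hT : ∀ t : ℕ × (Fin m →₀ ℕ), ∃ T : Finset κ, 1 ≤ t.1 → t.1 ≤ J → tdg t.2 = t.1 * d →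
      ∀ A : Subalgebra ℤ κ, (∀ x ∈ T, x ∈ A) → ∀ F' P' : MvPolynomial (Fin m) (Polynomial A),
      F'.map (Polynomial.mapRingHom (algebraMap A κ)) = F → P'.map (Polynomial.mapRingHom (algebraMap A κ)) =
        C h * monomial t.2 1 - ∑ v : V, (if lvl d v.1 = t.1 then monomial v.1 (c v t.2) else 0) → P' ∈ Jac F' := by
    intro t
    by_cases ht : 1 ≤ t.1 ∧ t.1 ≤ J ∧ tdg t.2 = t.1 * d
    · obtain ⟨T, hT⟩ := cert_jac F _ (hC.span t.1 ht.1 ht.2.1 t.2 ht.2.2)
      exact ⟨T, fun _ _ _ => hT⟩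
    · exact ⟨∅, fun h1 h2 h3 => absurd ⟨h1, h2, h3⟩ ht⟩
  choose T hT using hT
  refine ⟨(Finset.range (J + 1) ×ˢ (S8c_fin m (J * d)).toFinset).biUnion T, fun A hA F' c' h' hF hc hh => ?_⟩
  refine ⟨hC.lv_pos, hC.lv_le, hC.lev, ?_, ?_, ?_, ?_⟩
  · intro v j Q
    apply S8c_inj A
    have h1 : (fun v e => Polynomial.mapRingHom (algebraMap A κ) (c' v e)) = c := funext fun v => funext fun e => hc v e
    rw [map_zero, ← ell_map, h1, map_mul, ← MvPolynomial.pderiv_map, hF]
    exact hC.ker v j _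
  · intro v v'
    apply S8c_inj A
    have h1 : Polynomial.mapRingHom (algebraMap A κ) (c' v v'.1) = c v v'.1 := hc v v'.1
    rw [h1, hC.self v v']
    split_ifs with h2
    · exact hh.symm
    · rw [map_zero]
  · intro v e he
    apply S8c_inj A
    have h1 : Polynomial.mapRingHom (algebraMap A κ) (c' v e) = c v e := hc v e
    rw [h1, hC.zero v e he, map_zero]
  · intro i hi hiJ e he
    refine hT (i, e) hi hiJ he A (fun x hx => hA x (Finset.mem_biUnion.mpr ⟨(i, e), ?_, hx⟩)) F' _ hF ?_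
    · rw [Finset.mem_product, Finset.mem_range, Set.Finite.mem_toFinset]
      refine ⟨Nat.lt_succ_of_le hiJ, ?_⟩
      change tdg e ≤ J * d
      rw [he]
      exact Nat.mul_le_mul_right d hiJ
    · have h1 : Polynomial.mapRingHom (algebraMap A κ) h' = h := hh
      rw [map_sub, map_mul, map_sum, MvPolynomial.map_C, MvPolynomial.map_monomial, map_one, h1]
      refine congrArg (fun z => C h * monomial e 1 - z) (Finset.sum_congr rfl fun v _ => ?_)
      have h2 : Polynomial.mapRingHom (algebraMap A κ) (c' v e) = c v e := hc v e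
      split_ifs with h3
      · rw [MvPolynomial.map_monomial, h2]
      · rw [map_zero]

end MPadcOH
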