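import Pool.Agent.Lib.MP_adc574_ag_OH.S4
import Pool.Agent.Lib.MP_adc574_ag_OH.S8a
import Pool.Agent.Lib.MP_adc574_ag_OH.S8b
import Pool.Agent.Lib.MP_adc574_ag_OH.S8c
import Pool.Agent.Lib.MP_adc574_ag_OH.R4

/-!
# S8: the family data are defined over a finitely generated ring

PROOF. (`cert_rel`: S8b, `cert_jac`, `cert_cd`: S8c give finite sets which replace the explicit certificates below: for every subalgebra which contains them the lifted data satisfy `rel`, `sm`, `cd`.) Choose a finite set of elements of `κ`: the coefficients (of `t`, then of `x`) of `F`, of the `c v e` (`c v e ≠ 0` only for `tdg e = lvl v * d`: finitely many), `h`, `s`, `Q`, `Q'`, `Δ`, `G`, and of certificates: for `rel l`: the membership in the span is a finite sum `∑ a_i • gen_i` with `a_i ∈ κ[X]` and `gen_i = dl F i Q_i` or a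
monomial (`Submodule.mem_span_iff_exists_finset_subset` or `Finsupp`): the coefficients of the `a_i`, `Q_i`; for `cd.span i e` (finitely many `i ≤ m - 1` and `e` with `tdg e = i d`): the coefficients of the `Q_j` with `.. = ∑ Q_j ∂_j F` (`Ideal.mem_span_range_iff_exists_fun`); for `sm`: the same for the finitely many `e` with `dg e = M`.
`A = Algebra.adjoin ℤ` of this finite set (`FG`). Everything lifts to `A` (a polynomial over `κ[X]` all of whose coefficients are in `A` is the image of a polynomial over `A[X]`; `Polynomial.lifts`, `mem_map_range` or explicit `∑ monomial`), uniquely, as `A[X] → κ[X]` and `MvPolynomial (Fin m) A[X] → MvPolynomial (Fin m) κ[X]` are injective; the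
identities `hom`, `ker`, `self`, `zero`, `symp`, `bas`, `bas'`, `inl` follow by injectivity (`CData.ker` for `Q` over `A[X]`: map to `κ[X]`; `ell_map`), `hdvd`, `sdvd`: add the quotients `Δ / h`, `Δ / s` to the finite set. `sm` for `dg e > M`: `e = e' + e''` with `dg e' = M`. `par`: `par_of` (S4) with `K = RatFunc κ`,
`α = (algebraMap κ[X] (RatFunc κ)).comp (mapRingHom (algebraMap A κ))` (injective), `hpar` from `hH.par (RatFunc κ) ..`, `hreg` from `sm` and `hom` (or from R4 `regF`). `low`, `d`, `V`, `g` are the same, `HA.map (algebraMap A κ) = H` by the choice (`HD` is a structure; prove the equality field by field, e.g. construct `HA` from `H` by `rcases H`).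
-/

set_option autoImplicit false

namespace MPadcOH

open MvPolynomial MPadcGM MPadcHM MPadcLZ MPadcBK MPadcOA

private noncomputable def S8_T {κ : Type} [Field κ] (q : Polynomial κ) : Finset κ :=
  open Classical in q.support.image q.coeff

private theorem S8_mem {κ : Type} [Field κ] (A : Subalgebra ℤ κ) (q : Polynomial κ)
    (h : ∀ x ∈ S8_T q, x ∈ A) (j : ℕ) : q.coeff j ∈ A := by
  classical
  by_cases hj : q.coeff j = 0
  · rw [hj]
    exact A.zero_mem
  · refine h _ ?_
    unfold S8_T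
    exact Finset.mem_image.2 ⟨j, Polynomial.mem_support_iff.2 hj, rfl⟩

private theorem S8_lift {κ : Type} [Field κ] (A : Subalgebra ℤ κ) (q : Polynomial κ)
    (h : ∀ x ∈ S8_T q, x ∈ A) : ∃ q' : Polynomial A, q'.map (algebraMap A κ) = q := by
  have h1 := S8_mem A q h
  have h2 : q ∈ Polynomial.lifts (algebraMap A κ) := by
    rw [Polynomial.lifts_iff_coeff_lifts]
    intro j
    exact ⟨⟨q.coeff j, h1 j⟩, rfl⟩
  exact (Polynomial.mem_lifts q).1 h2

private theorem S8_inj {κ : Type} [Field κ] (A : Subalgebra ℤ κ) :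
    Function.Injective (algebraMap A κ) := fun _ _ h => Subtype.ext h

private theorem S8_pinj {κ : Type} [Field κ] (A : Subalgebra ℤ κ) {p q : Polynomial A}
    (h : p.map (algebraMap A κ) = q.map (algebraMap A κ)) : p = q :=
  Polynomial.map_injective _ (S8_inj A) h

private theorem S8_coeff_cder {R : Type} [CommRing R] {m : ℕ} (D : Derivation ℤ R R) (P : MvPolynomial (Fin m) R)
    (e : Fin m →₀ ℕ) : coeff e (cder D P) = D (coeff e P) := by
  classical
  unfold cder
  rw [coeff_sum]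
  simp only [coeff_monomial]
  rw [Finset.sum_ite_eq']
  split_ifs with h
  · rfl
  · rw [notMem_support_iff.1 h, map_zero]

private theorem S8_cder {R S : Type} [CommRing R] [CommRing S] (φ : R →+* S) {m : ℕ}
    (P : MvPolynomial (Fin m) (Polynomial R)) :
    (cder (dX R) P).map (Polynomial.mapRingHom φ) = cder (dX S) (P.map (Polynomial.mapRingHom φ)) := by
  ext1 e
  rw [coeff_map, S8_coeff_cder, S8_coeff_cder, coeff_map]
  change Polynomial.map φ (Polynomial.derivative _) = Polynomial.derivative (Polynomial.map φ _)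
  rw [Polynomial.derivative_map]

private theorem S8_nb {R S : Type} [CommRing R] [CommRing S] (φ : R →+* S) {m : ℕ}
    (F P : MvPolynomial (Fin m) (Polynomial R)) :
    (nb (dX R) F P).map (Polynomial.mapRingHom φ) =
      nb (dX S) (F.map (Polynomial.mapRingHom φ)) (P.map (Polynomial.mapRingHom φ)) := by
  unfold nb
  rw [map_add, map_mul, S8_cder, S8_cder]

private theorem S8_JJ {R S : Type*} [CommRing R] [CommRing S] (g : ℕ) (f : R →+* S) :
    (JJ g R).map f = JJ g S := by
  unfold JJ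
  rw [Matrix.fromBlocks_map]
  congr 1
  · exact Matrix.map_zero _ (map_zero f)
  · exact Matrix.map_one _ (map_zero f) (map_one f)
  · ext i j
    simp only [Matrix.map_apply, Matrix.neg_apply, map_neg]
    rw [Matrix.one_apply, Matrix.one_apply]
    split_ifs
    · rw [map_one]
    · rw [map_zero]
  · exact Matrix.map_zero _ (map_zero f)

private theorem S8_fin (m N : ℕ) : {e : Fin m →₀ ℕ | tdg e ≤ N}.Finite := by
  refine (Set.finite_Iic (Finsupp.equivFunOnFinite.symm (fun _ : Fin m => N))).subset ?_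
  intro e he
  have he' : tdg e ≤ N := he
  rw [Set.mem_Iic, Finsupp.le_def]
  intro i
  change e i ≤ N
  unfold tdg at he'
  have h1 := Finset.single_le_sum (f := fun i => e i + 1) (fun _ _ => Nat.zero_le _) (Finset.mem_univ i)
  have h2 : e i + 1 ≤ ∑ i, (e i + 1) := h1
  omega

private theorem S8_fin' (m M : ℕ) : {e : Fin m →₀ ℕ | dg e = M}.Finite := by
  refine (Set.finite_Iic (Finsupp.equivFunOnFinite.symm (fun _ : Fin m => M))).subset ?_
  intro e he
  have he' : dg e = M := he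
  rw [Set.mem_Iic, Finsupp.le_def]
  intro i
  change e i ≤ M
  rw [← he']
  exact Finset.single_le_sum (f := fun i => e i) (fun _ _ => Nat.zero_le _) (Finset.mem_univ i)

/-- Splitting of an exponent. -/
private theorem S8_split {m : ℕ} (M : ℕ) : ∀ (k : ℕ) (e : Fin m →₀ ℕ), dg e = M + k →
    ∃ e' e'' : Fin m →₀ ℕ, e = e' + e'' ∧ dg e' = M := by
  intro k
  induction k with
  | zero => exact fun e he => ⟨e, 0, (add_zero e).symm, he⟩
  | succ k ih =>
    intro e he
    have h1 : ∃ i, e i ≠ 0 := by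
      by_contra hn
      push Not at hn
      have h2 : dg e = 0 := Finset.sum_eq_zero fun i _ => hn i
      omega
    obtain ⟨i, hi⟩ := h1
    have h3 : e = (e - Finsupp.single i 1) + Finsupp.single i 1 := by
      ext j
      rw [Finsupp.add_apply, Finsupp.tsub_apply]
      by_cases hj : i = j
      · subst hj
        rw [Finsupp.single_eq_same]
        omega
      · rw [Finsupp.single_eq_of_ne' hj]
        omega
    have h4 : dg e = dg (e - Finsupp.single i 1) + 1 := by
      have h5 : dg e = dg ((e - Finsupp.single i 1) + Finsupp.single i 1) := by rw [← h3]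
      rw [h5]
      unfold dg
      simp only [Finsupp.add_apply]
      rw [Finset.sum_add_distrib]
      congr 1
      rw [Finset.sum_eq_single i]
      · rw [Finsupp.single_eq_same]
      · intro j _ hj
        exact Finsupp.single_eq_of_ne hj
      · exact fun h => absurd (Finset.mem_univ i) h
    obtain ⟨e', e'', he1, he2⟩ := ih (e - Finsupp.single i 1) (by omega)
    refine ⟨e', e'' + Finsupp.single i 1, ?_, he2⟩
    rw [← add_assoc, ← he1, ← h3]

private theorem S8_bil {K : Type} [Field K] {m : ℕ} {e d : ℕ} {F F' : MvPolynomial (Fin m) K} (h : F = F')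
    (hF : RegF e F) (hF' : RegF e F') (P Q : MvPolynomial (Fin m) K) : Bil hF d P Q = Bil hF' d P Q := by
  subst h
  rfl

private theorem S8_ext {κ : Type} [CommRing κ] {m g : ℕ} (H : HD κ m g) {F : MvPolynomial (Fin m) (Polynomial κ)}
    {c : H.V → (Fin m →₀ ℕ) → Polynomial κ} {h s Δ : Polynomial κ} {Q : Nx g → H.V → Polynomial κ}
    {Q' : H.V → Nx g → Polynomial κ} {G : Matrix (Nx g) (Nx g) (Polynomial κ)}
    (h1 : F = H.F) (h2 : c = H.c) (h3 : h = H.h) (h4 : s = H.s) (h5 : Q = H.Q) (h6 : Q' = H.Q') (h7 : Δ = H.Δ)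
    (h8 : G = H.G) : (⟨H.d, F, H.V, c, h, s, Q, Q', Δ, G, H.low⟩ : HD κ m g) = H := by
  subst h1 h2 h3 h4 h5 h6 h7 h8
  rfl

private theorem S8_P {R S : Type} [CommRing R] [CommRing S] {m g : ℕ} (H : HD R m g) (φ : R →+* S) (l : Nx g) :
    (H.map φ).P l = (H.P l).map (Polynomial.mapRingHom φ) := by
  unfold HD.P
  rw [map_sum]
  refine Finset.sum_congr rfl fun v _ => ?_
  rw [map_mul, map_C, map_monomial, map_one (Polynomial.mapRingHom φ)]
  rfl

/-- The properties of a lift from the finitely many memberships. -/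
private theorem S8_ok {κ : Type} [Field κ] {m g : ℕ} (A : Subalgebra ℤ κ) (HA : HD A m g)
    (hH : (HA.map (algebraMap A κ)).Ok) (hΔ : (HA.map (algebraMap A κ)).Δ ≠ 0)
    (hcd : CData HA.d (m - 1) HA.F (fun v : HA.V => v.1) (fun v : HA.V => lvl HA.d v.1) HA.c HA.h)
    (hrel : ∀ l, C HA.Δ * (C HA.Δ * (C HA.s * nb (dX A) HA.F (HA.P l) - C (dX A HA.s) * HA.P l) -
      C HA.s * ∑ l', C (HA.G l' l) * HA.P l') ∈ relR HA.d HA.F)
    (hhd : HA.h ∣ HA.Δ) (hsd : HA.s ∣ HA.Δ)
    (hsm : ∃ M : ℕ, ∀ e : Fin m →₀ ℕ, dg e = M → C HA.Δ * monomial e 1 ∈ Jac HA.F) : HA.Ok := by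
  have hΔ' : HA.Δ ≠ 0 := by
    intro h0
    apply hΔ
    change HA.Δ.map (algebraMap A κ) = 0
    rw [h0, Polynomial.map_zero]
  have hhom : HA.F.IsHomogeneous HA.d := by
    intro e he
    refine hH.hom (d := e) ?_
    change coeff e (HA.F.map (Polynomial.mapRingHom (algebraMap A κ))) ≠ 0
    rw [coeff_map]
    intro h0
    apply he
    apply S8_pinj A
    rw [Polynomial.map_zero]
    exact h0
  have hsm' : ∃ M : ℕ, ∀ e : Fin m →₀ ℕ, M ≤ dg e → C HA.Δ * monomial e 1 ∈ Jac HA.F := by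
    obtain ⟨M, hM⟩ := hsm
    refine ⟨M, fun e he => ?_⟩
    obtain ⟨e', e'', h1, h2⟩ := S8_split M (dg e - M) e (by omega)
    have h3 : (monomial e (1 : Polynomial A) : MvPolynomial (Fin m) (Polynomial A)) =
        monomial e' 1 * monomial e'' 1 := by
      rw [monomial_mul, ← h1, mul_one]
    rw [h3, ← mul_assoc]
    exact Ideal.mul_mem_right _ _ (hM e' h2)
  refine ⟨hH.hm, hH.odd, hH.hd, hH.hg, hhom, hcd, hrel, ?_, ?_, ?_, ?_, hhd, hsd, hsm', ?_⟩
  · -- symp
    have h1 := hH.symp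
    have h2 : (HA.G * JJ g (Polynomial A) + JJ g (Polynomial A) * HA.G.transpose).map
        (Polynomial.mapRingHom (algebraMap A κ)) = 0 := by
      rw [Matrix.map_add _ (map_add _), Matrix.map_mul, Matrix.map_mul, S8_JJ, Matrix.transpose_map]
      exact h1
    ext1 i j
    apply S8_pinj A
    have h3 := congrFun (congrFun h2 i) j
    rw [Matrix.map_apply] at h3
    rw [Matrix.zero_apply, Polynomial.map_zero]
    exact h3
  · intro l l'
    apply S8_pinj A
    have h1 := hH.bas l l'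
    rw [Polynomial.map_sum]
    have h2 : (if l = l' then HA.Δ else 0 : Polynomial A).map (algebraMap A κ) =
        if l = l' then (HA.map (algebraMap A κ)).Δ else 0 := by
      split_ifs
      · rfl
      · exact Polynomial.map_zero _
    rw [h2, ← h1]
    refine Finset.sum_congr rfl fun v _ => ?_
    rw [Polynomial.map_mul]
    rfl
  · intro v v'
    apply S8_pinj A
    have h1 := hH.bas' v v'
    rw [Polynomial.map_sum]
    have h2 : (if v = v' then HA.Δ else 0 : Polynomial A).map (algebraMap A κ) =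
        if v = v' then (HA.map (algebraMap A κ)).Δ else 0 := by
      split_ifs
      · rfl
      · exact Polynomial.map_zero _
    rw [h2]
    refine Eq.trans ?_ (h1.trans ?_)
    · refine Finset.sum_congr rfl fun l _ => ?_
      rw [Polynomial.map_mul]
      rfl
    · congr
  · intro i v
    apply S8_pinj A
    have h1 := hH.inl i v
    have h2 : (if v = (HA.low i).1 then HA.s else 0 : Polynomial A).map (algebraMap A κ) =
        if v = (HA.low i).1 then (HA.map (algebraMap A κ)).s else 0 := by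
      split_ifs
      · rfl
      · exact Polynomial.map_zero _
    rw [h2]
    exact h1
  · -- par
    have hα : Function.Injective (algebraMap (Polynomial κ) (RatFunc κ)) := RatFunc.algebraMap_injective κ
    have hα' : Function.Injective ((algebraMap (Polynomial κ) (RatFunc κ)).comp
        (Polynomial.mapRingHom (algebraMap A κ))) := by
      intro x y hxy
      apply S8_pinj A
      exact hα hxy
    have hreg := regF (HA.map (algebraMap A κ)) hH (algebraMap (Polynomial κ) (RatFunc κ)) (by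
      intro h0
      apply hΔ
      apply hα
      rw [h0, map_zero])
    have hF : HA.F.map ((algebraMap (Polynomial κ) (RatFunc κ)).comp (Polynomial.mapRingHom (algebraMap A κ))) =
        (HA.map (algebraMap A κ)).F.map (algebraMap (Polynomial κ) (RatFunc κ)) := by
      change _ = (HA.F.map (Polynomial.mapRingHom (algebraMap A κ))).map _
      rw [MvPolynomial.map_map]
    have hP : ∀ l, (HA.P l).map ((algebraMap (Polynomial κ) (RatFunc κ)).comp
        (Polynomial.mapRingHom (algebraMap A κ))) =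
        ((HA.map (algebraMap A κ)).P l).map (algebraMap (Polynomial κ) (RatFunc κ)) := by
      intro l
      rw [S8_P, MvPolynomial.map_map]
    have hreg' : RegF (HA.d - 1) (HA.F.map ((algebraMap (Polynomial κ) (RatFunc κ)).comp
        (Polynomial.mapRingHom (algebraMap A κ)))) := by
      rw [hF]
      exact hreg
    intro L _ β hβ K' l l'
    refine par_of HA hH.hd hhom hsm' hΔ' _ hα' hreg' ?_ L β hβ K' l l'
    intro l l'
    rw [S8_bil hF hreg' hreg, hP, hP]
    refine (hH.par (RatFunc κ) (algebraMap (Polynomial κ) (RatFunc κ)) ?_ hreg l l').trans ?_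
    · intro h0
      apply hΔ
      apply hα
      rw [h0, map_zero]
    · rfl

theorem spread_HD {κ : Type} [Field κ] {m g : ℕ} (H : HD κ m g) (hH : H.Ok) (hΔ : H.Δ ≠ 0) :
    ∃ (A : Subalgebra ℤ κ) (HA : HD A m g), A.FG ∧ HA.Ok ∧ HA.map (algebraMap A κ) = H := by
  classical
  obtain ⟨TF, hTF⟩ := exists_coefs H.F
  obtain ⟨a, ha⟩ := hH.hdvd
  obtain ⟨b, hb⟩ := hH.sdvd
  have hrel := fun l => cert_rel H.F _ (hH.rel l)
  choose Tr hTr using hrel
  obtain ⟨Tc, hTc⟩ := cert_cd hH.cd
  obtain ⟨M, hM⟩ := hH.sm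
  have hfin : Finite {e : Fin m →₀ ℕ // dg e = M} := (S8_fin' m M).to_subtype
  have := Fintype.ofFinite {e : Fin m →₀ ℕ // dg e = M}
  have hsm := fun e : {e : Fin m →₀ ℕ // dg e = M} =>
    cert_jac H.F (C H.Δ * monomial e.1 1) (hM e.1 e.2.ge)
  choose Ts hTs using hsm
  have hfin2 : Finite {e : Fin m →₀ ℕ // tdg e ≤ (m - 1) * H.d} := (S8_fin m ((m - 1) * H.d)).to_subtype
  have := Fintype.ofFinite {e : Fin m →₀ ℕ // tdg e ≤ (m - 1) * H.d}
  -- the finite sets as one family
  obtain ⟨A, hFG, hTF', hTr', hTc', hTs', hcT, hhT, hsT, hQT, hQT', hΔT, hGT, haT, hbT⟩ :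
      ∃ A : Subalgebra ℤ κ, A.FG ∧ (∀ x ∈ TF, x ∈ A) ∧ (∀ l, ∀ x ∈ Tr l, x ∈ A) ∧ (∀ x ∈ Tc, x ∈ A) ∧
        (∀ e, ∀ x ∈ Ts e, x ∈ A) ∧
        (∀ (v : H.V) (e : {e : Fin m →₀ ℕ // tdg e ≤ (m - 1) * H.d}), ∀ x ∈ S8_T (H.c v e.1), x ∈ A) ∧
        (∀ x ∈ S8_T H.h, x ∈ A) ∧ (∀ x ∈ S8_T H.s, x ∈ A) ∧
        (∀ (l : Nx g) (v : H.V), ∀ x ∈ S8_T (H.Q l v), x ∈ A) ∧
        (∀ (v : H.V) (l : Nx g), ∀ x ∈ S8_T (H.Q' v l), x ∈ A) ∧ (∀ x ∈ S8_T H.Δ, x ∈ A) ∧
        (∀ l l' : Nx g, ∀ x ∈ S8_T (H.G l l'), x ∈ A) ∧ (∀ x ∈ S8_T a, x ∈ A) ∧ (∀ x ∈ S8_T b, x ∈ A) := by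
    let T1 : Finset κ := Finset.univ.biUnion Tr
    let T2 : Finset κ := Finset.univ.biUnion Ts
    let T3 : Finset κ := (Finset.univ : Finset (H.V × {e : Fin m →₀ ℕ // tdg e ≤ (m - 1) * H.d})).biUnion
      fun t => S8_T (H.c t.1 t.2.1)
    let T4 : Finset κ := (Finset.univ : Finset (Nx g × H.V)).biUnion fun t => S8_T (H.Q t.1 t.2)
    let T5 : Finset κ := (Finset.univ : Finset (H.V × Nx g)).biUnion fun t => S8_T (H.Q' t.1 t.2)
    let T6 : Finset κ := (Finset.univ : Finset (Nx g × Nx g)).biUnion fun t => S8_T (H.G t.1 t.2)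
    let T : Finset κ := TF ∪ (T1 ∪ (Tc ∪ (T2 ∪ (T3 ∪ (S8_T H.h ∪ (S8_T H.s ∪ (T4 ∪ (T5 ∪ (S8_T H.Δ ∪
      (T6 ∪ (S8_T a ∪ S8_T b)))))))))))
    have hT : ∀ x ∈ T, x ∈ Algebra.adjoin ℤ (T : Set κ) := fun x hx => Algebra.subset_adjoin hx
    have hu : ∀ x, x ∈ T ↔ x ∈ TF ∨ x ∈ T1 ∨ x ∈ Tc ∨ x ∈ T2 ∨ x ∈ T3 ∨ x ∈ S8_T H.h ∨ x ∈ S8_T H.s ∨ x ∈ T4 ∨
        x ∈ T5 ∨ x ∈ S8_T H.Δ ∨ x ∈ T6 ∨ x ∈ S8_T a ∨ x ∈ S8_T b := by
      intro x
      simp only [T, Finset.mem_union]
    refine ⟨Algebra.adjoin ℤ (T : Set κ), Subalgebra.fg_adjoin_finset T, fun x hx => hT x ((hu x).2 ?_),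
      fun l x hx => hT x ((hu x).2 ?_), fun x hx => hT x ((hu x).2 ?_), fun e x hx => hT x ((hu x).2 ?_),
      fun v e x hx => hT x ((hu x).2 ?_), fun x hx => hT x ((hu x).2 ?_), fun x hx => hT x ((hu x).2 ?_),
      fun l v x hx => hT x ((hu x).2 ?_), fun v l x hx => hT x ((hu x).2 ?_), fun x hx => hT x ((hu x).2 ?_),
      fun l l' x hx => hT x ((hu x).2 ?_), fun x hx => hT x ((hu x).2 ?_), fun x hx => hT x ((hu x).2 ?_)⟩
    · exact Or.inl hx
    · exact Or.inr (Or.inl (Finset.mem_biUnion.2 ⟨l, Finset.mem_univ _, hx⟩))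
    · exact Or.inr (Or.inr (Or.inl hx))
    · exact Or.inr (Or.inr (Or.inr (Or.inl (Finset.mem_biUnion.2 ⟨e, Finset.mem_univ _, hx⟩))))
    · exact Or.inr (Or.inr (Or.inr (Or.inr (Or.inl (Finset.mem_biUnion.2 ⟨(v, e), Finset.mem_univ _, hx⟩)))))
    · tauto
    · tauto
    · have : x ∈ T4 := Finset.mem_biUnion.2 ⟨(l, v), Finset.mem_univ _, hx⟩
      tauto
    · have : x ∈ T5 := Finset.mem_biUnion.2 ⟨(v, l), Finset.mem_univ _, hx⟩
      tauto
    · tauto
    · have : x ∈ T6 := Finset.mem_biUnion.2 ⟨(l, l'), Finset.mem_univ _, hx⟩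
      tauto
    · tauto
    · tauto
  -- the lifts
  obtain ⟨F', hF'⟩ := lift_mv A H.F (hTF A hTF')
  have hc0 : ∀ (v : H.V) (e : Fin m →₀ ℕ), ∃ q : Polynomial A, q.map (algebraMap A κ) = H.c v e := by
    intro v e
    by_cases he : tdg e = lvl H.d v.1 * H.d
    · exact S8_lift A _ (hcT v ⟨e, by rw [he]; exact Nat.mul_le_mul_right _ (hH.cd.lv_le v)⟩)
    · exact ⟨0, by rw [Polynomial.map_zero, hH.cd.zero v e he]⟩
  choose c' hc' using hc0
  obtain ⟨h', hh'⟩ := S8_lift A H.h hhT
  obtain ⟨s', hs'⟩ := S8_lift A H.s hsT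
  obtain ⟨Δ', hΔ'⟩ := S8_lift A H.Δ hΔT
  obtain ⟨a', ha'⟩ := S8_lift A a haT
  obtain ⟨b', hb'⟩ := S8_lift A b hbT
  choose Q' hQ' using fun (l : Nx g) (v : H.V) => S8_lift A (H.Q l v) (hQT l v)
  choose R' hR' using fun (v : H.V) (l : Nx g) => S8_lift A (H.Q' v l) (hQT' v l)
  choose G' hG' using fun l l' : Nx g => S8_lift A (H.G l l') (hGT l l')
  have hmap : (⟨H.d, F', H.V, c', h', s', Q', R', Δ', G', H.low⟩ : HD A m g).map (algebraMap A κ) = H :=
    S8_ext H hF' (funext fun v => funext fun e => hc' v e) hh' hs' (funext fun l => funext fun v => hQ' l v)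
      (funext fun v => funext fun l => hR' v l) hΔ' (Matrix.ext fun l l' => hG' l l')
  refine ⟨A, ⟨H.d, F', H.V, c', h', s', Q', R', Δ', G', H.low⟩, hFG, ?_, hmap⟩
  refine S8_ok A _ (by rw [hmap]; exact hH) (by rw [hmap]; exact hΔ) ?_ ?_ ?_ ?_ ?_
  · exact hTc A hTc' F' c' h' hF' hc' hh'
  · intro l
    refine hTr l A (hTr' l) F' _ hF' ?_
    have hP : ∀ l, ((⟨H.d, F', H.V, c', h', s', Q', R', Δ', G', H.low⟩ : HD A m g).P l).map
        (Polynomial.mapRingHom (algebraMap A κ)) = H.P l := by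
      intro l
      rw [← S8_P, hmap]
    have hdX : Polynomial.map (algebraMap A κ) (dX A s') = dX κ H.s := by
      rw [← hs']
      exact (Polynomial.derivative_map s' (algebraMap A κ)).symm
    rw [map_mul, map_sub, map_mul, map_sub, map_mul, map_mul, map_mul, S8_nb, map_sum, hP, hF']
    simp only [map_mul, hP, map_C]
    have e1 : (Polynomial.mapRingHom (algebraMap A κ)) Δ' = H.Δ := hΔ'
    have e2 : (Polynomial.mapRingHom (algebraMap A κ)) s' = H.s := hs'
    have e3 : (Polynomial.mapRingHom (algebraMap A κ)) (dX A s') = dX κ H.s := hdX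
    have e4 : ∀ l l', (Polynomial.mapRingHom (algebraMap A κ)) (G' l l') = H.G l l' := hG'
    rw [e1, e2, e3]
    simp only [e4]
  · refine ⟨a', S8_pinj A ?_⟩
    rw [Polynomial.map_mul, hh', ha', ← ha]
    exact hΔ'
  · refine ⟨b', S8_pinj A ?_⟩
    rw [Polynomial.map_mul, hs', hb', ← hb]
    exact hΔ'
  · refine ⟨M, fun e he => hTs ⟨e, he⟩ A (hTs' ⟨e, he⟩) F' _ hF' ?_⟩
    rw [map_mul, map_C, map_monomial, map_one (Polynomial.mapRingHom (algebraMap A κ))]
    have e1 : (Polynomial.mapRingHom (algebraMap A κ)) Δ' = H.Δ := hΔ'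
    rw [e1]

end MPadcOH
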