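import Pool.Agent.Lib.MP_adc574_ag_OH.R4

/-!
# R7: the determinants at a point

PROOF of `dj_low`. `β = evalRingHom τ`. `H.P (inl b) = C s * monomial (row b) 1` (`H.Ok.inl`, the sum has one term), so `fU (row a) (inl b) = h ^ (p lw a) * s ^ (p - 1) * (s * gf (row a) (monomial (row b) 1))`; apply `β` and `gf_map` (R1):
the matrix in `hdet` is `(h ^ (p lw a) s ^ p)(τ) * gf p d F' V c' (row a) (monomial (row b) 1)`, `F' = H.F.map β`, `c' v e = (H.c v e).eval τ`. By `Matrix.det_mul_column`/`det_mul_row` (factors of the rows) the determinant of the matrix without the factors is not 0 (a zero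
factor would make the determinant 0; or: the factors are not 0). `{a : Fin g // lw a ≤ j} ≃ {v : V // lvl v ≤ j}`, `a ↦ row a` (`low` is a bijection onto the `v` with `2 lvl v < m`; `lvl v ≤ j`, `2 j < m` give `2 lvl v < m`); `Matrix.det_submatrix_equiv_self`.
PROOF of `dj_all`. For `2 j < m` it is `hlow`. Otherwise `i = m - 1 - j` has `2 i ≤ m - 2 < m`, `i + j = m - 1`, and `dj_dual` (OP) with `RegF` from `regF` (R4), `CData` from `H.Ok.cd.map β`, `h(τ) ≠ 0` (`h ∣ Δ`).
-/

set_option autoImplicit false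

namespace MPadcOH

open MvPolynomial MPadcGM MPadcHM MPadcLZ MPadcBK MPadcOA

private theorem R7_P {k : Type} [Field k] {m g : ℕ} (H : HD k m g) (hH : H.Ok) (b : Fin g) :
    H.P (Sum.inl b) = H.s • monomial (H.row b).1 1 := by
  classical
  unfold HD.P
  rw [Finset.sum_eq_single (H.row b)]
  · rw [hH.inl b (H.row b), MvPolynomial.smul_eq_C_mul]
    have h1 : (H.row b) = (H.low b).1 := rfl
    rw [if_pos h1]
  · intro v _ hv
    rw [hH.inl b v, if_neg (fun h => hv (by rw [h]; rfl)), C_0, zero_mul]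
  · intro h
    exact absurd (Finset.mem_univ _) h

private theorem R7_fU {k : Type} [Field k] (p : ℕ) [Fact p.Prime] [CharP k p] {m g : ℕ} (H : HD k m g) (hH : H.Ok)
    (τ : k) (a b : Fin g) : (H.fU p (H.row a) (Sum.inl b)).eval τ =
      ((H.h.eval τ) ^ (p * H.lw a) * (H.s.eval τ) ^ (p - 1) * H.s.eval τ) *
        gf p H.d (H.F.map (Polynomial.evalRingHom τ)) H.V (fun v e => (H.c v e).eval τ) (H.row a)
          (monomial (H.row b).1 1) := by
  have h1 := gf_map p (d := H.d) (F := H.F) (V := H.V) (c := H.c) (Polynomial.evalRingHom τ) (H.row a)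
    (monomial (H.row b).1 1)
  rw [MvPolynomial.map_monomial, map_one] at h1
  have h2 : gf p H.d (H.F.map (Polynomial.evalRingHom τ)) H.V (fun v e => (H.c v e).eval τ) (H.row a)
      (monomial (H.row b).1 1) = (gf p H.d H.F H.V H.c (H.row a) (monomial (H.row b).1 1)).eval τ := h1
  rw [h2]
  unfold HD.fU
  rw [R7_P H hH b, map_smul, smul_eq_mul, Polynomial.eval_mul, Polynomial.eval_mul, Polynomial.eval_mul,
    Polynomial.eval_pow, Polynomial.eval_pow]
  unfold HD.lw
  ring

theorem dj_low {k : Type} [Field k] (p : ℕ) [Fact p.Prime] [CharP k p] {m g : ℕ} (H : HD k m g) (hH : H.Ok)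
    (hp : H.d * m < p) (τ : k) (hτ : H.Δ.eval τ ≠ 0) (j : ℕ) (hj : 2 * j < m)
    (hdet : (Matrix.of fun a b : {a : Fin g // H.lw a ≤ j} => (H.fU p (H.row a.1) (Sum.inl b.1)).eval τ).det ≠ 0) :
    dj p H.d (H.F.map (Polynomial.evalRingHom τ)) H.V (fun v e => (H.c v e).eval τ) j ≠ 0 := by
  classical
  obtain ⟨σ, hσ⟩ : ∃ σ : {a : Fin g // H.lw a ≤ j} ≃ {v : H.V // lvl H.d v.1 ≤ j}, ∀ a, (σ a).1 = H.row a.1 := by
    refine ⟨Equiv.ofBijective (fun a => ⟨H.row a.1, a.2⟩) ⟨?_, ?_⟩, fun a => rfl⟩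
    · intro a b h
      have h1 : H.row a.1 = H.row b.1 := by
        have h2 := Subtype.ext_iff.1 h
        exact h2
      exact Subtype.ext (H.low.injective (Subtype.ext h1))
    · rintro ⟨v, hv⟩
      have h1 : 2 * lvl H.d v.1 < m := by omega
      have h2 : H.row (H.low.symm ⟨v, h1⟩) = v := congrArg Subtype.val (H.low.apply_symm_apply ⟨v, h1⟩)
      refine ⟨⟨H.low.symm ⟨v, h1⟩, ?_⟩, Subtype.ext h2⟩
      unfold HD.lw
      rw [h2]
      exact hv
  unfold dj
  rw [← Matrix.det_submatrix_equiv_self σ]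
  intro h0
  refine hdet ?_
  have h1 : (Matrix.of fun a b : {a : Fin g // H.lw a ≤ j} => (H.fU p (H.row a.1) (Sum.inl b.1)).eval τ) =
      Matrix.of fun a b : {a : Fin g // H.lw a ≤ j} =>
        ((H.h.eval τ) ^ (p * H.lw a.1) * (H.s.eval τ) ^ (p - 1) * H.s.eval τ) *
        (Matrix.of fun a b : {a : Fin g // H.lw a ≤ j} =>
          gf p H.d (H.F.map (Polynomial.evalRingHom τ)) H.V (fun v e => (H.c v e).eval τ) (H.row a.1)
            (monomial (H.row b.1).1 1)) a b := by
    ext a b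
    exact R7_fU p H hH τ a.1 b.1
  rw [h1, Matrix.det_mul_column]
  refine mul_eq_zero_of_right _ ?_
  rw [← h0]
  congr 1
  ext a b
  rw [Matrix.submatrix_apply, Matrix.of_apply, Matrix.of_apply, hσ, hσ]

theorem dj_all {k : Type} [Field k] (p : ℕ) [Fact p.Prime] [CharP k p] {m g : ℕ} (H : HD k m g) (hH : H.Ok)
    (hp : H.d * m < p) (τ : k) (hτ : H.Δ.eval τ ≠ 0)
    (hlow : ∀ j, 2 * j < m → dj p H.d (H.F.map (Polynomial.evalRingHom τ)) H.V (fun v e => (H.c v e).eval τ) j ≠ 0)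
    (j : ℕ) (hj : j ≤ m - 1) :
    dj p H.d (H.F.map (Polynomial.evalRingHom τ)) H.V (fun v e => (H.c v e).eval τ) j ≠ 0 := by
  by_cases h1 : 2 * j < m
  · exact hlow j h1
  · have hm := hH.hm
    have hβ : (Polynomial.evalRingHom τ) H.Δ ≠ 0 := hτ
    have hh : (Polynomial.evalRingHom τ) H.h ≠ 0 := by
      intro h2
      obtain ⟨x, hx⟩ := hH.hdvd
      refine hβ ?_
      rw [hx, map_mul, h2, zero_mul]
    exact dj_dual p hm hH.hd hp (hH.hom.map (Polynomial.evalRingHom τ)) (regF H hH (Polynomial.evalRingHom τ) hβ)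
      (hH.cd.map (Polynomial.evalRingHom τ)) hh (i := m - 1 - j) (j := j) (by omega) (hlow (m - 1 - j) (by omega))

end MPadcOH
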