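import Pool.Agent.Lib.MP_adc574_ag_OH.SD


/-!
# S9: homomorphisms from a finitely generated subring of the ultraproduct

PROOF. `A = Algebra.adjoin ℤ {a_1, .., a_r}` (`Subalgebra.FG`), so there is a surjective `π : MvPolynomial (Fin r) ℤ →ₐ[ℤ] A`, `π (X i) = a i`. For `n` let `π n : MvPolynomial (Fin r) ℤ →+* k n`, `X i ↦ sg (a i) n`. For every `P`: `cl (fun n => π n P) = (π P : LL k)` (ring homomorphisms in `P`; `cl (sg x) = x`: `cl_sg`). The kernel of `π` is finitely generated
(Hilbert: `IsNoetherianRing (MvPolynomial (Fin r) ℤ)`), for each generator `f` `cl (fun n => π n f) = 0`, so `π n f = 0` for almost all `n` (`cl_eq`), hence for almost all `n` `ker π ≤ ker (π n)` and `π n` factors through `A`: `f : A →+* k n` with `f (π P) = π n P` (`RingHom.liftOfSurjective`, or `Ideal.Quotient.lift` and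
`Ideal.quotientKerEquivOfSurjective`). Choose a set-theoretic section `σ : A → MvPolynomial (Fin r) ℤ` of `π` and put `φ n a = π n (σ a)`.
-/

set_option autoImplicit false

namespace MPadcOH

open MPadcGM MPadcOA

private theorem S9_cl {k : ℕ → Type} [∀ n, Field (k n)] {r : ℕ} {A : Subalgebra ℤ (LL k)}
    (π : MvPolynomial (Fin r) ℤ →ₐ[ℤ] A) (ρ : ∀ n, MvPolynomial (Fin r) ℤ →+* k n)
    (h : ∀ n i, ρ n (MvPolynomial.X i) = sg ((π (MvPolynomial.X i) : A) : LL k) n) (P : MvPolynomial (Fin r) ℤ) :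
    cl (fun n => ρ n P) = ((π P : A) : LL k) := by
  have h1 : (ultMk (Filter.hyperfilter ℕ) k).comp (RingHom.pi ρ) = (A.val : A →+* LL k).comp (π : _ →+* A) := by
    refine MvPolynomial.ringHom_ext (fun z => ?_) fun i => ?_
    · exact congrArg (fun f : ℤ →+* LL k => f z) (RingHom.ext_int
        (((ultMk (Filter.hyperfilter ℕ) k).comp (RingHom.pi ρ)).comp MvPolynomial.C)
        (((A.val : A →+* LL k).comp (π : MvPolynomial (Fin r) ℤ →+* A)).comp MvPolynomial.C))
    · have h2 : cl (fun n => ρ n (MvPolynomial.X i)) = ((π (MvPolynomial.X i) : A) : LL k) := by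
        rw [funext fun n => h n i]
        exact cl_sg _
      exact h2
  exact congrArg (fun f : MvPolynomial (Fin r) ℤ →+* LL k => f P) h1

theorem exists_homs {k : ℕ → Type} [∀ n, Field (k n)] (A : Subalgebra ℤ (LL k)) (hA : A.FG) :
    ∃ φ : ∀ n, A → k n, (∀ a : A, cl (fun n => φ n a) = (a : LL k)) ∧ ∀ᶠ n in HF, ∃ f : A →+* k n, ∀ a, f a = φ n a := by
  classical
  obtain ⟨r, π, hπ⟩ := Algebra.FiniteType.iff_quotient_mvPolynomial''.1 ((Subalgebra.fg_iff_finiteType A).1 hA)
  obtain ⟨ρ, hρ⟩ : ∃ ρ : ∀ n, MvPolynomial (Fin r) ℤ →+* k n,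
      ∀ n i, ρ n (MvPolynomial.X i) = sg ((π (MvPolynomial.X i) : A) : LL k) n :=
    ⟨fun n => MvPolynomial.eval₂Hom (Int.castRingHom (k n)) fun i => sg ((π (MvPolynomial.X i) : A) : LL k) n,
      fun n i => MvPolynomial.eval₂Hom_X' _ _ _⟩
  have hcl := S9_cl π ρ hρ
  have hσ : ∀ a : A, π (Function.surjInv hπ a) = a := fun a => Function.surjInv_eq hπ a
  refine ⟨fun n a => ρ n (Function.surjInv hπ a), fun a => ?_, ?_⟩
  · rw [hcl, hσ]
  · obtain ⟨S, hS⟩ := (IsNoetherian.noetherian (RingHom.ker (π : MvPolynomial (Fin r) ℤ →+* A)))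
    have h1 : ∀ᶠ n in HF, ∀ f ∈ S, ρ n f = 0 := by
      rw [Filter.eventually_all_finset]
      intro f hf
      have h2 : f ∈ RingHom.ker (π : MvPolynomial (Fin r) ℤ →+* A) := by
        rw [← hS]
        exact Submodule.subset_span hf
      have h3 : π f = 0 := h2
      have h4 := hcl f
      rw [h3] at h4
      exact (ultMk_eq_zero (Filter.hyperfilter ℕ) k (fun n => ρ n f)).1 h4
    filter_upwards [h1] with n hn
    have h5 : RingHom.ker (π : MvPolynomial (Fin r) ℤ →+* A) ≤ RingHom.ker (ρ n) := by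
      rw [← hS]
      refine Submodule.span_le.2 fun f hf => ?_
      exact hn f hf
    refine ⟨(π : MvPolynomial (Fin r) ℤ →+* A).liftOfRightInverse (Function.surjInv hπ) hσ ⟨ρ n, h5⟩, fun a => ?_⟩
    have h6 := RingHom.liftOfRightInverse_comp_apply (π : MvPolynomial (Fin r) ℤ →+* A) (Function.surjInv hπ) hσ
      ⟨ρ n, h5⟩ (Function.surjInv hπ a)
    have h7 : (π : MvPolynomial (Fin r) ℤ →+* A) (Function.surjInv hπ a) = a := hσ a
    rw [h7] at h6
    exact h6

end MPadcOH
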