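import Pool.Agent.Lib.MP_adc574_ag_OH.R4

/-!
# R5: the rows are linearly independent at every point which is not singular

PROOF. Let `∑ v, λ v * (fU v l).eval α = 0` for all `l`. Put `β = evalRingHom α : k[X] →+* k`, `F' = H.F.map β`, `c' v e = (H.c v e).eval α`; `CData` for `F'` by `H.Ok.cd.map β`, `h' = H.h.eval α ≠ 0`, `s' = H.s.eval α ≠ 0` (`h ∣ Δ`, `s ∣ Δ`).
`(fU v l).eval α = h' ^ (p * lvl v) * s' ^ (p - 1) * gf p d F' V c' v ((H.P l).map β)` (`gf_map`, R1). With `μ v = λ v * h' ^ (p * lvl v) * s' ^ (p - 1)`: the functional `φ = ∑ v, μ v • gf v` (over `k`, for `F'`) vanishes on the `(H.P l).map β` and on `relR d F'` (`gf_rel`),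
so on everything (`spanE`, R4, `L = k`). Choose `k₀`: by `H.Ok.sm` all monomials with `dg e ≥ M` are in `Jac F'`; but `gam_indep` (BK/Gam) needs `M + m ≤ k₀ d` and `k₀ ≤ p` with an `M` which is bounded: by `RegF` (`regF`, R4) and degree reasons all monomials with `dg e > m (d - 2)` are in `Jac F'`
(`MPadcLZ.mem_of_deg` in LZ/RsE.lean, or the field `top` in `pairing`, LZ/Pair.lean, proof), so `M = m (d - 2) + 1`, `k₀ = m`: `m (d - 2) + 1 + m ≤ m d`, `m ≤ p`. For `tdg e = m * d`: `φ (monomial e 1) = (-1) ^ m * ∑ v, μ v * gam .. v m (monomial e 1) = 0` (`gf_mono`).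
So `μ = 0` by `gam_indep` (`J = m - 1 < p`, `hh : h' ≠ 0`), and `λ = 0`.
-/

set_option autoImplicit false

namespace MPadcOH

open MvPolynomial MPadcGM MPadcHM MPadcLZ MPadcBK MPadcOA

private theorem R5_tdg {m : ℕ} (e : Fin m →₀ ℕ) : tdg e = dg e + m := by
  unfold tdg dg
  rw [Finset.sum_add_distrib]
  simp

private theorem R5_mono {K : Type} [Field K] {m : ℕ} (u : Fin m →₀ ℕ) (c : K) :
    Hm (dg u) (monomial u c) := by
  classical
  intro e he
  rw [mem_support_iff, coeff_monomial] at he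
  by_contra hne
  apply he
  rw [if_neg]
  rintro rfl
  exact hne rfl

theorem fU_li {k : Type} [Field k] (p : ℕ) [Fact p.Prime] [CharP k p] {m g : ℕ} (H : HD k m g) (hH : H.Ok)
    (hp : H.d * m < p) (α : k) (hα : H.Δ.eval α ≠ 0) :
    LinearIndependent k fun (v : H.V) (l : Nx g) => (H.fU p v l).eval α := by
  have hm := hH.hm
  have hd := hH.hd
  have hmp : m < p := by
    have h1 : 1 * m ≤ H.d * m := Nat.mul_le_mul_right m (by omega)
    omega
  obtain ⟨β, hβ⟩ : ∃ β : Polynomial k →+* k, β = Polynomial.evalRingHom α := ⟨_, rfl⟩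
  have hβe : ∀ q : Polynomial k, β q = q.eval α := fun q => by rw [hβ]; rfl
  have hβΔ : β H.Δ ≠ 0 := by
    rw [hβe]
    exact hα
  have hβh : β H.h ≠ 0 := by
    obtain ⟨q, hq⟩ := hH.hdvd
    intro h0
    apply hβΔ
    rw [hq, map_mul, h0, zero_mul]
  have hβs : β H.s ≠ 0 := by
    obtain ⟨q, hq⟩ := hH.sdvd
    intro h0
    apply hβΔ
    rw [hq, map_mul, h0, zero_mul]
  have hC := hH.cd.map β
  have hF : (H.F.map β).IsHomogeneous H.d := hH.hom.map β
  have hreg := regF H hH β hβΔ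
  have hJ : m - 1 < p := by omega
  rw [Fintype.linearIndependent_iff]
  intro lam hlam
  obtain ⟨mu, hmu⟩ : ∃ mu : H.V → k, ∀ v, mu v = lam v * ((β H.h) ^ (p * lvl H.d v.1) * (β H.s) ^ (p - 1)) :=
    ⟨_, fun v => rfl⟩
  obtain ⟨Φ, hΦ⟩ : ∃ Φ : MvPolynomial (Fin m) k →ₗ[k] k, Φ = ∑ v : H.V, mu v •
    gf p H.d (H.F.map β) H.V (fun v e => β (H.c v e)) v := ⟨_, rfl⟩
  have hΦa : ∀ P, Φ P = ∑ v : H.V, mu v * gf p H.d (H.F.map β) H.V (fun v e => β (H.c v e)) v P := by
    intro P
    rw [hΦ, LinearMap.sum_apply]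
    rfl
  have h1 : ∀ l, Φ ((H.P l).map β) = 0 := by
    intro l
    have h2 := congrFun hlam l
    rw [Finset.sum_apply, Pi.zero_apply] at h2
    rw [hΦa, ← h2]
    refine Finset.sum_congr rfl fun v _ => ?_
    rw [gf_map, hmu, Pi.smul_apply, smul_eq_mul, ← hβe, HD.fU, map_mul, map_mul, map_pow, map_pow]
    ring
  have h2 : ∀ P ∈ relR H.d (H.F.map β), Φ P = 0 := by
    intro P hP
    rw [hΦa]
    refine Finset.sum_eq_zero fun v _ => ?_
    rw [gf_rel p (by omega) (by omega) hF hJ hC v hP, mul_zero]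
  have h3 : ∀ P, Φ P = 0 := by
    intro P
    obtain ⟨a, ha⟩ := spanE H hH β hβΔ P
    have h4 := h2 _ ha
    rw [map_sub, map_sum] at h4
    have h5 : ∑ l, Φ (C (a l) * (H.P l).map β) = 0 := by
      refine Finset.sum_eq_zero fun l _ => ?_
      rw [← smul_eq_C_mul, map_smul, h1, smul_zero]
    rw [h5, sub_zero] at h4
    exact h4
  have h4 : mu = 0 := by
    refine gam_indep p (by omega : 1 ≤ H.d) hF hC hβh hJ (M := m * (H.d - 2) + 1) (k₀ := m) ?_ (by omega)
      (by omega) ?_ mu ?_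
    · intro e he
      have h5 := mem_of_deg hreg.sop hreg.hom hreg.he (dg e) (monomial e 1) (R5_mono e 1) (by
        have h6 : H.d - 1 - 1 = H.d - 2 := by omega
        rw [h6]
        unfold dg
        omega)
      exact h5
    · obtain ⟨d', hd'⟩ : ∃ d', H.d = d' + 2 := ⟨H.d - 2, by omega⟩
      rw [hd', Nat.add_sub_cancel, Nat.mul_add]
      omega
    · intro e he
      have h5 := h3 (monomial e 1)
      rw [hΦa] at h5
      have h6 : lvl H.d e = m := by
        unfold lvl
        rw [he, Nat.mul_div_cancel _ (by omega)]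
      have h7 : ∀ v : H.V, mu v * gf p H.d (H.F.map β) H.V (fun v e => β (H.c v e)) v (monomial e 1) =
          (-1) ^ m * (mu v * gam p (H.F.map β) (fun v e => β (H.c v e)) (fun v : H.V => lvl H.d v.1) v m (monomial e 1)) := by
        intro v
        rw [gf_mono, if_pos (by rw [he]; exact Dvd.intro_left m rfl), h6]
        ring
      rw [Finset.sum_congr rfl fun v _ => h7 v, ← Finset.mul_sum] at h5
      rcases mul_eq_zero.1 h5 with h8 | h8
      · exact absurd h8 (pow_ne_zero m (neg_ne_zero.2 one_ne_zero))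
      · exact h8
  intro v
  have h5 := congrFun h4 v
  rw [hmu, Pi.zero_apply] at h5
  exact (mul_eq_zero.1 h5).resolve_right (mul_ne_zero (pow_ne_zero _ hβh) (pow_ne_zero _ hβs))

end MPadcOH
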