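import Pool.Agent.Lib.MP_adc574_ag_OH.R3
import Pool.Agent.Lib.MP_adc574_ag_OH.R4
import Pool.Agent.Lib.MP_adc574_ag_OH.R5
import Pool.Agent.Lib.MP_adc574_ag_IP.FL

/-!
# T1: the system with frame of a family in characteristic `p`

PROOF. `ne`, `degD`, `degG`: hypotheses. `symp`: `hH.symp`. `horU`: `fU_der` (R3) for `v = row i`; the sum over `v' : H.V` of `fn v v' * fU v' l` has only terms with `lvl v' + 1 = lvl v`, then `2 lvl v' < m` since `2 lvl v < m` (`(low i).2`), so `v' = row i'` for a unique `i'` (`low` is a bijection): the sum over `V` is the sum over the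
subtype `{v // 2 lvl v < m}` (`Finset.sum_subtype`, the other terms are 0) and over `Fin g` by `Equiv.sum_comp`. `nuT`: `fn` is 0 unless `lw b + 1 = lw a`. `isoU`: the entry `i, i'` of `U * JJ * Uᵀ` is `∑ l', (∑ l, U i l * JJ l l') * U i' l'` = the sum in `fU_iso` (R4), `lvl + lvl ≤ m - 1` since `2 lvl < m` for both. `rkU`: `fU_li` (R5) composed with the
injective map `row` (`LinearIndependent.comp`).
-/

set_option autoImplicit false

namespace MPadcOH

open MvPolynomial MPadcGM MPadcHM MPadcLZ MPadcBK MPadcOA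

/-- The system with frame. -/
noncomputable def HD.fr {k : Type} [Field k] (p : ℕ) [Fact p.Prime] [CharP k p] {m g : ℕ} (H : HD k m g) :
    MPadcIP.FrL g k where
  Δ := H.Δ
  G := H.G
  U := fun i l => H.fU p (H.row i) l
  nu := fun i i' => H.fn p (H.row i) (H.row i')

private theorem T1_inj {R : Type} [CommRing R] {m g : ℕ} (H : HD R m g) : Function.Injective H.row :=
  fun _ _ h => H.low.injective (Subtype.ext h)

private theorem T1_rng {R : Type} [CommRing R] {m g : ℕ} (H : HD R m g) (v : H.V) (hv : 2 * lvl H.d v.1 < m) :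
    v ∈ Set.range H.row := by
  refine ⟨H.low.symm ⟨v, hv⟩, ?_⟩
  unfold HD.row
  rw [Equiv.apply_symm_apply]

theorem fr_ok {k : Type} [Field k] (p : ℕ) [Fact p.Prime] [CharP k p] {m g : ℕ} (H : HD k m g) (hH : H.Ok) (hΔ : H.Δ ≠ 0)
    (hp : H.d * m < p) (c : ℕ) (h1 : H.Δ.natDegree ≤ c) (h2 : ∀ i j, (H.G i j).natDegree ≤ c) : (H.fr p).Ok H.lw c := by
  refine
    { ne := hΔ
      degD := h1
      degG := h2
      symp := hH.symp
      horU := fun i l => ?_
      nuT := fun a b hab => ?_
      isoU := ?_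
      rkU := fun α hα => ?_ }
  · have h3 := fU_der p H hH hΔ hp (H.row i) l
    show H.Δ * Polynomial.derivative (H.fU p (H.row i) l) = _
    rw [h3, Matrix.mul_apply, Matrix.mul_apply]
    congr 1
    refine (Fintype.sum_of_injective H.row (T1_inj H) _ _ (fun v' hv' => ?_) fun i' => rfl).symm
    have h4 : H.fn p (H.row i) v' = 0 := by
      unfold HD.fn
      refine if_neg fun h5 => hv' (T1_rng H v' ?_)
      have h6 := (H.low i).2
      have h7 : lvl H.d (H.row i).1 = lvl H.d (H.low i).1.1 := rfl
      omega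
    rw [h4, zero_mul]
  · show H.fn p (H.row a) (H.row b) = 0
    unfold HD.fn
    refine if_neg fun h5 => hab ?_
    show lvl H.d (H.row b).1 < lvl H.d (H.row a).1
    omega
  · refine Matrix.ext fun i i' => ?_
    have h3 : lvl H.d (H.row i).1 + lvl H.d (H.row i').1 ≤ m - 1 := by
      have h6 := (H.low i).2
      have h7 : lvl H.d (H.row i).1 = lvl H.d (H.low i).1.1 := rfl
      have h8 := (H.low i').2
      have h9 : lvl H.d (H.row i').1 = lvl H.d (H.low i').1.1 := rfl
      omega
    have h4 := fU_iso p H hH hΔ hp (H.row i) (H.row i') h3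
    rw [Matrix.mul_apply, Matrix.zero_apply, ← h4, Finset.sum_comm]
    refine Finset.sum_congr rfl fun l' _ => ?_
    rw [Matrix.mul_apply, Finset.sum_mul]
    rfl
  · exact (fU_li p H hH hp α hα).comp H.row (T1_inj H)

end MPadcOH
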