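import Pool.Agent.Lib.MP_adc574_ag_OH.R6
import Pool.Agent.Lib.MP_adc574_ag_OH.R7
import Pool.Agent.Lib.MP_adc574_ag_OH.S7
import Pool.Agent.Lib.MP_adc574_ag_OH.S8
import Pool.Agent.Lib.MP_adc574_ag_OH.S9
import Pool.Agent.Lib.MP_adc574_ag_OH.S1
import Pool.Agent.Lib.MP_adc574_ag_OH.T1

/-!
# T2: the family data of a sequence of Morse pencils

PROOF. `κ = LL k` is algebraically closed (`MPadcPC.closed_LL`, PC/N3.lean) and of characteristic 0 (`charZero_LL p hp`, see PC/N2.lean). `Gu = ultP d G` is homogeneous and Morse (S1). `exists_HD` (S7): `g`, `H`, `hOk`, `H.F = pen i₀ d Gu`, `H.Δ ≠ 0`, `Big`. `spread_HD` (S8): `A`, `HA`; `exists_homs` (S9): `φ`. Put `Hn n = HA.map f` for the `n` for which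
there is a ring homomorphism `f : A →+* k n` with `f a = φ n a` (choose it), so `(Hn n).Ok` (`ok_map`, S8); `Hn n` is only used for these `n` (almost all). For these `n`: `Δ`: `rp H.Δ n = (Hn n).Δ` for almost all `n`: coefficientwise (`rp_of_coeff`, see `rp_map` in PC/N3.lean): the coefficient `j` of `H.Δ = HA.Δ.map _` is `(a : LL k) = cl (φ n a)`, `a = HA.Δ.coeff j`. Same for
the entries of `G` (`mr`, finitely many: `Filter.eventually_all`), and for the coefficients of `F`: `HA.F.map (mapRingHom f)` against `pen i₀ d (G n)`: for the finitely many exponents `e` (in the support of `HA.F` or in `exps m d`, all others have coefficient 0 on both sides: `IsHomogeneous`) `(coeff e (HA.F)).coeff j = a` with `(a : LL k) = (coeff e (pen i₀ d Gu)).coeff j`, and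
this is `cl (fun n => (coeff e (pen i₀ d (G n))).coeff j)` (`coeff_ultP`, S1; `pen` = `G.map C - C X * X i₀ ^ d`), so `φ n a = (coeff e (pen i₀ d (G n))).coeff j` for almost all `n` (`cl_eq`). `(Hn n).Δ ≠ 0` for almost all `n` (`rp_ne_zero`). Degrees: `natDegree_map_le`; `fU_deg` (R6) for `HA`.
-/

set_option autoImplicit false

namespace MPadcOH

open MvPolynomial MPadcGM MPadcHM MPadcLZ MPadcBK MPadcOA

private theorem T2_exps {m d : ℕ} (e : Fin m →₀ ℕ) (h : ∀ i, e i ≤ d) : e ∈ exps m d := by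
  classical
  unfold exps
  rw [Finset.mem_image]
  refine ⟨fun i => ⟨e i, Nat.lt_succ_of_le (h i)⟩, Finset.mem_univ _, ?_⟩
  ext i
  rfl

private theorem T2_hom {R : Type} [CommRing R] {m d : ℕ} {G : MvPolynomial (Fin m) R} (hG : G.IsHomogeneous d)
    {e : Fin m →₀ ℕ} (he : e ∉ exps m d) : coeff e G = 0 := by
  by_contra h
  apply he
  refine T2_exps e fun i => ?_
  have h1 : e.degree = d := by
    rw [Finsupp.degree_eq_weight_one]
    exact hG h
  rw [← h1]
  exact Finsupp.le_degree i e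

private theorem T2_pen_map {R S : Type} [CommRing R] [CommRing S] {m : ℕ} (i₀ : Fin m) (d : ℕ)
    (G : MvPolynomial (Fin m) R) (f : R →+* S) :
    (pen i₀ d G).map (Polynomial.mapRingHom f) = pen i₀ d (G.map f) := by
  have e : (Polynomial.mapRingHom f).comp Polynomial.C = (Polynomial.C : S →+* Polynomial S).comp f :=
    RingHom.ext fun x => by simp
  unfold pen
  rw [map_sub, map_mul, map_pow, map_X, map_C, MvPolynomial.map_map, MvPolynomial.map_map,
    Polynomial.coe_mapRingHom, Polynomial.map_X, e]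

private theorem T2_pen_zero {R : Type} [CommRing R] {m d : ℕ} (i₀ : Fin m) (G : MvPolynomial (Fin m) R) :
    (pen i₀ d G).map (Polynomial.evalRingHom (0 : R)) = G := by
  unfold pen
  rw [map_sub, map_mul, map_pow, map_X, map_C, MvPolynomial.map_map, Polynomial.coe_evalRingHom, Polynomial.eval_X,
    C_0, zero_mul, sub_zero]
  have h : (Polynomial.evalRingHom (0 : R)).comp (Polynomial.C : R →+* Polynomial R) = RingHom.id R := by
    ext x
    simp
  rw [h, MvPolynomial.map_id]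

/-- The equation of the lifted family is a pencil. -/
private theorem T2_lift {κ : Type} [Field κ] {m d : ℕ} (i₀ : Fin m) (A : Subalgebra ℤ κ)
    (F : MvPolynomial (Fin m) (Polynomial A)) (G : MvPolynomial (Fin m) κ)
    (h : F.map (Polynomial.mapRingHom (algebraMap A κ)) = pen i₀ d G) :
    ∃ GA : MvPolynomial (Fin m) A, GA.map (algebraMap A κ) = G ∧ F = pen i₀ d GA := by
  have e : (Polynomial.evalRingHom (0 : κ)).comp (Polynomial.mapRingHom (algebraMap A κ)) =
      (algebraMap A κ).comp (Polynomial.evalRingHom (0 : A)) := by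
    refine Polynomial.ringHom_ext (fun x => ?_) ?_
    · simp
    · simp
  have h1 := congrArg (MvPolynomial.map (Polynomial.evalRingHom (0 : κ))) h
  rw [T2_pen_zero, MvPolynomial.map_map, e, ← MvPolynomial.map_map] at h1
  refine ⟨F.map (Polynomial.evalRingHom (0 : A)), h1, ?_⟩
  apply map_mv_inj A
  rw [T2_pen_map, h, h1]

/-- Some family, in order to have data for all places. -/
private noncomputable def T2_def {R S : Type} [CommRing R] [CommRing S] {m g : ℕ} (H : HD R m g) : HD S m g where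
  d := H.d
  F := 0
  V := H.V
  c := fun _ _ => 0
  h := 0
  s := 0
  Q := fun _ _ => 0
  Q' := fun _ _ => 0
  Δ := 0
  G := 0
  low := H.low

private theorem T2_seq {A : Type} [CommRing A] {k : ℕ → Type} [∀ n, Field (k n)] {m g : ℕ} (HA : HD A m g)
    (φ : ∀ n, A → k n) : ∃ Hn : ∀ n, HD (k n) m g, ∀ n, ∀ f : A →+* k n, (∀ a, f a = φ n a) → Hn n = HA.map f := by
  have h : ∀ n, ∃ Hn : HD (k n) m g, ∀ f : A →+* k n, (∀ a, f a = φ n a) → Hn = HA.map f := by
    intro n
    by_cases h : ∃ f : A →+* k n, ∀ a, f a = φ n a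
    · obtain ⟨f, hf⟩ := h
      refine ⟨HA.map f, fun f' hf' => ?_⟩
      have e : f = f' := RingHom.ext fun a => (hf a).trans (hf' a).symm
      rw [e]
    · exact ⟨T2_def HA, fun f hf => absurd ⟨f, hf⟩ h⟩
  choose Hn hHn using h
  exact ⟨Hn, hHn⟩

private theorem T2_lw {A B : Type} [CommRing A] [CommRing B] {m g : ℕ} (H : HD A m g) (f : A →+* B) :
    (H.map f).lw = H.lw := rfl

theorem exists_seq {m d : ℕ} (hm : 3 ≤ m) (ho : Odd m) (hd : 3 ≤ d) (i₀ : Fin m) (k : ℕ → Type) [∀ n, Field (k n)]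
    [∀ n, IsAlgClosed (k n)] (p : ℕ → ℕ) [∀ n, Fact (p n).Prime] [∀ n, CharP (k n) (p n)] (hp : ∀ n, n ≤ p n)
    (G : ∀ n, MvPolynomial (Fin m) (k n)) (hG : ∀ n, (G n).IsHomogeneous d) (hM : ∀ n, MorseOver i₀ d (G n)) :
    ∃ (g : ℕ) (lw : Fin g → ℕ) (Hn : ∀ n, HD (k n) m g) (Δu : Polynomial (LL k)) (Gm : Matrix (Nx g) (Nx g) (Polynomial (LL k)))
      (c C₀ : ℕ), 0 < g ∧ MPadcPC.Big Δu Gm ∧ ∀ᶠ n in HF, (Hn n).Ok ∧ (Hn n).d = d ∧ (Hn n).lw = lw ∧
        (Hn n).F = pen i₀ d (G n) ∧ (Hn n).Δ ≠ 0 ∧ rp Δu n = (Hn n).Δ ∧ mr Gm n = (Hn n).G ∧ (Hn n).Δ.natDegree ≤ c ∧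
          (∀ i j, ((Hn n).G i j).natDegree ≤ c) ∧ ∀ v l, ((Hn n).fU (p n) v l).natDegree ≤ C₀ * p n := by
  have hcl : IsAlgClosed (LL k) := MPadcPC.closed_LL
  have hcz : CharZero (LL k) := charZero_LL p hp
  obtain ⟨g, H, hOk, hdH, hFH, hΔH, hBig⟩ := exists_HD hm ho hd i₀ (ultP d G) (hom_ultP G hG) (morse_ult i₀ G hG hM)
  obtain ⟨A, HA, hfg, hHA, hmap⟩ := spread_HD H hOk hΔH
  obtain ⟨φ, hφ, hφ'⟩ := exists_homs A hfg
  obtain ⟨Hn, hHn⟩ := T2_seq HA φ
  obtain ⟨C₀, hC₀⟩ := fU_deg HA hHA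
  have hF : HA.F.map (Polynomial.mapRingHom (algebraMap A (LL k))) = pen i₀ d (ultP d G) :=
    (congrArg HD.F hmap).trans hFH
  obtain ⟨GA, hGA, hFA⟩ := T2_lift i₀ A HA.F (ultP d G) hF
  -- the form at almost all places
  have hGn : ∀ᶠ n in HF, ∀ e ∈ exps m d, φ n (coeff e GA) = coeff e (G n) := by
    refine (Filter.eventually_all_finset _).2 fun e _ => ?_
    rw [← cl_eq (x := fun n => φ n (coeff e GA)) (y := fun n => coeff e (G n)), hφ, ← coeff_ultP G hG e, ← hGA,
      coeff_map]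
    rfl
  have hGA0 : ∀ e, e ∉ exps m d → coeff e GA = 0 := by
    intro e he
    have h1 := T2_hom (hom_ultP G hG) he
    rw [← hGA, coeff_map] at h1
    exact Subtype.ext h1
  -- polynomials at almost all places
  have hpol : ∀ (P : Polynomial A) (Q : Polynomial (LL k)), P.map (algebraMap A (LL k)) = Q →
      ∀ᶠ n in HF, ∀ f : A →+* k n, (∀ a, f a = φ n a) → rp Q n = P.map f := by
    intro P Q hPQ
    have h1 : ∀ n, ∃ q : Polynomial (k n), q.natDegree ≤ P.natDegree ∧
        ∀ f : A →+* k n, (∀ a, f a = φ n a) → q = P.map f := by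
      intro n
      by_cases h : ∃ f : A →+* k n, ∀ a, f a = φ n a
      · obtain ⟨f, hf⟩ := h
        refine ⟨P.map f, Polynomial.natDegree_map_le, fun f' hf' => ?_⟩
        have e : f = f' := RingHom.ext fun a => (hf a).trans (hf' a).symm
        rw [e]
      · exact ⟨0, by simp, fun f hf => absurd ⟨f, hf⟩ h⟩
    choose q hq1 hq2 using h1
    have h2 := rp_of_coeff Q q P.natDegree (Filter.Eventually.of_forall hq1) (by
      intro j
      have h3 : Q.coeff j = cl fun n => φ n (P.coeff j) := by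
        rw [hφ, ← hPQ, Polynomial.coeff_map]
        rfl
      rw [h3, cl_eq]
      filter_upwards [hφ'] with n hn
      obtain ⟨f, hf⟩ := hn
      rw [hq2 n f hf, Polynomial.coeff_map, hf])
    filter_upwards [h2] with n hn f hf
    rw [hn]
    exact hq2 n f hf
  have hΔn := hpol HA.Δ H.Δ (congrArg HD.Δ hmap)
  have hGm : ∀ᶠ n in HF, ∀ i j, ∀ f : A →+* k n, (∀ a, f a = φ n a) → rp (H.G i j) n = (HA.G i j).map f :=
    Filter.eventually_all.2 fun i => Filter.eventually_all.2 fun j =>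
      hpol (HA.G i j) (H.G i j) (congrFun (congrFun (congrArg HD.G hmap) i) j)
  refine ⟨g, HA.lw, Hn, H.Δ, H.G, HA.Δ.natDegree + ∑ i, ∑ j, (HA.G i j).natDegree, C₀, hOk.hg, hBig, ?_⟩
  filter_upwards [hφ', hGn, hΔn, hGm, rp_ne_zero hΔH] with n h1 h2 h3 h4 h5
  obtain ⟨f, hf⟩ := h1
  rw [hHn n f hf]
  refine ⟨ok_map hHA f, (congrArg HD.d hmap).trans hdH, T2_lw HA f, ?_, ?_, h3 f hf, ?_, ?_, ?_, ?_⟩
  · show HA.F.map (Polynomial.mapRingHom f) = pen i₀ d (G n)
    rw [hFA, T2_pen_map]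
    congr 1
    ext e
    rw [coeff_map, hf]
    by_cases he : e ∈ exps m d
    · exact h2 e he
    · rw [T2_hom (hG n) he, hGA0 e he, ← hf, map_zero]
  · intro h6
    apply h5
    rw [h3 f hf]
    exact h6
  · funext i j
    exact h4 i j f hf
  · exact (Polynomial.natDegree_map_le (p := HA.Δ) (f := f)).trans (Nat.le_add_right _ _)
  · intro i j
    refine (Polynomial.natDegree_map_le (p := HA.G i j) (f := f)).trans ?_
    refine le_trans ?_ (Nat.le_add_left _ _)
    refine le_trans ?_ (Finset.single_le_sum (f := fun i => ∑ j, (HA.G i j).natDegree)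
      (fun _ _ => Nat.zero_le _) (Finset.mem_univ i))
    exact Finset.single_le_sum (f := fun j => (HA.G i j).natDegree) (fun _ _ => Nat.zero_le _) (Finset.mem_univ j)
  · exact fun v l => hC₀ (k n) (p n) f v l

end MPadcOH
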