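import Pool.Agent.Lib.MP_adc574_ag_OH.T2
import Pool.Agent.Lib.MP_adc574_ag_IP.Q22

/-!
# T3: the exceptional points of a sequence of Morse pencils

PROOF. `exists_seq` (T2). Put `D n = (Hn n).fr (p n)` if the properties of `exists_seq` hold for `n` and `d * m < p n` (almost all `n`: `n ≤ p n`, and `{n | d * m < n}` is in `HF`, see `ev_large` or `Filter.eventually_gt_atTop` with `HF ≤ cofinite`), and the trivial system `Δ = 1`, `G = 0`, `U = (1 | 0)` (`U i (inl j) = δ i j`, `U i (inr j) = 0`), `nu = 0` otherwise: it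
satisfies `FrL.Ok lw c` for every `c` (`isoU`: `(1 | 0) JJ (1 | 0)ᵀ = 0`). So `hok` holds for all `n` (`fr_ok`, T1, degrees from `exists_seq`). `hBig`: `rp Δ' n = (D n).Δ = (Hn n).Δ = rp Δu n` for almost all `n`, so `Δ' = Δu` (`rp_ext`), `G' = Gm` (`mr_ext`, see `nv_fam` in PC/N3.lean), and `Big Δu Gm`. `MPadcIP.countU_seq` with `col b = Sum.inl b.1` (injective) for every `j₀` with `2 j₀ < m`,
`ε' = ε / (2 * (m + 1))`; intersect these finitely many `∀ᶠ` (`Filter.eventually_all_finset`), and the `n` with `c ≤ (ε / 2) * p n`. For such `n`: let `Z` be given. Every `τ ∈ Z` has `Δ(τ) = 0` (at most `natDegree Δ ≤ c ≤ (ε / 2) p ^ r` such `τ`, `card_roots`), or for some `j₀` with `2 j₀ < m` the determinant of `(fU (row a) (inl b))(τ)` is 0: otherwise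
`dj_low`, `dj_all` (R7) give `dj .. j ≠ 0` for all `j ≤ m - 1` for `F' = (Hn n).F.map (evalRingHom τ) = G n - C τ * X i₀ ^ d` (`pen`, `map_map`: `(evalRingHom τ).comp C = id`), `CData` by `hOk.cd.map (evalRingHom τ)`, `h(τ) ≠ 0` as `h ∣ Δ`, `Smooth F'` from `hOk.sm` (`X i ^ M = monomial (single i M) 1`, divide by `Δ(τ)`): so `Gd`. So `Z` is contained in the union of
the zeros of `Δ` and of the at most `m` sets of `countU_seq` (with `γ = 0`), `#Z ≤ (ε / 2 + m ε') p ^ r ≤ ε p ^ r`.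
-/

set_option autoImplicit false

namespace MPadcOH

open MvPolynomial MPadcGM MPadcHM MPadcLZ MPadcBK MPadcOA

private theorem T3_triv (g : ℕ) (lv : Fin g → ℕ) (c : ℕ) (k : Type) [Field k] :
    ∃ D : MPadcIP.FrL g k, D.Ok lv c ∧ ∀ i l, (D.U i l).natDegree ≤ 0 := by
  obtain ⟨U, hU⟩ : ∃ U : Matrix (Fin g) (Nx g) (Polynomial k), U = Matrix.fromCols 1 0 := ⟨_, rfl⟩
  have hl : ∀ i j, U i (Sum.inl j) = if i = j then 1 else 0 := by
    intro i j
    rw [hU]
    rfl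
  have hr : ∀ i j, U i (Sum.inr j) = 0 := by
    intro i j
    rw [hU]
    rfl
  have hder : ∀ i l, Polynomial.derivative (U i l) = 0 := by
    intro i l
    cases l with
    | inl j =>
      rw [hl]
      split_ifs
      · exact Polynomial.derivative_one
      · exact Polynomial.derivative_zero
    | inr j =>
      rw [hr]
      exact Polynomial.derivative_zero
  have hdeg : ∀ i l, (U i l).natDegree ≤ 0 := by
    intro i l
    cases l with
    | inl j =>
      rw [hl]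
      split_ifs
      · exact Polynomial.natDegree_one.le
      · exact Polynomial.natDegree_zero.le
    | inr j =>
      rw [hr]
      exact Polynomial.natDegree_zero.le
  refine ⟨⟨1, 0, U, 0⟩, ⟨one_ne_zero, ?_, ?_, ?_, ?_, ?_, ?_, ?_⟩, hdeg⟩
  · show (1 : Polynomial k).natDegree ≤ c
    rw [Polynomial.natDegree_one]
    exact Nat.zero_le _
  · intro i j
    show (0 : Polynomial k).natDegree ≤ c
    rw [Polynomial.natDegree_zero]
    exact Nat.zero_le _
  · show (0 : Matrix (Nx g) (Nx g) (Polynomial k)) * JJ g (Polynomial k) +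
      JJ g (Polynomial k) * (0 : Matrix (Nx g) (Nx g) (Polynomial k)).transpose = 0
    rw [Matrix.transpose_zero, Matrix.zero_mul, Matrix.mul_zero, add_zero]
  · intro i l
    show (1 : Polynomial k) * Polynomial.derivative (U i l) = (U * (0 : Matrix (Nx g) (Nx g) (Polynomial k))) i l +
      ((0 : Matrix (Fin g) (Fin g) (Polynomial k)) * U) i l
    rw [hder, Matrix.mul_zero, Matrix.zero_mul, Matrix.zero_apply, mul_zero, add_zero]
  · intro a b _
    rfl
  · show U * JJ g (Polynomial k) * U.transpose = 0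
    unfold JJ
    rw [hU, Matrix.fromCols_mul_fromBlocks, Matrix.transpose_fromCols, Matrix.fromCols_mul_fromRows]
    simp
  · intro α _
    show LinearIndependent k fun i l => (U i l).eval α
    rw [Fintype.linearIndependent_iff]
    intro f hf j
    have h1 := congrFun hf (Sum.inl j)
    rw [Finset.sum_apply, Finset.sum_eq_single j] at h1
    · have h2 : f j * (U j (Sum.inl j)).eval α = 0 := h1
      rw [hl, if_pos rfl, Polynomial.eval_one, mul_one] at h2
      exact h2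
    · intro i _ hij
      show f i * (U i (Sum.inl j)).eval α = 0
      rw [hl, if_neg hij, Polynomial.eval_zero, mul_zero]
    · intro h
      exact absurd (Finset.mem_univ j) h

private theorem T3_gd {k : Type} [Field k] (p : ℕ) [Fact p.Prime] [CharP k p] {m g d : ℕ} (i₀ : Fin m) (H : HD k m g)
    (hH : H.Ok) {lw : Fin g → ℕ} (hlw : H.lw = lw) (G : MvPolynomial (Fin m) k) (hF : H.F = pen i₀ d G) (hd : H.d = d)
    (hp : d * m < p) (τ : k) (hτ : H.Δ.eval τ ≠ 0)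
    (hdet : ∀ j, 2 * j < m → (Matrix.of fun a b : {a : Fin g // lw a ≤ j} =>
      (H.fU p (H.row a.1) (Sum.inl b.1)).eval τ).det ≠ 0) : Gd p d (G - C τ * X i₀ ^ d) := by
  subst hlw
  subst hd
  have hF' : H.F.map (Polynomial.evalRingHom τ) = G - C τ * X i₀ ^ H.d := by
    rw [hF]
    unfold pen
    rw [map_sub, map_mul, map_pow, MvPolynomial.map_X, MvPolynomial.map_C, MvPolynomial.map_map]
    have h1 : (Polynomial.evalRingHom τ).comp Polynomial.C = RingHom.id k := by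
      ext x
      simp
    rw [h1, MvPolynomial.map_id]
    simp
  rw [← hF']
  have hh : H.h.eval τ ≠ 0 := by
    obtain ⟨q, hq⟩ := hH.hdvd
    intro h0
    apply hτ
    rw [hq, Polynomial.eval_mul, h0, zero_mul]
  refine ⟨H.V, fun v e => (H.c v e).eval τ, H.h.eval τ, hh, ?_, ?_, ?_⟩
  · exact hH.cd.map (Polynomial.evalRingHom τ)
  · intro i
    obtain ⟨M, hM⟩ := hH.sm
    refine ⟨M, ?_⟩
    have hdg : M ≤ dg (Finsupp.single i M) := by
      unfold dg
      have h0 := Finset.single_le_sum (f := fun j => (Finsupp.single i M : Fin m →₀ ℕ) j)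
        (fun j _ => Nat.zero_le _) (Finset.mem_univ i)
      have h1 : (Finsupp.single i M : Fin m →₀ ℕ) i = M := Finsupp.single_eq_same
      calc M = (Finsupp.single i M : Fin m →₀ ℕ) i := h1.symm
        _ ≤ _ := h0
    have h2 := Ideal.mem_map_of_mem (MvPolynomial.map (Polynomial.evalRingHom τ)) (hM (Finsupp.single i M) hdg)
    unfold Jac at h2
    rw [Ideal.map_span, ← Set.range_comp] at h2
    have h3 : ((MvPolynomial.map (Polynomial.evalRingHom τ)) ∘ fun j => pderiv j H.F) =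
        fun j => pderiv j (MvPolynomial.map (Polynomial.evalRingHom τ) H.F) := by
      funext j
      rw [MvPolynomial.pderiv_map]
      rfl
    rw [h3, map_mul, MvPolynomial.map_C, MvPolynomial.map_monomial, map_one] at h2
    have h4 := Ideal.mul_mem_left _ (C (H.Δ.eval τ)⁻¹) h2
    rw [← mul_assoc, ← C_mul] at h4
    have h5 : (H.Δ.eval τ)⁻¹ * (Polynomial.evalRingHom τ) H.Δ = 1 := inv_mul_cancel₀ hτ
    rw [h5, C_1, one_mul] at h4
    rw [MvPolynomial.X_pow_eq_monomial]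
    exact h4
  · intro j _ hj
    refine dj_all p H hH hp τ hτ (fun j hj => ?_) j hj
    exact dj_low p H hH hp τ hτ j hj (hdet j hj)

theorem seq_bad {m d : ℕ} (hm : 3 ≤ m) (ho : Odd m) (hd : 3 ≤ d) (i₀ : Fin m) (k : ℕ → Type) [∀ n, Field (k n)]
    [∀ n, IsAlgClosed (k n)] (p : ℕ → ℕ) [∀ n, Fact (p n).Prime] [∀ n, CharP (k n) (p n)] (hp : ∀ n, n ≤ p n)
    (G : ∀ n, MvPolynomial (Fin m) (k n)) (hG : ∀ n, (G n).IsHomogeneous d) (hM : ∀ n, MorseOver i₀ d (G n))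
    (ε : ℝ) (hε : 0 < ε) : ∀ᶠ n in HF, ∀ r : ℕ, 0 < r → ∀ Z : Finset (k n),
      (∀ τ ∈ Z, τ ^ p n ^ r = τ ∧ ¬ Gd (p n) d (G n - C τ * X i₀ ^ d)) → (Z.card : ℝ) ≤ ε * (p n : ℝ) ^ r := by
  classical
  obtain ⟨g, lw, Hn, Δu, Gm, c, C₀, hg, hBig, hev⟩ := exists_seq hm ho hd i₀ k p hp G hG hM
  have hpr : ∀ n, (p n).Prime := fun n => Fact.out
  have hex : ∀ n, ∃ D : MPadcIP.FrL g (k n), (D.Ok lw c ∧ ∀ i l, (D.U i l).natDegree ≤ C₀ * p n) ∧
      (((Hn n).Ok ∧ (Hn n).d = d ∧ (Hn n).lw = lw ∧ (Hn n).Δ ≠ 0 ∧ (Hn n).Δ.natDegree ≤ c ∧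
        (∀ i j, ((Hn n).G i j).natDegree ≤ c) ∧ (∀ v l, ((Hn n).fU (p n) v l).natDegree ≤ C₀ * p n) ∧ d * m < p n) →
        D = (Hn n).fr (p n)) := by
    intro n
    by_cases h : ((Hn n).Ok ∧ (Hn n).d = d ∧ (Hn n).lw = lw ∧ (Hn n).Δ ≠ 0 ∧ (Hn n).Δ.natDegree ≤ c ∧
        (∀ i j, ((Hn n).G i j).natDegree ≤ c) ∧ (∀ v l, ((Hn n).fU (p n) v l).natDegree ≤ C₀ * p n) ∧ d * m < p n)
    · obtain ⟨h1, h2, h3, h4, h5, h6, h7, h8⟩ := h
      refine ⟨(Hn n).fr (p n), ⟨?_, fun i l => h7 _ _⟩, fun _ => rfl⟩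
      have h9 := fr_ok (p n) (Hn n) h1 h4 (by rw [h2]; exact h8) c h5 h6
      rw [h3] at h9
      exact h9
    · obtain ⟨D, hD1, hD2⟩ := T3_triv g lw c (k n)
      exact ⟨D, ⟨hD1, fun i l => (hD2 i l).trans (Nat.zero_le _)⟩, fun h' => absurd h' h⟩
  choose D hD1 hD2 using hex
  have hevD : ∀ᶠ n in HF, D n = (Hn n).fr (p n) := by
    filter_upwards [hev, ev_large p hp (d * m)] with n hn hn'
    obtain ⟨h1, h2, h3, h4, h5, h6, h7, h8, h9, h10⟩ := hn
    exact hD2 n ⟨h1, h2, h3, h5, h8, h9, h10, hn'⟩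
  have hBig' : ∀ (Δ' : Polynomial (LL k)) (G' : Matrix (Nx g) (Nx g) (Polynomial (LL k))),
      (∀ᶠ n in HF, rp Δ' n = (D n).Δ) → (∀ᶠ n in HF, mr G' n = (D n).G) → MPadcPC.Big Δ' G' := by
    intro Δ' G' h1 h2
    have e1 : Δ' = Δu := by
      apply rp_ext
      filter_upwards [h1, hev, hevD] with n a1 a2 a3
      rw [a1, a3, a2.2.2.2.2.2.1]
      rfl
    have e2 : G' = Gm := by
      apply mr_ext
      filter_upwards [h2, hev, hevD] with n a1 a2 a3
      rw [a1, a3, a2.2.2.2.2.2.2.1]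
      rfl
    rw [e1, e2]
    exact hBig
  have hε' : 0 < ε / (2 * ((m : ℝ) + 1)) := by positivity
  have hcnt : ∀ᶠ n in HF, ∀ j ∈ Finset.range m, ∀ r : ℕ, 0 < r → ∀ (γ : k n) (Z : Finset (k n)),
      (∀ τ ∈ Z, τ ^ p n ^ r * (1 + γ * τ) = τ ∧ (D n).Δ.eval τ ≠ 0 ∧
        (Matrix.of fun a b : {a : Fin g // lw a ≤ j} => ((D n).U a.1 (Sum.inl b.1)).eval τ).det = 0) →
      (Z.card : ℝ) ≤ ε / (2 * ((m : ℝ) + 1)) * (p n : ℝ) ^ r := by
    rw [Filter.eventually_all_finset]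
    intro j _
    exact MPadcIP.countU_seq hg lw j (fun b => Sum.inl b.1) (fun a b h => Subtype.ext (Sum.inl.inj h)) c C₀ k p
      hpr hp D hD1 hBig' _ hε'
  obtain ⟨N, hN⟩ := exists_nat_ge ((c : ℝ) / (ε / 2))
  filter_upwards [hev, hevD, hcnt, ev_large p hp N, ev_large p hp (d * m)] with n h1 h2 h3 h4 h5
  intro r hr Z hZ
  obtain ⟨g1, g2, g3, g4, g5, g6, g7, g8, g9, g10⟩ := h1
  have hsub : Z ⊆ Z.filter (fun τ => (Hn n).Δ.eval τ = 0) ∪ (Finset.range m).biUnion fun j => Z.filter fun τ =>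
      (D n).Δ.eval τ ≠ 0 ∧
        (Matrix.of fun a b : {a : Fin g // lw a ≤ j} => ((D n).U a.1 (Sum.inl b.1)).eval τ).det = 0 := by
    intro τ hτ
    rw [Finset.mem_union]
    by_cases h6 : (Hn n).Δ.eval τ = 0
    · exact Or.inl (Finset.mem_filter.2 ⟨hτ, h6⟩)
    · right
      by_contra hcon
      apply (hZ τ hτ).2
      refine T3_gd (p n) i₀ (Hn n) g1 g3 (G n) g4 g2 h5 τ h6 fun j hj h0 => hcon ?_
      rw [Finset.mem_biUnion]
      refine ⟨j, Finset.mem_range.2 (by omega), Finset.mem_filter.2 ⟨hτ, ?_, ?_⟩⟩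
      · rw [h2]
        exact h6
      · rw [h2]
        exact h0
  have hp1 : (1 : ℝ) ≤ p n := by exact_mod_cast (hpr n).one_lt.le
  have hpow : (p n : ℝ) ≤ (p n : ℝ) ^ r := by
    calc (p n : ℝ) = (p n : ℝ) ^ 1 := (pow_one _).symm
      _ ≤ (p n : ℝ) ^ r := pow_le_pow_right₀ hp1 hr
  have hc0 : ((Z.filter (fun τ => (Hn n).Δ.eval τ = 0)).card : ℝ) ≤ ε / 2 * (p n : ℝ) ^ r := by
    have a1 : Z.filter (fun τ => (Hn n).Δ.eval τ = 0) ⊆ (Hn n).Δ.roots.toFinset := by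
      intro τ hτ
      rw [Multiset.mem_toFinset, Polynomial.mem_roots g5]
      exact (Finset.mem_filter.1 hτ).2
    have a2 : (Z.filter (fun τ => (Hn n).Δ.eval τ = 0)).card ≤ c :=
      (Finset.card_le_card a1).trans ((Multiset.toFinset_card_le _).trans ((Polynomial.card_roots' _).trans g8))
    have a3 : (c : ℝ) ≤ ε / 2 * p n := by
      have a4 : (N : ℝ) ≤ p n := by exact_mod_cast h4.le
      have a5 := hN.trans a4
      rw [div_le_iff₀ (by positivity)] at a5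
      linarith
    calc ((Z.filter (fun τ => (Hn n).Δ.eval τ = 0)).card : ℝ) ≤ c := by exact_mod_cast a2
      _ ≤ ε / 2 * p n := a3
      _ ≤ ε / 2 * (p n : ℝ) ^ r := mul_le_mul_of_nonneg_left hpow (by positivity)
  have hcj : ∀ j ∈ Finset.range m, ((Z.filter fun τ => (D n).Δ.eval τ ≠ 0 ∧
        (Matrix.of fun a b : {a : Fin g // lw a ≤ j} => ((D n).U a.1 (Sum.inl b.1)).eval τ).det = 0).card : ℝ) ≤
      ε / (2 * ((m : ℝ) + 1)) * (p n : ℝ) ^ r := by
    intro j hj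
    refine h3 j hj r hr 0 _ fun τ hτ => ?_
    rw [Finset.mem_filter] at hτ
    refine ⟨?_, hτ.2.1, hτ.2.2⟩
    rw [zero_mul, add_zero, mul_one]
    exact (hZ τ hτ.1).1
  have hcard := (Finset.card_le_card hsub).trans (Finset.card_union_le _ _)
  have hbi := Finset.card_biUnion_le (s := Finset.range m) (t := fun j => Z.filter fun τ =>
      (D n).Δ.eval τ ≠ 0 ∧
        (Matrix.of fun a b : {a : Fin g // lw a ≤ j} => ((D n).U a.1 (Sum.inl b.1)).eval τ).det = 0)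
  have hsum : ((∑ j ∈ Finset.range m, (Z.filter fun τ => (D n).Δ.eval τ ≠ 0 ∧
        (Matrix.of fun a b : {a : Fin g // lw a ≤ j} => ((D n).U a.1 (Sum.inl b.1)).eval τ).det = 0).card : ℕ) : ℝ) ≤
      m * (ε / (2 * ((m : ℝ) + 1)) * (p n : ℝ) ^ r) := by
    rw [Nat.cast_sum]
    refine (Finset.sum_le_sum hcj).trans (le_of_eq ?_)
    rw [Finset.sum_const, Finset.card_range, nsmul_eq_mul]
  have hfin : (Z.card : ℝ) ≤ ε / 2 * (p n : ℝ) ^ r + m * (ε / (2 * ((m : ℝ) + 1)) * (p n : ℝ) ^ r) := by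
    have b1 : (Z.card : ℝ) ≤ ((Z.filter (fun τ => (Hn n).Δ.eval τ = 0)).card : ℝ) +
        ((∑ j ∈ Finset.range m, (Z.filter fun τ => (D n).Δ.eval τ ≠ 0 ∧
          (Matrix.of fun a b : {a : Fin g // lw a ≤ j} => ((D n).U a.1 (Sum.inl b.1)).eval τ).det = 0).card : ℕ) : ℝ) := by
      exact_mod_cast hcard.trans (Nat.add_le_add_left hbi _)
    linarith
  refine hfin.trans ?_
  have b2 : (m : ℝ) * (ε / (2 * ((m : ℝ) + 1))) ≤ ε / 2 := by
    have hm0 : (0 : ℝ) ≤ m := Nat.cast_nonneg m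
    rw [mul_div_assoc', div_le_div_iff₀ (by positivity) (by norm_num)]
    nlinarith
  have b3 : (0 : ℝ) ≤ (p n : ℝ) ^ r := by positivity
  calc ε / 2 * (p n : ℝ) ^ r + m * (ε / (2 * ((m : ℝ) + 1)) * (p n : ℝ) ^ r)
      = (ε / 2 + m * (ε / (2 * ((m : ℝ) + 1)))) * (p n : ℝ) ^ r := by ring
    _ ≤ (ε / 2 + ε / 2) * (p n : ℝ) ^ r := mul_le_mul_of_nonneg_right (by linarith) b3
    _ = ε * (p n : ℝ) ^ r := by ring

end MPadcOH
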