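import Pool.Agent.Lib.MP_adc574_ag_OH.R1
import Pool.Agent.Lib.MP_adc574_ag_BK.FinG2
import Pool.Agent.Lib.MP_adc574_ag_BK.LitI
import Pool.Agent.Lib.MP_adc574_ag_BK.LitJ

/-!
# R8: a hypersurface over a finite field with nonzero determinants is ordinary

PROOF. (1) `CData.scale` (BK/DescG) over `k` and `CData.desc` with `ι` give `c₁ : V → .. → E` with `CData d (m - 1) F .. c₁ 1`. By `CData.uniq` (BK/Spr; data over `k`: `c, h` and `ι ∘ c₁, 1`): `c v e = h * ι (c₁ v e)`. So `ell (c ^ p) = h ^ p * ell ((ι c₁) ^ p)`,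
`gam` and `gf` for `c` are `h ^ p` times those for `ι ∘ c₁`, and these are `ι` of those over `E` (`gf_map`, R1; `monomial v 1 = (monomial v 1).map ι`). So `dj p d F V c₁ j ≠ 0` over `E` for `1 ≤ j ≤ m - 1`.
(2) `m = n + 1`. `CData.restr` (BK/Br) with `V' = {v : V // lvl v ≤ j}`; `surjJ_of_det` (BK/Br; `PerfectRing E p` by `PerfectRing.ofFiniteOfIsReduced`) needs `det (gam .. v (lvl u) (x ^ u)) ≠ 0`; `gf v (x ^ u) = (-1) ^ lvl u * gam ..` (`gf_mono`, `d ∣ tdg u` by `CData.lev`), so the two determinants differ by a sign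
(`gam` for the restricted data: `rfl`, both are `ell (c v ^ p)` composed with `ap p F (lvl v) k`). So `SurjJ p F d j` for `1 ≤ j ≤ n`.
(3) `Smooth F`: `X i ^ N ∈ Jac (F.map ι)` descends from `k` to the subfield `E` (`desc_jac` in LZ/MapZ.lean: `a ≠ 0` with `C a * P ∈ Jac F`; `E` is a field).
(4) `Hyp p d F` (`2 ≤ n < p`, `¬ p ∣ d` as `0 < d < p`), `mainA` (BK/MainA), as in `fing2_good` (BK/FinG2.lean); then `isBK` (BK/LitI) with `H i j := mainA ..` (`HZero (BK F d (i + 2) I)`) and `isBlochKatoOrdinary_of` (BK/LitJ), `xx_ne_zero`.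
-/

set_option autoImplicit false

namespace MPadcOH

open MvPolynomial MPadcGM MPadcHM MPadcLZ MPadcBK MPadcOA

private theorem R8_scale {m : ℕ} {R : Type*} [CommRing R] {V : Type*}
    (c : V → (Fin m →₀ ℕ) → R) (a : R) (v : V) (P : MvPolynomial (Fin m) R) :
    ell (fun v e => a * c v e) v P = a * ell c v P := by
  rw [ell_eq_sum, ell_eq_sum, Finset.mul_sum]
  refine Finset.sum_congr rfl fun e _ => ?_
  ring

/-- `gam` of scaled coordinates -/
private theorem R8_gam {m : ℕ} {R : Type*} [CommRing R] (p : ℕ) [Fact p.Prime] [CharP R p] {V : Type*} [Fintype V]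
    [DecidableEq V] (F : MvPolynomial (Fin m) R) (c : V → (Fin m →₀ ℕ) → R) (a : R) (lv : V → ℕ) (v : V) (k : ℕ)
    (P : MvPolynomial (Fin m) R) :
    gam p F (fun v e => a * c v e) lv v k P = a ^ p * gam p F c lv v k P := by
  rw [gam_apply, gam_apply]
  have h1 : (fun (v : V) (e : Fin m →₀ ℕ) => (a * c v e) ^ p) = fun v e => a ^ p * (c v e) ^ p := by
    funext v e
    rw [mul_pow]
  rw [h1, R8_scale]

/-- the functionals over the subfield -/
private theorem R8_gf {E : Type} [Field E] (p : ℕ) [Fact p.Prime] [CharP E p] {k : Type} [Field k] [CharP k p]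
    (ι : E →+* k) {m d : ℕ} (F : MvPolynomial (Fin m) E) {V : Finset (Fin m →₀ ℕ)}
    (c₁ : V → (Fin m →₀ ℕ) → E) (h : k) (v : V) (e : Fin m →₀ ℕ) :
    gf p d (F.map ι) V (fun v e => h * ι (c₁ v e)) v (monomial e 1) =
      h ^ p * ι (gf p d F V c₁ v (monomial e 1)) := by
  have h1 : gf p d (F.map ι) V (fun v e => ι (c₁ v e)) v (monomial e 1) = ι (gf p d F V c₁ v (monomial e 1)) := by
    have h2 := gf_map p (m := m) (d := d) (F := F) (V := V) (c := c₁) ι v (monomial e 1)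
    rw [MvPolynomial.map_monomial, map_one] at h2
    exact h2
  rw [← h1, gf_mono, gf_mono, one_mul, one_mul]
  split_ifs with hd
  · rw [R8_gam]
    ring
  · rw [mul_zero]

/-- the determinants over the subfield -/
private theorem R8_dj {E : Type} [Field E] (p : ℕ) [Fact p.Prime] [CharP E p] {k : Type} [Field k] [CharP k p]
    (ι : E →+* k) {m d : ℕ} (F : MvPolynomial (Fin m) E) {V : Finset (Fin m →₀ ℕ)}
    (c₁ : V → (Fin m →₀ ℕ) → E) (h : k) (j : ℕ) (hj : dj p d F V c₁ j = 0) :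
    dj p d (F.map ι) V (fun v e => h * ι (c₁ v e)) j = 0 := by
  classical
  unfold dj at hj ⊢
  have h1 : (Matrix.of fun v u : {v : V // lvl d v.1 ≤ j} =>
      gf p d (F.map ι) V (fun v e => h * ι (c₁ v e)) v.1 (monomial u.1.1 1)) =
      h ^ p • (ι.mapMatrix (Matrix.of fun v u : {v : V // lvl d v.1 ≤ j} =>
        gf p d F V c₁ v.1 (monomial u.1.1 1))) := by
    ext v u
    rw [Matrix.of_apply, Matrix.smul_apply, RingHom.mapMatrix_apply, Matrix.map_apply, Matrix.of_apply, smul_eq_mul,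
      R8_gf]
  rw [h1, Matrix.det_smul, ← RingHom.map_det, hj, map_zero, mul_zero]

/-- surjectivity from the determinants -/
private theorem R8_surj {E : Type} [Field E] (p : ℕ) [Fact p.Prime] [CharP E p] [PerfectRing E p] {n d : ℕ}
    (hd : 1 ≤ d) (F : MvPolynomial (Fin (n + 1)) E) (hF : F.IsHomogeneous d) {V : Finset (Fin (n + 1) →₀ ℕ)}
    {c₁ : V → (Fin (n + 1) →₀ ℕ) → E}
    (hC : CData d n F (fun v : V => v.1) (fun v : V => lvl d v.1) c₁ 1) (j : ℕ) (hjn : j ≤ n)
    (hdj : dj p d F V c₁ j ≠ 0) : SurjJ p F d j := by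
  classical
  refine surjJ_of_det p hF hd (hC.restr hjn) one_ne_zero ?_
  intro h0
  apply hdj
  unfold dj
  have h1 : (Matrix.of fun v u : {v : V // lvl d v.1 ≤ j} => gf p d F V c₁ v.1 (monomial u.1.1 1)) =
      Matrix.of fun v u : {v : V // lvl d v.1 ≤ j} => (-1) ^ (lvl d u.1.1) *
        (Matrix.of fun v u : {v : V // lvl d v.1 ≤ j} =>
          gam p F (fun v : {v : V // lvl d v.1 ≤ j} => c₁ v.1) (fun v : {v : V // lvl d v.1 ≤ j} => lvl d v.1.1) v
            (lvl d u.1.1) (monomial u.1.1 1)) v u := by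
    ext v u
    rw [Matrix.of_apply, Matrix.of_apply, Matrix.of_apply, gf_mono, one_mul, if_pos]
    · rfl
    · rw [hC.lev u.1]
      exact Dvd.intro_left _ rfl
  rw [h1, Matrix.det_mul_row]
  have h2 : (Matrix.of fun v u : {v : V // lvl d v.1 ≤ j} =>
          gam p F (fun v : {v : V // lvl d v.1 ≤ j} => c₁ v.1) (fun v : {v : V // lvl d v.1 ≤ j} => lvl d v.1.1) v
            (lvl d u.1.1) (monomial u.1.1 (1 : E))).det = 0 := h0
  rw [h2, mul_zero]

/-- smoothness descends -/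
private theorem R8_smooth {E k : Type} [Field E] [Field k] (ι : E →+* k) {m : ℕ} (F : MvPolynomial (Fin m) E)
    (hs : Smooth (F.map ι)) : Smooth F := by
  intro i
  let _ := ι.toAlgebra
  obtain ⟨N, hN⟩ := hs i
  obtain ⟨a, M, ha, hM⟩ := jac_descend (k := k) (A := E) ι.injective F i ⟨N, hN⟩
  refine ⟨M, ?_⟩
  have h1 := Ideal.mul_mem_left _ (C a⁻¹) hM
  rw [← mul_assoc, ← C_mul, inv_mul_cancel₀ ha, C_1, one_mul] at h1
  exact h1

theorem bk_of {E : Type} [Field E] [Finite E] (p : ℕ) [Fact p.Prime] [CharP E p] {k : Type} [Field k] [CharP k p] (ι : E →+* k)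
    {m d : ℕ} (hm : 3 ≤ m) (hd : 3 ≤ d) (hp : d * m < p) (F : MvPolynomial (Fin m) E) (hF : F.IsHomogeneous d)
    {V : Finset (Fin m →₀ ℕ)} {c : V → (Fin m →₀ ℕ) → k} {h : k} (hh : h ≠ 0)
    (hC : CData d (m - 1) (F.map ι) (fun v : V => v.1) (fun v : V => lvl d v.1) c h) (hs : Smooth (F.map ι))
    (hdj : ∀ j, 1 ≤ j → j ≤ m - 1 → dj p d (F.map ι) V c j ≠ 0) : Smooth F ∧ IsBlochKatoOrdinary F := by
  obtain ⟨n, rfl⟩ : ∃ n, m = n + 1 := ⟨m - 1, by omega⟩
  obtain ⟨c₁, hC1⟩ := CData.desc ι (hC.scale hh)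
  have hcc : c = fun v e => h * ι (c₁ v e) := by
    funext v e
    have h1 := CData.uniq hC (hC1.map ι) v e
    rw [map_one, one_mul] at h1
    exact h1
  have hperf : PerfectRing E p := PerfectRing.ofFiniteOfIsReduced p E
  have hn : 2 ≤ n := by omega
  have h3 : n + 1 < p := by
    calc n + 1 = 1 * (n + 1) := (one_mul _).symm
      _ ≤ d * (n + 1) := Nat.mul_le_mul_right _ (by omega)
      _ < p := hp
  have h4 : d < p := by
    calc d = d * 1 := (mul_one _).symm
      _ ≤ d * (n + 1) := Nat.mul_le_mul_left _ (by omega)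
      _ < p := hp
  have hpd : ¬ p ∣ d := fun h5 => absurd (Nat.le_of_dvd (by omega) h5) (by omega)
  have hsF : Smooth F := R8_smooth ι F hs
  have H : Hyp p d F := ⟨hn, by omega, by omega, hpd, hF, hsF⟩
  have hS : ∀ j, 1 ≤ j → j ≤ n → SurjJ p F d j := by
    intro j hj1 hjn
    refine R8_surj p (by omega) F hF hC1 j hjn fun h0 => ?_
    refine hdj j hj1 hjn ?_
    rw [hcc]
    exact R8_dj p ι F c₁ h j h0
  refine ⟨hsF, ?_⟩
  obtain ⟨hprime, hord⟩ := isBK p (by omega) h3 (by omega) hpd hF hsF fun i j => mainA p H hS (i + 2) j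
  exact isBlochKatoOrdinary_of F (by omega) (xx_ne_zero F (by omega : 2 ≤ d) hF) hord

end MPadcOH
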