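import Pool.Agent.Lib.MP_adc574_ag_OH.T3
import Pool.Agent.Lib.MP_adc574_ag_OH.R8

/-!
# T4: almost all members of every Morse pencil of odd dimensional hypersurfaces over a large finite field are ordinary

PROOF. Suppose `FewM` fails for `ε`: for every `n` (with `p₀ = n + d * m + 1`) there are a prime `p n ≥ n + d * m + 1`, a finite field `E n` of characteristic `p n`, `G n` over `E n`, homogeneous and Morse, with more than `ε * #E` bad `t` (`push Not`, `choose`, as in `nv_fam`, PC/N3.lean). `k n = AlgebraicClosure (E n)`, `ι n` the embedding, `CharP (k n) (p n)`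
(`charP_of_injective_algebraMap`). `seq_bad` (T3) for `(G n).map (ι n)` and `ε` gives an `n` (`Filter.Eventually.exists`) such that the conclusion holds. `#E n = (p n) ^ r`, `0 < r` (`FiniteField.card`). `Z` = the image under `ι n` of the bad `t` (a finite set, `Finset.map`; its cardinality is `Nat.card {t // ..}`, see `count_E`, PC/N4.lean). `τ = ι t`: `τ ^ p ^ r = τ`
(`FiniteField.pow_card`), and `¬ Gd`: if `Gd (p n) d ((G n).map ι - C τ * X i₀ ^ d)`, this form is `(G n - C t * X i₀ ^ d).map ι` (`map_sub`, `map_pow`, `map_X`, `map_C`), and `bk_of` (R8) says that `t` is good (`IsHomogeneous` of `G n - C t * X i₀ ^ d`). So `#bad ≤ ε p ^ r = ε #E`: contradiction.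
-/

set_option autoImplicit false

namespace MPadcOH

open MvPolynomial MPadcGM MPadcHM MPadcLZ MPadcBK MPadcOA

theorem fewM_odd {m d : ℕ} (hm : 3 ≤ m) (ho : Odd m) (hd : 3 ≤ d) (i₀ : Fin m) : FewM m i₀ d := by
  intro ε hε
  by_contra hcon
  push Not at hcon
  have hcon' := fun n : ℕ => hcon (n + d * m + 1)
  choose p hpr hp E ie ifn ic G hG hM hbad using hcon'
  have hpn : ∀ n, n ≤ p n := fun n => by
    have := hp n
    omega
  have hFact : ∀ n, Fact (p n).Prime := fun n => ⟨hpr n⟩
  have hchar : ∀ n, CharP (AlgebraicClosure (E n)) (p n) := fun n =>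
    charP_of_injective_algebraMap (algebraMap (E n) (AlgebraicClosure (E n))).injective (p n)
  obtain ⟨n, hn⟩ := (seq_bad hm ho hd i₀ (fun n => AlgebraicClosure (E n)) p hpn
    (fun n => (G n).map (algebraMap (E n) (AlgebraicClosure (E n)))) (fun n => (hG n).map _) hM ε hε).exists
  have hft : Fintype (E n) := Fintype.ofFinite (E n)
  obtain ⟨r, -, hr⟩ := FiniteField.card (E n) (p n)
  refine absurd (hbad n) (not_lt.2 ?_)
  have hinj : Function.Injective (algebraMap (E n) (AlgebraicClosure (E n))) :=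
    (algebraMap (E n) (AlgebraicClosure (E n))).injective
  obtain ⟨S, hS⟩ : ∃ S : Finset (E n), ∀ t, t ∈ S ↔
      (Smooth (G n - C t * X i₀ ^ d) → ¬ IsBlochKatoOrdinary (G n - C t * X i₀ ^ d)) := by
    classical
    exact ⟨Finset.univ.filter fun t => Smooth (G n - C t * X i₀ ^ d) → ¬ IsBlochKatoOrdinary (G n - C t * X i₀ ^ d),
      fun t => by rw [Finset.mem_filter]; exact ⟨fun h => h.2, fun h => ⟨Finset.mem_univ _, h⟩⟩⟩
  have hc1 : Nat.card {t : E n // Smooth (G n - C t * X i₀ ^ d) → ¬ IsBlochKatoOrdinary (G n - C t * X i₀ ^ d)} =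
      (S.map ⟨_, hinj⟩).card := by
    rw [Finset.card_map]
    exact Nat.subtype_card S hS
  have hc2 : (Nat.card (E n) : ℝ) = (p n : ℝ) ^ (r : ℕ) := by
    rw [Nat.card_eq_fintype_card, hr]
    push_cast
    rfl
  rw [hc1, hc2]
  refine hn r r.pos _ fun τ hτ => ?_
  obtain ⟨t, ht, rfl⟩ := Finset.mem_map.1 hτ
  have ht' := (hS t).1 ht
  refine ⟨?_, fun hgd => ?_⟩
  · show (algebraMap (E n) (AlgebraicClosure (E n)) t) ^ p n ^ (r : ℕ) = algebraMap (E n) (AlgebraicClosure (E n)) t
    rw [← map_pow, ← hr, FiniteField.pow_card]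
  · obtain ⟨V, c, h, hh, hC, hs, hdj⟩ := hgd
    have he : (G n).map (algebraMap (E n) (AlgebraicClosure (E n))) -
        C ((⟨_, hinj⟩ : E n ↪ AlgebraicClosure (E n)) t) * X i₀ ^ d =
        (G n - C t * X i₀ ^ d).map (algebraMap (E n) (AlgebraicClosure (E n))) := by
      rw [map_sub, map_mul, map_pow, map_X, map_C]
      rfl
    have hhom : (G n - C t * X i₀ ^ d).IsHomogeneous d := by
      refine (hG n).sub ?_
      have h1 := (isHomogeneous_C (Fin m) t).mul (isHomogeneous_X_pow i₀ d)
      rwa [zero_add] at h1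
    rw [he] at hC hs
    have hdj' : ∀ j, 1 ≤ j → j ≤ m - 1 →
        dj (p n) d ((G n - C t * X i₀ ^ d).map (algebraMap (E n) (AlgebraicClosure (E n)))) V c j ≠ 0 := by
      intro j h1 h2
      rw [← he]
      exact hdj j h1 h2
    obtain ⟨h3, h4⟩ := bk_of (p n) (algebraMap (E n) (AlgebraicClosure (E n))) hm hd (by have := hp n; omega) _
      hhom hh hC hs hdj'
    exact ht' h3 h4

end MPadcOH
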