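import Pool.Agent.Lib.MP_adc574_ag_BK.Gam
import Pool.Agent.Lib.MP_adc574_ag_BK.GBas
import Pool.Agent.Lib.MP_adc574_ag_LZ.BilB
import Pool.Agent.Lib.MP_adc574_ag_PC.N2

/-!
# Hypersurfaces of odd dimension: definitions

`m` variables, the level of an exponent `e` is `lvl d e = (∑ (e_i + 1)) / d`; the levels of the primitive cohomology are `1, …, m - 1`.
`gf p d F V c v` is the functional `c_v` on the polar classes in characteristic `p`: `(-1) ^ k gam v k` on the monomials of level `k`.
`HD R m g` are the data of a family of hypersurfaces over the affine line over `R`: monomial basis `x ^ v`, `v ∈ V`, of the cohomology,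
symplectic basis `e l = (1 / s) ∑ v, Q l v x ^ v` with the matrix `G` of `Δ ∇`.
-/

set_option autoImplicit false

namespace MPadcOH

open MvPolynomial MPadcGM MPadcHM MPadcLZ MPadcBK MPadcOA

/-- The level. -/
def lvl {m : ℕ} (d : ℕ) (e : Fin m →₀ ℕ) : ℕ := tdg e / d

/-- The functional `c_v` in characteristic `p`. -/
noncomputable def gf {R : Type} [CommRing R] (p : ℕ) [Fact p.Prime] [CharP R p] {m : ℕ} (d : ℕ) (F : MvPolynomial (Fin m) R)
    (V : Finset (Fin m →₀ ℕ)) (c : V → (Fin m →₀ ℕ) → R) (v : V) : MvPolynomial (Fin m) R →ₗ[R] R :=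
  (basisMonomials (Fin m) R).constr R fun e =>
    if d ∣ tdg e then (-1) ^ (lvl d e) * gam p F c (fun v : V => lvl d v.1) v (lvl d e) (monomial e 1) else 0

/-- The relations of the polar classes. -/
noncomputable def relR {R : Type} [CommRing R] {m : ℕ} (d : ℕ) (F : MvPolynomial (Fin m) R) :
    Submodule R (MvPolynomial (Fin m) R) :=
  Submodule.span R ({P | ∃ i Q, P = dl F i Q} ∪ {P | ∃ e : Fin m →₀ ℕ, ¬ d ∣ tdg e ∧ P = monomial e 1})

/-- The derivation of `R[X]`. -/
noncomputable def dX (R : Type) [CommRing R] : Derivation ℤ (Polynomial R) (Polynomial R) :=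
  (Polynomial.derivative' (R := R)).restrictScalars ℤ

/-- The determinant of the functionals and the monomials of level at most `j`. -/
noncomputable def dj {R : Type} [CommRing R] (p : ℕ) [Fact p.Prime] [CharP R p] {m : ℕ} (d : ℕ) (F : MvPolynomial (Fin m) R)
    (V : Finset (Fin m →₀ ℕ)) (c : V → (Fin m →₀ ℕ) → R) (j : ℕ) : R :=
  open Classical in
  (Matrix.of fun v u : {v : V // lvl d v.1 ≤ j} => gf p d F V c v.1 (monomial u.1.1 1)).det

/-- The data of a family. -/
structure HD (R : Type) [CommRing R] (m g : ℕ) where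
  /-- the degree -/
  d : ℕ
  /-- the equation -/
  F : MvPolynomial (Fin m) (Polynomial R)
  /-- the monomials -/
  V : Finset (Fin m →₀ ℕ)
  /-- the coordinates modulo the Jacobian ideal -/
  c : V → (Fin m →₀ ℕ) → Polynomial R
  /-- the denominator -/
  h : Polynomial R
  /-- the denominator of the symplectic basis -/
  s : Polynomial R
  /-- the symplectic basis -/
  Q : Nx g → V → Polynomial R
  /-- the inverse matrix -/
  Q' : V → Nx g → Polynomial R
  /-- the discriminant -/
  Δ : Polynomial R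
  /-- the matrix of the connection -/
  G : Matrix (Nx g) (Nx g) (Polynomial R)
  /-- the monomials of level `< m / 2` -/
  low : Fin g ≃ {v : V // 2 * lvl d v.1 < m}

/-- The polynomial `s e_l`. -/
noncomputable def HD.P {R : Type} [CommRing R] {m g : ℕ} (H : HD R m g) (l : Nx g) : MvPolynomial (Fin m) (Polynomial R) :=
  ∑ v : H.V, C (H.Q l v) * monomial v.1 1

/-- The properties of the data. -/
structure HD.Ok {R : Type} [CommRing R] {m g : ℕ} (H : HD R m g) : Prop where
  hm : 3 ≤ m
  odd : Odd m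
  hd : 3 ≤ H.d
  hg : 0 < g
  hom : H.F.IsHomogeneous H.d
  cd : CData H.d (m - 1) H.F (fun v : H.V => v.1) (fun v : H.V => lvl H.d v.1) H.c H.h
  rel : ∀ l, C H.Δ * (C H.Δ * (C H.s * nb (dX R) H.F (H.P l) - C (dX R H.s) * H.P l) -
    C H.s * ∑ l', C (H.G l' l) * H.P l') ∈ relR H.d H.F
  symp : H.G * JJ g (Polynomial R) + JJ g (Polynomial R) * H.G.transpose = 0
  bas : ∀ l l', ∑ v, H.Q l v * H.Q' v l' = if l = l' then H.Δ else 0
  bas' : ∀ v v', ∑ l, H.Q' v l * H.Q l v' = if v = v' then H.Δ else 0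
  inl : ∀ i v, H.Q (Sum.inl i) v = if v = (H.low i).1 then H.s else 0
  hdvd : H.h ∣ H.Δ
  sdvd : H.s ∣ H.Δ
  sm : ∃ M : ℕ, ∀ e : Fin m →₀ ℕ, M ≤ dg e → C H.Δ * monomial e 1 ∈ Jac H.F
  par : ∀ (L : Type) [Field L] (β : Polynomial R →+* L), β H.Δ ≠ 0 → ∀ (K : RegF (H.d - 1) (H.F.map β)) (l l' : Nx g),
    Bil K H.d ((H.P l).map β) ((H.P l').map β) = - (β H.s) ^ 2 * JJ g L l l'

/-- Base change. -/
noncomputable def HD.map {R S : Type} [CommRing R] [CommRing S] {m g : ℕ} (H : HD R m g) (φ : R →+* S) : HD S m g where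
  d := H.d
  F := H.F.map (Polynomial.mapRingHom φ)
  V := H.V
  c := fun v e => (H.c v e).map φ
  h := H.h.map φ
  s := H.s.map φ
  Q := fun l v => (H.Q l v).map φ
  Q' := fun v l => (H.Q' v l).map φ
  Δ := H.Δ.map φ
  G := H.G.map (Polynomial.mapRingHom φ)
  low := H.low

end MPadcOH
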