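import Pool.Agent.Lib.MP_adc574_ag_LZ.BilB

/-! LEAF P7a (medium).  The solution series `gs` of `x ^ u` is represented by polynomials over the base ring, uniformly for all base changes to fields.

PROOF.  A family is `G : ∀ (L : Type) [Field L] (β : R →+* L) (K : RegF (d - 1) (F.map β)), FF L m` (write it as a function of all these arguments). `Rep G` (private def): `∃ k P, ∀ L β K, G L β K * algebraMap _ (FF L m) (∏ i, gr (F.map β) i) ^ k = algebraMap _ (FF L m) (P.map β)`.
With `A = ∏ i, pderiv i F` over `R` (`A.map β = ∏ i, gr (F.map β) i`: `map_prod`, `pderiv_map`; `gr F = fun i => pderiv i F`) the families `Rep` are stable under: zero (`k = 0, P = 0`); sums (`k + k'`, `P A ^ k' + P' A ^ k`); `G ↦ (algebraMap (gr (F.map β) i))⁻¹ * G` (`k + 1`, `P * ∏_{j ≠ i} pderiv j F`; `K.ne i : gr (F.map β) i ≠ 0`, so its image in the field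
`FF L m` is not zero, `IsFractionRing.injective`); `G ↦ dxa L i G = dx L i G` (`dxa_apply`; apply the derivation `dx L i` to `G * alg A ^ k = alg P` with `dx_alg`: `dx G * alg A ^ (k + 1) = alg (A ∂_i P - k P ∂_i A)`; `Derivation.leibniz`, `Derivation.leibniz_pow`; multiply by `A`).
`gs H n x = Gz H (Pi.single 0 x) n` (`gs_apply`), `Gz H = Finset.univ.noncommProd (fun i => Jz (f i) (p i))`, `f i = algebraMap (gr (F.map β) i)`, `p i = dxa L i` (`K.cz : Cz ..`), `Jz f p G = jseq f p G`, `jseq 0 = f⁻¹ * G 0`, `jseq (m + 1) = f⁻¹ * (G (m + 1) + p (jseq m))` (SerA.lean). So a family of sequences (`∀ n, Rep (fun L β K => S L β K n)`) is mapped to such a family by `Jz`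
(induction on `n`), and by the product: prove for all finite `s`, by `Finset.induction_on` with `Finset.noncommProd_insert_of_notMem` (as in `gz_zero`, SerB.lean; the commutation proof is `(K.cz).pair _`), that the product over `s` maps families of sequences with the property to such families. Start: `Pi.single 0 (algebraMap (monomial u 1))`: `(monomial u 1).map β = monomial u 1`. -/

set_option autoImplicit false

namespace MPadcOH

open MvPolynomial MPadcHM MPadcLZ

private structure P7a_D {R : Type} [CommRing R] {m : ℕ} (d : ℕ) (F : MvPolynomial (Fin m) R) where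
  L : Type
  fL : Field L
  β : R →+* L
  K : RegF (d - 1) (F.map β)

private instance P7a_inst {R : Type} [CommRing R] {m d : ℕ} {F : MvPolynomial (Fin m) R}
    (D : P7a_D d F) : Field D.L := D.fL

private noncomputable def P7a_al {R : Type} [CommRing R] {m d : ℕ} {F : MvPolynomial (Fin m) R}
    (D : P7a_D d F) : MvPolynomial (Fin m) R →+* FF D.L m :=
  (algebraMap (MvPolynomial (Fin m) D.L) (FF D.L m)).comp (MvPolynomial.map D.β)

private noncomputable def P7a_A {R : Type} [CommRing R] {m : ℕ} (F : MvPolynomial (Fin m) R) :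
    MvPolynomial (Fin m) R := ∏ i, pderiv i F

private def P7a_Rep {R : Type} [CommRing R] {m d : ℕ} {F : MvPolynomial (Fin m) R}
    (G : ∀ D : P7a_D d F, FF D.L m) : Prop :=
  ∃ (k : ℕ) (P : MvPolynomial (Fin m) R), ∀ D : P7a_D d F,
    G D * P7a_al D (P7a_A F) ^ k = P7a_al D P

section

variable {R : Type} [CommRing R] {m d : ℕ} {F : MvPolynomial (Fin m) R}

private theorem P7a_gr (D : P7a_D d F) (i : Fin m) :
    algebraMap (MvPolynomial (Fin m) D.L) (FF D.L m) (gr (F.map D.β) i) =
      P7a_al D (pderiv i F) := by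
  unfold gr P7a_al
  rw [RingHom.comp_apply, pderiv_map]

private theorem P7a_prod (D : P7a_D d F) :
    algebraMap (MvPolynomial (Fin m) D.L) (FF D.L m) (∏ i, gr (F.map D.β) i) =
      P7a_al D (P7a_A F) := by
  unfold P7a_A
  rw [map_prod, map_prod]
  exact Finset.prod_congr rfl fun i _ => P7a_gr D i

private theorem P7a_dx (D : P7a_D d F) (i : Fin m) (P : MvPolynomial (Fin m) R) :
    dx D.L i (P7a_al D P) = P7a_al D (pderiv i P) := by
  unfold P7a_al
  rw [RingHom.comp_apply, RingHom.comp_apply, dx_alg, pderiv_map]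

private theorem P7a_add {G G' : ∀ D : P7a_D d F, FF D.L m} (h : P7a_Rep G) (h' : P7a_Rep G') :
    P7a_Rep fun D => G D + G' D := by
  obtain ⟨k, P, h⟩ := h
  obtain ⟨k', P', h'⟩ := h'
  refine ⟨k + k', P * P7a_A F ^ k' + P' * P7a_A F ^ k, fun D => ?_⟩
  rw [map_add, map_mul, map_mul, map_pow, map_pow, ← h D, ← h' D]
  ring

private theorem P7a_inv {G : ∀ D : P7a_D d F, FF D.L m} (h : P7a_Rep G) (i : Fin m) :
    P7a_Rep fun D =>
      (algebraMap (MvPolynomial (Fin m) D.L) (FF D.L m) (gr (F.map D.β) i))⁻¹ * G D := by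
  obtain ⟨k, P, h⟩ := h
  refine ⟨k + 1, P * ∏ j ∈ Finset.univ.erase i, pderiv j F, fun D => ?_⟩
  have h1 : P7a_A F = pderiv i F * ∏ j ∈ Finset.univ.erase i, pderiv j F :=
    (Finset.mul_prod_erase Finset.univ (fun j => pderiv j F) (Finset.mem_univ i)).symm
  have h2 : P7a_al D (pderiv i F) ≠ 0 := by
    rw [← P7a_gr]
    exact D.K.cz.ne i
  beta_reduce
  rw [P7a_gr, map_mul, ← h D, pow_succ]
  have h3 : P7a_al D (P7a_A F) =
      P7a_al D (pderiv i F) * P7a_al D (∏ j ∈ Finset.univ.erase i, pderiv j F) := by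
    rw [← map_mul, ← h1]
  have h4 : (P7a_al D (pderiv i F))⁻¹ * P7a_al D (P7a_A F) =
      P7a_al D (∏ j ∈ Finset.univ.erase i, pderiv j F) := by
    rw [h3, ← mul_assoc, inv_mul_cancel₀ h2, one_mul]
  rw [← h4]
  ring

private theorem P7a_der {G : ∀ D : P7a_D d F, FF D.L m} (h : P7a_Rep G) (i : Fin m) :
    P7a_Rep fun D => dxa D.L i (G D) := by
  obtain ⟨k, P, h⟩ := h
  refine ⟨k + 1, pderiv i P * P7a_A F - (k : MvPolynomial (Fin m) R) * P * pderiv i (P7a_A F),
    fun D => ?_⟩
  beta_reduce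
  rw [dxa_apply]
  have h1 := congrArg (dx D.L i) (h D)
  rw [P7a_dx, Derivation.leibniz, smul_eq_mul, smul_eq_mul, Derivation.leibniz_pow, P7a_dx,
    smul_eq_mul, nsmul_eq_mul] at h1
  have h2 : (k : FF D.L m) * (P7a_al D (P7a_A F) ^ (k - 1) * P7a_al D (pderiv i (P7a_A F))) *
      P7a_al D (P7a_A F) = k * P7a_al D (P7a_A F) ^ k * P7a_al D (pderiv i (P7a_A F)) := by
    rcases k with _ | k
    · rw [Nat.cast_zero]
      ring
    · rw [Nat.add_sub_cancel, pow_succ]
      ring
  rw [map_sub, map_mul, map_mul, map_mul, map_natCast, ← h1, ← h D]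
  linear_combination (-G D) * h2

private theorem P7a_jz {S : ∀ D : P7a_D d F, ℕ → FF D.L m} (h : ∀ n, P7a_Rep fun D => S D n)
    (i : Fin m) (n : ℕ) : P7a_Rep fun D =>
      jseq (algebraMap (MvPolynomial (Fin m) D.L) (FF D.L m) (gr (F.map D.β) i)) (dxa D.L i)
        (S D) n := by
  induction n with
  | zero => exact P7a_inv (h 0) i
  | succ n ih => exact P7a_inv (P7a_add (h (n + 1)) (P7a_der ih i)) i

private theorem P7a_pr {S : ∀ D : P7a_D d F, ℕ → FF D.L m} (h : ∀ n, P7a_Rep fun D => S D n)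
    (s : Finset (Fin m)) : ∀ n, P7a_Rep fun D =>
      (s.noncommProd (fun i => Jz (algebraMap (MvPolynomial (Fin m) D.L) (FF D.L m)
        (gr (F.map D.β) i)) (dxa D.L i)) (D.K.cz.pair _)) (S D) n := by
  induction s using Finset.induction_on with
  | empty =>
    intro n
    simp only [Finset.noncommProd_empty]
    exact h n
  | insert a s ha ih =>
    intro n
    have h1 := P7a_jz (S := fun D => (s.noncommProd (fun i => Jz (algebraMap
      (MvPolynomial (Fin m) D.L) (FF D.L m) (gr (F.map D.β) i)) (dxa D.L i))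
        (D.K.cz.pair _)) (S D)) ih a n
    obtain ⟨k, P, h2⟩ := h1
    refine ⟨k, P, fun D => ?_⟩
    have h3 := h2 D
    beta_reduce at h3 ⊢
    rw [Finset.noncommProd_insert_of_notMem _ _ _ _ ha]
    exact h3

end

theorem gs_rep {R : Type} [CommRing R] {m d : ℕ} (F : MvPolynomial (Fin m) R) (n : ℕ) (u : Fin m →₀ ℕ) :
    ∃ (k : ℕ) (P : MvPolynomial (Fin m) R), ∀ (L : Type) [Field L] (β : R →+* L) (K : RegF (d - 1) (F.map β)),
      gs K.cz n (algebraMap (MvPolynomial (Fin m) L) (FF L m) (monomial u 1)) *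
        algebraMap (MvPolynomial (Fin m) L) (FF L m) (∏ i, gr (F.map β) i) ^ k =
      algebraMap (MvPolynomial (Fin m) L) (FF L m) (P.map β) := by
  have h0 : ∀ n, P7a_Rep (R := R) (d := d) (F := F) fun D => (Pi.single 0
      (algebraMap (MvPolynomial (Fin m) D.L) (FF D.L m) (monomial u 1)) : ℕ → FF D.L m) n := by
    intro n
    rcases n with _ | n
    · refine ⟨0, monomial u 1, fun D => ?_⟩
      beta_reduce
      rw [Pi.single_eq_same, pow_zero, mul_one]
      unfold P7a_al
      rw [RingHom.comp_apply, map_monomial, map_one D.β]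
    · refine ⟨0, 0, fun D => ?_⟩
      beta_reduce
      rw [Pi.single_eq_of_ne (Nat.succ_ne_zero n), zero_mul, map_zero]
  obtain ⟨k, P, h⟩ := P7a_pr h0 Finset.univ n
  refine ⟨k, P, fun L iL β K => ?_⟩
  have h1 := h ⟨L, iL, β, K⟩
  rw [← P7a_prod] at h1
  exact h1

end MPadcOH
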