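import Pool.Agent.Lib.MP_adc574_ag_OH.RD
import Pool.Agent.Lib.MP_adc574_ag_OH.R2

/-!
# R3: the frame is horizontal

PROOF. `a := gf v (P l)` (over `k[X]`, `CharP k[X] p`), `D = dX k` (`D q = derivative q`). `s * fU v l = (h ^ lv * s) ^ p * a` with `lv = lvl v` (`s * s ^ (p - 1) = s ^ p`), and `D (x ^ p * y) = x ^ p * D y` in characteristic `p`
(`Derivation.leibniz_pow`, `CharP.cast_eq_zero`). So `s' * fU v l + s * (fU v l)' = (h ^ lv * s) ^ p * D a`. As `lv ≥ 1` (`CData.lv_pos`), `(h ^ lv * s) ^ p * D a = (h ^ (lv - 1) * s) ^ p * (h ^ p * D a)`, and by `gf_der` (R2, `J = m - 1 < p`)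
this is `(h ^ lv * s) ^ p * gf v (nb P_l) - ∑ v', n v v' * (s * fU v' l)` (`n` the coefficient in `gf_der`; it is 0 unless `lvl v' = lv - 1`, then `(h ^ (lv - 1) * s) ^ p * gf v' (P l) = s * fU v' l`).
Apply `gf v` to `H.Ok.rel l` (`gf_rel`, R1; `gf v (C x * P) = x * gf v P`: linearity, `C x * P = x • P`), cancel `Δ ≠ 0`: `Δ * (s * gf v (nb P_l) - s' * a) = s * ∑ l', G l' l * gf v (P l')`. Multiply the first equation by `Δ * s`, insert the second
multiplied by `(h ^ lv * s) ^ p`: `Δ * s ^ 2 * (fU v l)' = s ^ 2 * ∑ l', fU v l' * G l' l - Δ * s ^ 2 * ∑ v', n v v' * fU v' l`. Cancel `s ^ 2` (`s ∣ Δ ≠ 0`).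
-/

set_option autoImplicit false

namespace MPadcOH

open MvPolynomial MPadcGM MPadcHM MPadcLZ MPadcBK MPadcOA

private theorem R3_C {R : Type} [CommRing R] (p : ℕ) [Fact p.Prime] [CharP R p] {m d : ℕ} {F : MvPolynomial (Fin m) R}
    {V : Finset (Fin m →₀ ℕ)} {c : V → (Fin m →₀ ℕ) → R} (v : V) (x : R) (P : MvPolynomial (Fin m) R) :
    gf p d F V c v (C x * P) = x * gf p d F V c v P := by
  rw [← smul_eq_C_mul, map_smul, smul_eq_mul]

theorem fU_der {k : Type} [Field k] (p : ℕ) [Fact p.Prime] [CharP k p] {m g : ℕ} (H : HD k m g) (hH : H.Ok) (hΔ : H.Δ ≠ 0)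
    (hp : H.d * m < p) (v : H.V) (l : Nx g) :
    H.Δ * Polynomial.derivative (H.fU p v l) = ∑ l', H.fU p v l' * H.G l' l + ∑ v', H.fn p v v' * H.fU p v' l := by
  classical
  have hs : H.s ≠ 0 := by
    intro h0
    have h1 := hH.sdvd
    rw [h0, zero_dvd_iff] at h1
    exact hΔ h1
  have hm := hH.hm
  have hd := hH.hd
  have hJ : m - 1 < p := by
    have h1 : 1 * m ≤ H.d * m := Nat.mul_le_mul_right m (by omega)
    omega
  have hlv : 1 ≤ lvl H.d v.1 := hH.cd.lv_pos v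
  have h2 := gf_rel p (by omega) (by omega) hH.hom hJ hH.cd v (hH.rel l)
  rw [R3_C, map_sub, R3_C, map_sub, R3_C, R3_C, R3_C, map_sum, mul_eq_zero, or_iff_right hΔ, sub_eq_zero] at h2
  simp only [R3_C] at h2
  have h3 := gf_der p (by omega) (by omega) hH.hom hJ hH.cd (dX k) v (H.P l)
  obtain ⟨N, hN⟩ : ∃ N, N = gf p H.d H.F H.V H.c v (nb (dX k) H.F (H.P l)) := ⟨_, rfl⟩
  obtain ⟨a, ha⟩ : ∃ a : H.V → Nx g → Polynomial k, ∀ v l, a v l = gf p H.d H.F H.V H.c v (H.P l) :=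
    ⟨fun v l => gf p H.d H.F H.V H.c v (H.P l), fun _ _ => rfl⟩
  obtain ⟨E, hE⟩ : ∃ E : H.V → Polynomial k, ∀ v', E v' = if lvl H.d v'.1 + 1 = lvl H.d v.1 then
      ell (fun v e => H.c v e ^ p) v (vB p (dX k) H.F * monomial v'.1 1) else 0 := ⟨_, fun _ => rfl⟩
  have hfU : ∀ v l, H.fU p v l = H.h ^ (p * lvl H.d v.1) * H.s ^ (p - 1) * a v l := fun v l => by
    rw [ha]
    rfl
  have hfn : ∀ v', H.fn p v v' = - (H.Δ * E v') := fun v' => by
    rw [hE]
    unfold HD.fn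
    split_ifs
    · rfl
    · rw [mul_zero, neg_zero]
  rw [← hN] at h2 h3
  simp only [← ha, ← hE] at h2 h3
  have h2' : H.Δ * (H.s * N - dX k H.s * a v l) = H.s * ∑ l', H.G l' l * a v l' := h2
  have h3' : H.h ^ p * dX k (a v l) = H.h ^ p * N - ∑ v', E v' * a v' l := h3
  have hsp : H.s * H.s ^ (p - 1) = H.s ^ p := by
    rw [← pow_succ', Nat.sub_add_cancel (Fact.out : p.Prime).one_lt.le]
  have hW : ∀ v l, H.s * H.fU p v l = (H.h ^ lvl H.d v.1 * H.s) ^ p * a v l := fun v l => by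
    rw [hfU, mul_pow, ← hsp, ← pow_mul, mul_comm (lvl H.d v.1) p]
    ring
  have hder : dX k H.s * H.fU p v l + H.s * Polynomial.derivative (H.fU p v l) =
      (H.h ^ lvl H.d v.1 * H.s) ^ p * dX k (a v l) := by
    have h4 := congrArg Polynomial.derivative (hW v l)
    rw [Polynomial.derivative_mul, Polynomial.derivative_mul, Polynomial.derivative_pow, CharP.cast_eq_zero,
      Polynomial.C_0, zero_mul, zero_mul, zero_mul, zero_add] at h4
    exact h4
  obtain ⟨j, hj⟩ : ∃ j, lvl H.d v.1 = j + 1 := ⟨lvl H.d v.1 - 1, by omega⟩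
  have h5 : (H.h ^ lvl H.d v.1 * H.s) ^ p * dX k (a v l) = (H.h ^ lvl H.d v.1 * H.s) ^ p * N -
      H.s * ∑ v', E v' * H.fU p v' l := by
    have h6 : (H.h ^ lvl H.d v.1 * H.s) ^ p = (H.h ^ j * H.s) ^ p * H.h ^ p := by
      rw [hj, ← mul_pow]
      congr 1
      ring
    have h7 : ∑ v', E v' * a v' l * (H.h ^ j * H.s) ^ p = H.s * ∑ v', E v' * H.fU p v' l := by
      rw [Finset.mul_sum]
      refine Finset.sum_congr rfl fun v' _ => ?_
      by_cases hv : lvl H.d v'.1 + 1 = lvl H.d v.1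
      · have h8 : lvl H.d v'.1 = j := by omega
        have h9 := hW v' l
        rw [h8] at h9
        linear_combination (-E v') * h9
      · rw [hE, if_neg hv]
        ring
    rw [← Finset.sum_mul] at h7
    rw [h6, ← h7, mul_assoc, h3']
    ring
  have h10 : ∀ l', H.s * H.fU p v l' = (H.h ^ lvl H.d v.1 * H.s) ^ p * a v l' := hW v
  have h11 : (H.h ^ lvl H.d v.1 * H.s) ^ p * (H.s * ∑ l', H.G l' l * a v l') =
      H.s ^ 2 * ∑ l', H.fU p v l' * H.G l' l := by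
    rw [Finset.mul_sum, Finset.mul_sum, Finset.mul_sum]
    refine Finset.sum_congr rfl fun l' _ => ?_
    linear_combination (-(H.s * H.G l' l)) * h10 l'
  have h12 : ∑ v', H.fn p v v' * H.fU p v' l = - (H.Δ * ∑ v', E v' * H.fU p v' l) := by
    rw [Finset.mul_sum, ← Finset.sum_neg_distrib]
    refine Finset.sum_congr rfl fun v' _ => ?_
    rw [hfn]
    ring
  rw [h12]
  refine mul_left_cancel₀ (pow_ne_zero 2 hs) ?_
  rw [h5] at hder
  linear_combination H.Δ * H.s * hder + (H.h ^ lvl H.d v.1 * H.s) ^ p * h2' + h11 - H.Δ * dX k H.s * h10 l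

end MPadcOH
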