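import Pool.Agent.Lib.MP_adc574_ag_OH.OD

/-!
# The frames of a family in characteristic `p`: definitions
-/

set_option autoImplicit false

namespace MPadcOH

open MvPolynomial MPadcGM MPadcHM MPadcLZ MPadcBK MPadcOA

section

variable {k : Type} [Field k] (p : ℕ) [Fact p.Prime] [CharP k p] {m g : ℕ} (H : HD k m g)

/-- The functionals on the symplectic basis, without denominators. -/
noncomputable def HD.fU : Matrix H.V (Nx g) (Polynomial k) := fun v l =>
  H.h ^ (p * lvl H.d v.1) * H.s ^ (p - 1) * gf p H.d H.F H.V H.c v (H.P l)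

/-- The strictly triangular matrix. -/
noncomputable def HD.fn : Matrix H.V H.V (Polynomial k) := fun v v' =>
  if lvl H.d v'.1 + 1 = lvl H.d v.1 then
    - (H.Δ * ell (fun v e => H.c v e ^ p) v (vB p (dX k) H.F * monomial v'.1 1)) else 0

/-- The row. -/
def HD.row {R : Type} [CommRing R] {m g : ℕ} (H : HD R m g) (i : Fin g) : H.V := (H.low i).1

/-- The level of a row. -/
def HD.lw {R : Type} [CommRing R] {m g : ℕ} (H : HD R m g) (i : Fin g) : ℕ := lvl H.d (H.row i).1

end

end MPadcOH
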