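import Pool.Agent.Lib.MP_adc574_ag_LZ.HGd
import Pool.Agent.Lib.MP_adc574_ag_LZ.Pair

/-!
# S3: the pairing of the module `P_K` is the explicit one

PROOF. `is_pair`: this is the proof of `pairing` in MP_adc574_ag_LZ/Pair.lean, with the witnesses `Bil H d`, `resf (gr F)`; copy it (`H` is given; `M` only enters through `H`; `[CharZero K]` is not used there except where instances need it: keep it). `exists_ppB`: the proof of `exists_pp` in MP_adc574_ag_LZ/HGd.lean with this pairing: it
defines `B` on the quotient by `exists_lift` twice with `B (brP P) (brP Q) = Bil H d P Q`; keep this equation in the conclusion.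
-/

set_option autoImplicit false

namespace MPadcOH

open MvPolynomial MPadcHM MPadcLZ

theorem is_pair {K : Type} [Field K] [CharZero K] {N : ℕ} (hN : 1 ≤ N) {d : ℕ} (hd : 2 ≤ d)
    (F : MvPolynomial (Fin N) K) (hF : Hm d F) (H : RegF (d - 1) F) : IsPair d F (Bil H d) (resf (gr F)) := by
  have hde : d = (d - 1) + 1 := by omega
  have he2 : d - 1 - 1 = d - 2 := by omega
  have hN2 : N * (d - 2) + 2 * N = N * d := by
    have : N * (d - 2) + 2 * N = N * ((d - 2) + 2) := by ring
    rw [this]
    congr 1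
    omega
  -- the residue kills the wrong degrees
  have hres : ∀ (m : ℕ) (P : MvPolynomial (Fin N) K), Hm m P → m ≠ N * (d - 2) →
      resf (gr F) P = 0 := by
    intro m P hP hm
    refine resf_hom H.sop (fun _ => d - 1) H.hom m P hP ?_
    rw [Finset.sum_const, Finset.card_univ, Fintype.card_fin, smul_eq_mul]
    intro hc
    apply hm
    have h3 : N * (d - 1) = N * (d - 2) + N := by
      have : N * (d - 2) + N = N * ((d - 2) + 1) := by ring
      rw [this]
      congr 1
      omega
    omega
  refine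
    { relL := fun i Q y => bil_relL H hde hN hF i Q y
      relR := fun i Q y => bil_relR H hde hN hF i Q y
      flat := fun D x y => bil_flat H hde hF D x y
      outL := fun u y hu => bil_outL H (hm_mono u 1) hu y
      outR := fun u y hu => bil_outR H (hm_mono u 1) hu y
      low := ?_
      mid := ?_
      rho_jac := fun i Q => resf_mem H.sop _
        (Ideal.mul_mem_right _ _ (Ideal.subset_span ⟨i, rfl⟩))
      rho_perf := ?_
      top := ?_ }
  · intro u v huv
    rw [bil_mon]
    unfold bmon
    split_ifs with h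
    · obtain ⟨⟨A, hA⟩, B, hB⟩ := h
      have hd0 : 0 < d := by omega
      rw [hA, hB, Nat.mul_div_cancel_left _ hd0, Nat.mul_div_cancel_left _ hd0, bet_neg, mul_zero]
      have h1 : d * (A + B) < d * N := by
        have h2 : d * (A + B) = dg u + dg v + 2 * N := by
          rw [mul_add, ← hA, ← hB]
          ring
        have h3 : d * N = N * d := mul_comm _ _
        omega
      have h4 : A + B < N := lt_of_mul_lt_mul_left h1 (Nat.zero_le _)
      omega
    · rfl
  · intro u v hu huv
    obtain ⟨A, hA⟩ := hu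
    have hd0 : 0 < d := by omega
    have hAN : A ≤ N := by
      have h1 : d * A ≤ d * N := by
        rw [← hA]
        have h3 : d * N = N * d := mul_comm _ _
        omega
      exact le_of_mul_le_mul_left h1 hd0
    have hB : dg v + N = d * (N - A) := by
      have h1 : d * (N - A) + d * A = d * N := by
        rw [← mul_add]
        congr 1
        omega
      have h3 : d * N = N * d := mul_comm _ _
      omega
    rw [bil_mon]
    unfold bmon
    rw [if_pos ⟨⟨A, hA⟩, ⟨N - A, hB⟩⟩, hA, hB, Nat.mul_div_cancel_left _ hd0,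
      Nat.mul_div_cancel_left _ hd0]
    have h5 : ((A : ℤ) + ((N - A : ℕ) : ℤ) - N) = 0 := by
      omega
    rw [h5, bet_zero, monomial_mul, mul_one]
  · intro m hm P hP hv
    refine resf_nondeg H.sop (fun j => mem_X H.he (H.hom j)) P ?_
    intro v
    by_cases hc : dg v + m = N * (d - 2)
    · exact hv v hc
    · exact hres _ _ (hm_mul hP (hm_mono v 1)) (by omega)
  · intro u hu
    refine resf_nondeg H.sop (fun j => mem_X H.he (H.hom j)) _ ?_
    intro v
    exact hres _ _ (hm_mul (hm_mono u 1) (hm_mono v 1)) (by omega)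

theorem exists_ppB {κ : Type} [Field κ] [CharZero κ] {N : ℕ} (S : PDat κ N) (hS : S.Ok) {nab : PKm S.d S.FK →+ PKm S.d S.FK}
    (hG : IsHG S nab (brP S.d S.FK)) : ∃ (H : RegF (S.d - 1) S.FK) (B : PKm S.d S.FK →ₗ[RatFunc κ] PKm S.d S.FK →ₗ[RatFunc κ] RatFunc κ)
      (rho : MvPolynomial (Fin N) (RatFunc κ) →ₗ[RatFunc κ] RatFunc κ), IsPP S nab (brP S.d S.FK) B rho ∧
        ∀ P Q, B (brP S.d S.FK P) (brP S.d S.FK Q) = Bil H S.d P Q := by
  have hc1 : CharZero (RatFunc κ) :=
    charZero_of_injective_algebraMap (algebraMap κ (RatFunc κ)).injective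
  obtain ⟨M, hM⟩ := fk_jac S hS
  have hN : 1 ≤ N := le_trans (by norm_num) hS.hN
  have hd : 2 ≤ S.d := le_trans (by norm_num) hS.hd
  have H : RegF (S.d - 1) S.FK :=
    { sop := fun i => ⟨M, hM i⟩
      hom := fun j => hm_pderiv (fk_hom S hS) j
      he := by omega }
  have hB := is_pair hN hd S.FK (fk_hom S hS) H
  obtain ⟨B', hB'⟩ : ∃ B', B' = Bil H S.d := ⟨_, rfl⟩
  obtain ⟨rho, hrho⟩ : ∃ rho, rho = resf (gr S.FK) := ⟨_, rfl⟩
  rw [← hB', ← hrho] at hB
  obtain ⟨B1, hB1⟩ := exists_lift S.d S.FK B'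
    (fun i Q => LinearMap.ext fun y => by rw [hB.relL, LinearMap.zero_apply])
    (fun e he => LinearMap.ext fun y => by rw [hB.outL e y he, LinearMap.zero_apply])
  obtain ⟨B2, hB2⟩ := exists_lift S.d S.FK B1.flip
    (fun i Q => LinearMap.ext fun x => by
      obtain ⟨P, rfl⟩ := brP_surj S.d S.FK x
      rw [LinearMap.flip_apply, hB1, hB.relR, LinearMap.zero_apply])
    (fun e he => LinearMap.ext fun x => by
      obtain ⟨P, rfl⟩ := brP_surj S.d S.FK x
      rw [LinearMap.flip_apply, hB1, hB.outR e P he, LinearMap.zero_apply])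
  have hBB : ∀ P Q, B2.flip (brP S.d S.FK P) (brP S.d S.FK Q) = B' P Q := by
    intro P Q
    rw [LinearMap.flip_apply, hB2, LinearMap.flip_apply, hB1]
  refine ⟨H, B2.flip, rho, ⟨?_, ?_, ?_, hB.rho_jac, hB.rho_perf, hB.top⟩, fun P Q => by rw [hBB, hB']⟩
  · intro x y
    obtain ⟨P, rfl⟩ := brP_surj S.d S.FK x
    obtain ⟨Q, rfl⟩ := brP_surj S.d S.FK y
    rw [hG.nab_br, hG.nab_br, hBB, hBB, hBB, ← hB.flat (DZ κ), DZ_apply]
  · intro u v h
    rw [hBB]
    exact hB.low u v h
  · intro u v h1 h2
    rw [hBB]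
    exact hB.mid u v h1 h2

end MPadcOH
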