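import Pool.Agent.Lib.MP_adc574_ag_OH.OP

/-!
# S4: the pairing over all fields from the pairing over one field

PROOF. `R' = Polynomial R` is a domain. By `hsm` (with `e = single i M`, `dg e = M`) `C H.Δ * X i ^ M ∈ Jac H.F` for all `i`; `bil_bc` (P7, OP.lean) with `a = H.Δ` gives for every pair `v v'` of exponents in `H.V` an element `b v v'` and a number `n v v'`; replace them by a common `n` (the maximum; multiply `b` by a power of `H.Δ`).
For a field `L` and `β : Polynomial R →+* L`, `β H.Δ ≠ 0`, `K' : RegF _ (H.F.map β)`: `(H.P l).map β = ∑ v, β (Q l v) • x ^ v`, so `β Δ ^ n * Bil K' d ((H.P l).map β) ((H.P l').map β) = ∑ v v', β (Q l v) * β (Q l' v') * β (b v v') = β (y l l')` with `y l l' = ∑ v v', Q l v * Q l' v' * b v v'`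
(`LinearMap` sums). For `K`, `α`: `α (y l l') = α (Δ ^ n * (- s ^ 2 * JJ l l'))` (`hpar`; the entries of `JJ` are `0, 1, -1`), `α` is injective, so `y l l' = Δ ^ n * (- s ^ 2 * JJ g (Polynomial R) l l')`. Apply `β` and cancel `β Δ ^ n`. (`RegF` for `α`: `hreg`.)
-/

set_option autoImplicit false

namespace MPadcOH

open MvPolynomial MPadcGM MPadcHM MPadcLZ MPadcBK MPadcOA

private theorem S4_JJ {R S : Type} [CommRing R] [CommRing S] (φ : R →+* S) (g : ℕ) (l l' : Nx g) :
    φ (JJ g R l l') = JJ g S l l' := by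
  unfold JJ
  rcases l with i | i <;> rcases l' with j | j
  · rw [Matrix.fromBlocks_apply₁₁, Matrix.fromBlocks_apply₁₁, Matrix.zero_apply, Matrix.zero_apply, map_zero]
  · rw [Matrix.fromBlocks_apply₁₂, Matrix.fromBlocks_apply₁₂]
    by_cases h : i = j
    · rw [h, Matrix.one_apply_eq, Matrix.one_apply_eq, map_one]
    · rw [Matrix.one_apply_ne h, Matrix.one_apply_ne h, map_zero]
  · rw [Matrix.fromBlocks_apply₂₁, Matrix.fromBlocks_apply₂₁, Matrix.neg_apply, Matrix.neg_apply, map_neg]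
    by_cases h : i = j
    · rw [h, Matrix.one_apply_eq, Matrix.one_apply_eq, map_one]
    · rw [Matrix.one_apply_ne h, Matrix.one_apply_ne h, map_zero]
  · rw [Matrix.fromBlocks_apply₂₂, Matrix.fromBlocks_apply₂₂, Matrix.zero_apply, Matrix.zero_apply, map_zero]

private theorem S4_P {R : Type} [CommRing R] {m g : ℕ} (H : HD R m g) {L : Type} [Field L] (β : Polynomial R →+* L)
    (l : Nx g) : (H.P l).map β = ∑ v : H.V, β (H.Q l v) • monomial v.1 (1 : L) := by
  unfold HD.P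
  rw [map_sum]
  refine Finset.sum_congr rfl fun v _ => ?_
  rw [map_mul, map_C, map_monomial, map_one, smul_eq_C_mul]

private theorem S4_bil {R : Type} [CommRing R] {m g : ℕ} (H : HD R m g) {L : Type} [Field L] (β : Polynomial R →+* L)
    (K' : RegF (H.d - 1) (H.F.map β)) (l l' : Nx g) :
    Bil K' H.d ((H.P l).map β) ((H.P l').map β) =
      ∑ v : H.V, ∑ v' : H.V, β (H.Q l v) * β (H.Q l' v') * Bil K' H.d (monomial v.1 1) (monomial v'.1 1) := by
  rw [S4_P, S4_P, map_sum (Bil K' H.d), LinearMap.sum_apply]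
  refine Finset.sum_congr rfl fun v _ => ?_
  rw [map_sum]
  refine Finset.sum_congr rfl fun v' _ => ?_
  rw [map_smul, map_smul, LinearMap.smul_apply, smul_eq_mul, smul_eq_mul]
  ring

theorem par_of {R : Type} [CommRing R] [IsDomain R] {m g : ℕ} (H : HD R m g) (hd : 3 ≤ H.d) (hF : H.F.IsHomogeneous H.d)
    (hsm : ∃ M : ℕ, ∀ e : Fin m →₀ ℕ, M ≤ dg e → C H.Δ * monomial e 1 ∈ Jac H.F) (hΔ : H.Δ ≠ 0)
    {K : Type} [Field K] (α : Polynomial R →+* K) (hα : Function.Injective α) (hreg : RegF (H.d - 1) (H.F.map α))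
    (hpar : ∀ l l' : Nx g, Bil hreg H.d ((H.P l).map α) ((H.P l').map α) = - (α H.s) ^ 2 * JJ g K l l')
    (L : Type) [Field L] (β : Polynomial R →+* L) (hβ : β H.Δ ≠ 0) (K' : RegF (H.d - 1) (H.F.map β)) (l l' : Nx g) :
    Bil K' H.d ((H.P l).map β) ((H.P l').map β) = - (β H.s) ^ 2 * JJ g L l l' := by
  obtain ⟨M, hM⟩ := hsm
  have hX : ∀ i : Fin m, C H.Δ * X i ^ M ∈ Jac H.F := by
    intro i
    rw [X_pow_eq_monomial]
    refine hM (Finsupp.single i M) (le_of_eq ?_)
    unfold dg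
    rw [Finset.sum_eq_single i, Finsupp.single_eq_same]
    · intro j _ hj
      exact Finsupp.single_eq_of_ne hj
    · intro h
      exact absurd (Finset.mem_univ i) h
  have hb := fun v v' : H.V => bil_bc hd H.F hF H.Δ M hX v.1 v'.1
  choose b n hbn using hb
  obtain ⟨N, hN⟩ : ∃ N : ℕ, ∀ v v', n v v' ≤ N := by
    refine ⟨∑ v : H.V, ∑ v' : H.V, n v v', fun v v' => ?_⟩
    refine (Finset.single_le_sum (f := fun v' => n v v') (fun _ _ => Nat.zero_le _) (Finset.mem_univ v')).trans ?_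
    exact Finset.single_le_sum (f := fun v => ∑ v' : H.V, n v v') (fun _ _ => Nat.zero_le _) (Finset.mem_univ v)
  obtain ⟨y, hy⟩ : ∃ y : Nx g → Nx g → Polynomial R,
      ∀ l l', y l l' = ∑ v : H.V, ∑ v' : H.V, H.Q l v * H.Q l' v' * (H.Δ ^ (N - n v v') * b v v') :=
    ⟨_, fun _ _ => rfl⟩
  have hval : ∀ (L : Type) [Field L] (β : Polynomial R →+* L), β H.Δ ≠ 0 → ∀ (K' : RegF (H.d - 1) (H.F.map β))
      (l l' : Nx g), β H.Δ ^ N * Bil K' H.d ((H.P l).map β) ((H.P l').map β) = β (y l l') := by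
    intro L _ β hβ K' l l'
    rw [S4_bil, hy, map_sum, Finset.mul_sum]
    refine Finset.sum_congr rfl fun v _ => ?_
    rw [map_sum, Finset.mul_sum]
    refine Finset.sum_congr rfl fun v' _ => ?_
    rw [map_mul, map_mul, map_mul, map_pow, ← hbn v v' L β hβ K']
    have h1 : β H.Δ ^ N = β H.Δ ^ (N - n v v') * β H.Δ ^ n v v' := by
      rw [← pow_add, Nat.sub_add_cancel (hN v v')]
    rw [h1]
    ring
  have hα0 : α H.Δ ≠ 0 := (map_ne_zero_iff α hα).2 hΔ
  have h1 : H.Δ ^ N * (- H.s ^ 2 * JJ g (Polynomial R) l l') = y l l' := by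
    apply hα
    rw [← hval K α hα0 hreg l l', hpar, map_mul, map_mul, map_pow, map_neg, map_pow, S4_JJ]
  have h2 := hval L β hβ K' l l'
  rw [← h1, map_mul, map_mul, map_pow, map_neg, map_pow, S4_JJ] at h2
  exact mul_left_cancel₀ (pow_ne_zero _ hβ) h2

end MPadcOH
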